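import Mathlib
import Pool.Agent.PnMn.SumInv

set_option autoImplicit false

/-!
# Module MER
Mertens bounds. `Pool.Agent.PnMn.sumInvPrimes` (file `PnMn/SumInv.lean`) gives
`∑_{p ≤ x} 1/p ≤ log log x + C`. For the product: `1 - t ≥ exp (-(t + t^2))` for `0 ≤ t ≤ 1/2`
and `∑ 1/p^2 ≤ 1`, so `∏_{p ≤ R} (1 - 1/p) ≥ exp (-(log log R + C + 1))`.
-/

namespace Pool.Agent.SCM

open Finset

lemma MER_.exp_le {t : ℝ} (h0 : 0 ≤ t) (h1 : t ≤ 1 / 2) :
    Real.exp (-(t + t ^ 2)) ≤ 1 - t := by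
  have hx : 0 ≤ t + t ^ 2 := by positivity
  have h2 := Real.quadratic_le_exp_of_nonneg hx
  rw [Real.exp_neg, inv_le_comm₀ (Real.exp_pos _) (by linarith)]
  refine le_trans ?_ h2
  rw [inv_le_iff_one_le_mul₀ (by linarith)]
  have h3 : 0 ≤ 1 - t - t ^ 2 - t ^ 3 := by nlinarith [mul_nonneg h0 h0, pow_nonneg h0 3]
  have h4 : 0 ≤ t ^ 2 * (1 - t - t ^ 2 - t ^ 3) := by positivity
  nlinarith

lemma MER_.sum_sq (R : ℕ) (hR : 2 ≤ R) :
    ∑ p ∈ (Icc 1 R).filter Nat.Prime, (1 / (p : ℝ)) ^ 2 ≤ 1 := by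
  have h1 : ∑ p ∈ (Icc 1 R).filter Nat.Prime, (1 / (p : ℝ)) ^ 2 ≤
      ∑ i ∈ Ioc 1 R, ((i : ℝ) ^ 2)⁻¹ := by
    have e : ∀ p ∈ (Icc 1 R).filter Nat.Prime, (1 / (p : ℝ)) ^ 2 = ((p : ℝ) ^ 2)⁻¹ := by
      intro p _
      rw [one_div, inv_pow]
    rw [sum_congr rfl e]
    apply sum_le_sum_of_subset_of_nonneg
    · intro p hp
      rw [mem_filter, mem_Icc] at hp
      rw [mem_Ioc]
      exact ⟨hp.2.one_lt, hp.1.2⟩
    · intro i _ _
      positivity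
  have h2 := sum_Ioc_inv_sq_le_sub (α := ℝ) (k := 1) (n := R) one_ne_zero (by omega)
  have h3 : (0 : ℝ) ≤ (R : ℝ)⁻¹ := by positivity
  refine h1.trans (h2.trans ?_)
  simp only [Nat.cast_one, inv_one]
  linarith

theorem mertens : ∃ C : ℝ, 0 < C ∧ ∀ R : ℕ, 2 ≤ R →
    ∑ p ∈ (Icc 1 R).filter Nat.Prime, (1 / (p : ℝ)) ≤ Real.log (Real.log R) + C ∧
    1 / (C * Real.log R) ≤ ∏ p ∈ (Icc 1 R).filter Nat.Prime, (1 - 1 / (p : ℝ)) := by
  obtain ⟨C0, hC0⟩ := Pool.Agent.PnMn.sumInvPrimes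
  refine ⟨max C0 (Real.exp (C0 + 1)), lt_of_lt_of_le (Real.exp_pos _) (le_max_right _ _), ?_⟩
  intro R hR
  have h1 := hC0 R hR
  have hR' : (2 : ℝ) ≤ R := by exact_mod_cast hR
  have hL : 0 < Real.log R := Real.log_pos (by linarith)
  refine ⟨h1.trans (by gcongr; exact le_max_left _ _), ?_⟩
  have h2 : Real.exp (-(∑ p ∈ (Icc 1 R).filter Nat.Prime, (1 / (p : ℝ)) +
      ∑ p ∈ (Icc 1 R).filter Nat.Prime, (1 / (p : ℝ)) ^ 2)) ≤
      ∏ p ∈ (Icc 1 R).filter Nat.Prime, (1 - 1 / (p : ℝ)) := by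
    rw [← sum_add_distrib, ← sum_neg_distrib, Real.exp_sum]
    apply prod_le_prod
    · intro p _
      exact (Real.exp_pos _).le
    · intro p hp
      have hp2 : (2 : ℝ) ≤ p := by exact_mod_cast (mem_filter.1 hp).2.two_le
      apply MER_.exp_le (by positivity)
      rw [div_le_div_iff₀ (by linarith) (by norm_num)]
      linarith
  refine le_trans ?_ h2
  have h3 := MER_.sum_sq R hR
  have h4 : 1 / (max C0 (Real.exp (C0 + 1)) * Real.log R) ≤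
      1 / (Real.exp (C0 + 1) * Real.log R) := by
    gcongr
    exact le_max_right _ _
  refine h4.trans ?_
  have h5 : 1 / (Real.exp (C0 + 1) * Real.log R) =
      Real.exp (-(Real.log (Real.log R) + (C0 + 1))) := by
    rw [Real.exp_neg, Real.exp_add (Real.log (Real.log R)), Real.exp_log hL, one_div, mul_comm]
  rw [h5]
  apply Real.exp_le_exp.2
  linarith

end Pool.Agent.SCM
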