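import Mathlib

set_option autoImplicit false

/-!
# Project SCM: definitions

A sieve for residue classes with composite moduli. `m i` is the modulus and `c i` the residue class of
the event `i`. The events `i` of a finite set `I` are almost independent if few pairs of moduli have a
common factor.
-/

namespace Pool.Agent.SCM

open Finset

/-- `uu m c i j` is `P(E_i and E_j) / (P(E_i) P(E_j)) - 1` for the events
`E_i : n ≡ c i (mod m i)`: it is `0` if the moduli are coprime, `g - 1` if `g = gcd > 1` and the two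
classes are compatible modulo `g`, and `-1` otherwise. -/
noncomputable def uu {ι : Type} (m : ι → ℕ) (c : ι → ℤ) (i j : ι) : ℝ :=
  if (m i).gcd (m j) = 1 then 0
  else if c i ≡ c j [ZMOD (((m i).gcd (m j) : ℕ) : ℤ)] then (((m i).gcd (m j) : ℕ) : ℝ) - 1
  else -1

/-- pairwise coprime moduli -/
def Cop {ι : Type} (m : ι → ℕ) (J : Finset ι) : Prop :=
  ∀ i ∈ J, ∀ j ∈ J, i ≠ j → (m i).Coprime (m j)

open Classical in
/-- the `k`-element subsets of `I` with pairwise coprime moduli -/
noncomputable def fam {ι : Type} (I : Finset ι) (m : ι → ℕ) (k : ℕ) : Finset (Finset ι) :=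
  (I.powersetCard k).filter (fun J => Cop m J)

/-- the weight (probability) of a family -/
noncomputable def wt {ι : Type} (m : ι → ℕ) (J : Finset ι) : ℝ := ∏ i ∈ J, (1 / (m i : ℝ))

/-- total weight of the pairwise coprime `k`-families -/
noncomputable def mass {ι : Type} (I : Finset ι) (m : ι → ℕ) (k : ℕ) : ℝ := ∑ J ∈ fam I m k, wt m J

/-- the correlation sum of a family `J` with all events -/
noncomputable def theta {ι : Type} (I : Finset ι) (m : ι → ℕ) (c : ι → ℤ) (J : Finset ι) : ℝ :=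
  ∑ i ∈ I, (1 / (m i : ℝ)) * ((∏ j ∈ J, (1 + |uu m c i j|)) - 1)

/-- `n` has no prime factor `≤ R` -/
def Rough (R n : ℕ) : Prop := ∀ p : ℕ, p.Prime → p ∣ n → R < p

/-- the modulus `x y + 1` -/
def mo (t : ℕ × ℕ) : ℕ := t.1 * t.2 + 1

/-- the residue class `x + y` -/
def cl (t : ℕ × ℕ) : ℤ := (t.1 : ℤ) + t.2

open Classical in
/-- the events used: `X ≤ x ≤ Z`, `Z^3 ≤ y ≤ Z^4` and `x y + 1` has no prime factor `≤ R` -/
noncomputable def Idx (X Z R : ℕ) : Finset (ℕ × ℕ) :=
  ((Icc X Z) ×ˢ (Icc (Z ^ 3) (Z ^ 4))).filter (fun t => Rough R (t.1 * t.2 + 1))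

/-- `R_3(n) = 0` -/
def NoRep (n : ℕ) : Prop :=
  ¬ ∃ x y z : ℕ, 0 < x ∧ 0 < y ∧ 0 < z ∧ n = x * y * z + x + y + z

end Pool.Agent.SCM
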