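import Mathlib

set_option autoImplicit false

/-!
# Module APS
Sums of reciprocals over arithmetic progressions.

Proof of `ap_sum`. Let `y_1 < ... < y_s` be the elements of the class in `[A, B]`, `y_{j+1} = y_j + d`.
Upper bound: `1/y_j ≤ (1/d) (log y_j - log y_{j-1})` for `j ≥ 2`, so the sum is
`≤ 1/A + (1/d) log (B/A)`. Lower bound: `1/y_j ≥ (1/d)(log y_{j+1} - log y_j)`, sum
`≥ (1/d) (log (y_s + d) - log y_1) ≥ (1/d) (log B - log (A + d)) ≥ (1/d) log (B/A) - 1/A`
(`y_1 < A + d`, `y_s + d > B`, `log (1 + d/A) ≤ d/A`; also true if the class has no element in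
`[A, B]`). One way: induction on `B`, or compare with the sum over residues.
`dvd_sum_le`: if `d ∣ x y + 1` is solvable then `gcd (x, d) = 1` and the condition is one residue class
for `y` modulo `d`.
-/

namespace Pool.Agent.SCM

open Finset

namespace APS_

theorem log_step {x d : ℝ} (hx : 0 < x) (hd : 0 < d) :
    1 / (x + d) ≤ (Real.log (x + d) - Real.log x) / d ∧
      (Real.log (x + d) - Real.log x) / d ≤ 1 / x := by
  have hxd : 0 < x + d := by linarith
  constructor
  · rw [div_le_div_iff₀ hxd hd]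
    have h := Real.log_le_sub_one_of_pos (div_pos hx hxd)
    rw [Real.log_div hx.ne' hxd.ne'] at h
    have h2 : x / (x + d) - 1 = - d / (x + d) := by
      field_simp
      ring
    rw [h2, neg_div] at h
    have h3 : d / (x + d) * (x + d) = d := by field_simp
    nlinarith
  · rw [div_le_div_iff₀ hd hx]
    have h := Real.log_le_sub_one_of_pos (div_pos hxd hx)
    rw [Real.log_div hxd.ne' hx.ne'] at h
    have h2 : (x + d) / x - 1 = d / x := by
      field_simp
      ring
    rw [h2] at h
    have h3 : d / x * x = d := by field_simp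
    nlinarith

theorem upper {y d : ℝ} (hy : 0 < y) (hd : 0 < d) (s : ℕ) :
    ∑ j ∈ range (s + 1), 1 / (y + j * d) ≤
      1 / y + (Real.log (y + s * d) - Real.log y) / d := by
  induction s with
  | zero => simp
  | succ s ih =>
    rw [sum_range_succ]
    have h1 : 0 < y + s * d := by positivity
    have h2 := (log_step h1 hd).1
    have h3 : y + (s : ℝ) * d + d = y + ((s + 1 : ℕ) : ℝ) * d := by
      push_cast
      ring
    rw [h3] at h2
    have h4 : (Real.log (y + ((s + 1 : ℕ) : ℝ) * d) - Real.log y) / d =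
        (Real.log (y + s * d) - Real.log y) / d +
        (Real.log (y + ((s + 1 : ℕ) : ℝ) * d) - Real.log (y + s * d)) / d := by
      ring
    rw [h4]
    linarith

theorem lower {y d : ℝ} (hy : 0 < y) (hd : 0 < d) (s : ℕ) :
    (Real.log (y + s * d) - Real.log y) / d ≤ ∑ j ∈ range s, 1 / (y + j * d) := by
  induction s with
  | zero => simp
  | succ s ih =>
    rw [sum_range_succ]
    have h1 : 0 < y + s * d := by positivity
    have h2 := (log_step h1 hd).2
    have h3 : y + (s : ℝ) * d + d = y + ((s + 1 : ℕ) : ℝ) * d := by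
      push_cast
      ring
    rw [h3] at h2
    have h4 : (Real.log (y + ((s + 1 : ℕ) : ℝ) * d) - Real.log y) / d =
        (Real.log (y + s * d) - Real.log y) / d +
        (Real.log (y + ((s + 1 : ℕ) : ℝ) * d) - Real.log (y + s * d)) / d := by
      ring
    rw [h4]
    linarith

open Classical in
theorem para (A B d : ℕ) (c : ℤ) (hAB : A ≤ B) (hd : 1 ≤ d) :
    ∃ r s : ℕ, r < d ∧ B < A + r + s * d ∧ (s = 0 ∨ A + r + (s - 1) * d ≤ B) ∧
      ∑ y ∈ (Icc A B).filter (fun y : ℕ => (y : ℤ) ≡ c [ZMOD (d : ℤ)]), (1 / (y : ℝ)) =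
      ∑ j ∈ range s, 1 / ((((A + r : ℕ) : ℝ)) + j * (d : ℝ)) := by
  have hd0 : (0 : ℤ) < d := by exact_mod_cast hd
  obtain ⟨r, hr⟩ : ∃ r : ℕ, (r : ℤ) = (c - A) % d :=
    ⟨((c - A) % d).toNat, Int.toNat_of_nonneg (Int.emod_nonneg _ hd0.ne')⟩
  have hrd : r < d := by
    have := Int.emod_lt_of_pos (c - A) hd0
    rw [← hr] at this
    exact_mod_cast this
  have hc : ((A + r : ℕ) : ℤ) ≡ c [ZMOD (d : ℤ)] := by
    push_cast
    rw [hr]
    have h1 : (c - A) % d ≡ c - A [ZMOD (d : ℤ)] := Int.mod_modEq _ _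
    have h2 := h1.add_left (A : ℤ)
    simpa using h2
  have hs : ∃ s : ℕ, (∀ j, A + r + j * d ≤ B ↔ j < s) := by
    refine ⟨(B + d - A - r) / d, fun j => ?_⟩
    rw [← Nat.succ_le_iff, Nat.le_div_iff_mul_le (by omega), Nat.succ_mul]
    omega
  obtain ⟨s, hs⟩ := hs
  refine ⟨r, s, hrd, ?_, ?_, ?_⟩
  · by_contra h
    have := (hs s).1 (by omega)
    omega
  · rcases Nat.eq_zero_or_pos s with h | h
    · exact Or.inl h
    · exact Or.inr ((hs (s - 1)).2 (by omega))
  · symm
    refine sum_bij (fun j _ => A + r + j * d) ?_ ?_ ?_ ?_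
    · intro j hj
      rw [mem_range] at hj
      rw [mem_filter, mem_Icc]
      refine ⟨⟨by rw [add_assoc]; exact Nat.le_add_right _ _, (hs j).2 hj⟩, ?_⟩
      have h1 : ((A + r + j * d : ℕ) : ℤ) = ((A + r : ℕ) : ℤ) + j * d := by push_cast; ring
      rw [h1]
      have h2 : ((A + r : ℕ) : ℤ) + j * d ≡ c + 0 [ZMOD (d : ℤ)] := by
        refine hc.add ?_
        exact (Int.modEq_zero_iff_dvd).2 (Dvd.intro_left _ rfl)
      simpa using h2
    · intro j _ j' _ h
      have h1 : j * d = j' * d := by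
        have h2 : A + r + j * d = A + r + j' * d := h
        omega
      exact Nat.eq_of_mul_eq_mul_right (by omega) h1
    · intro y hy
      rw [mem_filter, mem_Icc] at hy
      obtain ⟨⟨hy1, hy2⟩, hy3⟩ := hy
      have h1 : ((A + r : ℕ) : ℤ) ≡ (y : ℤ) [ZMOD (d : ℤ)] := hc.trans hy3.symm
      obtain ⟨k, hk⟩ := h1.dvd
      have hk0 : 0 ≤ k := by
        by_contra hneg
        have hk1 : k ≤ -1 := by omega
        have h2 : (d : ℤ) * k ≤ d * (-1) := mul_le_mul_of_nonneg_left hk1 hd0.le
        have h3 : (y : ℤ) ≤ A + r - d := by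
          push_cast at hk
          linarith
        have h4 : (r : ℤ) < d := by exact_mod_cast hrd
        have h5 : (A : ℤ) ≤ y := by exact_mod_cast hy1
        linarith
      obtain ⟨j, rfl⟩ := Int.eq_ofNat_of_zero_le hk0
      have hyj : y = A + r + j * d := by
        have h2 : (y : ℤ) = A + r + j * d := by
          push_cast at hk
          linarith
        exact_mod_cast h2
      refine ⟨j, ?_, hyj.symm⟩
      rw [mem_range]
      exact (hs j).1 (hyj ▸ hy2)
    · intro j _
      push_cast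
      ring

end APS_

open Classical in
theorem ap_sum (A B d : ℕ) (c : ℤ) (hA : 1 ≤ A) (hAB : A ≤ B) (hd : 1 ≤ d) :
    |(∑ y ∈ (Icc A B).filter (fun y : ℕ => (y : ℤ) ≡ c [ZMOD (d : ℤ)]), (1 / (y : ℝ))) -
      (Real.log B - Real.log A) / d| ≤ 1 / (A : ℝ) := by
  obtain ⟨r, s, hrd, h1, h2, h3⟩ := APS_.para A B d c hAB hd
  rw [h3]
  have hA0 : (0 : ℝ) < A := by exact_mod_cast hA
  have hd0 : (0 : ℝ) < d := by exact_mod_cast hd
  have hy : (0 : ℝ) < ((A + r : ℕ) : ℝ) := by
    push_cast
    positivity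
  have hB0 : (0 : ℝ) < B := by
    have : (A : ℝ) ≤ B := by exact_mod_cast hAB
    linarith
  have hlAB : Real.log A ≤ Real.log B := Real.log_le_log hA0 (by exact_mod_cast hAB)
  rw [abs_le]
  constructor
  · have hl := APS_.lower hy hd0 s
    have e1 : Real.log B ≤ Real.log (((A + r : ℕ) : ℝ) + s * d) := by
      apply Real.log_le_log hB0
      have : (B : ℝ) < ((A + r + s * d : ℕ) : ℝ) := by exact_mod_cast h1
      push_cast at this ⊢
      linarith
    have e2 : Real.log ((A + r : ℕ) : ℝ) ≤ Real.log A + d / A := by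
      have h4 := Real.log_le_sub_one_of_pos (div_pos hy hA0)
      rw [Real.log_div hy.ne' hA0.ne'] at h4
      have h5 : ((A + r : ℕ) : ℝ) / A - 1 = r / A := by
        push_cast
        field_simp
        ring
      rw [h5] at h4
      have h6 : (r : ℝ) / A ≤ d / A := by
        have : (r : ℝ) ≤ d := by exact_mod_cast hrd.le
        gcongr
      linarith
    have e3 : (Real.log B - Real.log A) / d - 1 / A ≤
        (Real.log (((A + r : ℕ) : ℝ) + s * d) - Real.log ((A + r : ℕ) : ℝ)) / d := by
      have h7 : (1 : ℝ) / A = (d / A) / d := by field_simp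
      rw [h7, ← sub_div]
      apply div_le_div_of_nonneg_right _ hd0.le
      linarith
    linarith
  · rcases h2 with rfl | h2
    · simp only [range_zero, sum_empty]
      have h8 : 0 ≤ (Real.log B - Real.log A) / d := div_nonneg (by linarith) hd0.le
      have h9 : 0 ≤ 1 / (A : ℝ) := by positivity
      linarith
    · rcases Nat.eq_zero_or_pos s with rfl | hs
      · simp only [range_zero, sum_empty]
        have h8 : 0 ≤ (Real.log B - Real.log A) / d := div_nonneg (by linarith) hd0.le
        have h9 : 0 ≤ 1 / (A : ℝ) := by positivity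
        linarith
      · obtain ⟨t, rfl⟩ : ∃ t, s = t + 1 := ⟨s - 1, by omega⟩
        have hu := APS_.upper hy hd0 t
        have e1 : Real.log (((A + r : ℕ) : ℝ) + t * d) ≤ Real.log B := by
          apply Real.log_le_log (by positivity)
          have h10 : A + r + t * d ≤ B := by simpa using h2
          have : ((A + r + t * d : ℕ) : ℝ) ≤ B := by exact_mod_cast h10
          push_cast at this ⊢
          linarith
        have e2 : Real.log A ≤ Real.log ((A + r : ℕ) : ℝ) := by
          apply Real.log_le_log hA0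
          push_cast
          have : (0 : ℝ) ≤ r := Nat.cast_nonneg _
          linarith
        have e3 : (Real.log (((A + r : ℕ) : ℝ) + t * d) - Real.log ((A + r : ℕ) : ℝ)) / d ≤
            (Real.log B - Real.log A) / d := by
          apply div_le_div_of_nonneg_right _ hd0.le
          linarith
        have e4 : 1 / ((A + r : ℕ) : ℝ) ≤ 1 / (A : ℝ) := by
          apply one_div_le_one_div_of_le hA0
          push_cast
          have : (0 : ℝ) ≤ r := Nat.cast_nonneg _
          linarith
        linarith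

open Classical in
theorem dvd_sum_co (A B d x : ℕ) (hA : 1 ≤ A) (hAB : A ≤ B) (hd : 1 ≤ d) (hx : x.Coprime d) :
    |(∑ y ∈ (Icc A B).filter (fun y : ℕ => d ∣ x * y + 1), (1 / (y : ℝ))) -
      (Real.log B - Real.log A) / d| ≤ 1 / (A : ℝ) := by
  have hg : Int.gcd (x : ℤ) (d : ℤ) = 1 := by
    rw [Int.gcd_natCast_natCast]
    exact hx
  have hbz := Int.gcd_eq_gcd_ab (x : ℤ) (d : ℤ)
  rw [hg] at hbz
  set a := Int.gcdA (x : ℤ) (d : ℤ)
  set b := Int.gcdB (x : ℤ) (d : ℤ)
  have hiff : ∀ y : ℕ, d ∣ x * y + 1 ↔ (y : ℤ) ≡ -a [ZMOD (d : ℤ)] := by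
    intro y
    rw [Int.modEq_iff_dvd, ← Int.natCast_dvd_natCast]
    constructor
    · rintro ⟨k, hk⟩
      push_cast at hk
      refine ⟨-(a * k) - b * y, ?_⟩
      push_cast at hbz
      linear_combination (-a) * hk + (-(y : ℤ)) * hbz
    · rintro ⟨k, hk⟩
      push_cast
      push_cast at hbz
      refine ⟨-(x * k) + b, ?_⟩
      linear_combination (-(x : ℤ)) * hk + hbz
  have h := ap_sum A B d (-a) hA hAB hd
  have heq : (Icc A B).filter (fun y : ℕ => d ∣ x * y + 1) =
      (Icc A B).filter (fun y : ℕ => (y : ℤ) ≡ -a [ZMOD (d : ℤ)]) := by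
    apply filter_congr
    intro y _
    exact hiff y
  rw [heq]
  exact h

open Classical in
theorem dvd_sum_le (A B d x : ℕ) (hA : 1 ≤ A) (hAB : A ≤ B) (hd : 1 ≤ d) :
    ∑ y ∈ (Icc A B).filter (fun y : ℕ => d ∣ x * y + 1), (1 / (y : ℝ)) ≤
      1 / (A : ℝ) + (Real.log B - Real.log A) / d := by
  have hd0 : (0 : ℝ) < d := by exact_mod_cast hd
  have hA0 : (0 : ℝ) < A := by exact_mod_cast hA
  have hlAB : Real.log A ≤ Real.log B := Real.log_le_log hA0 (by exact_mod_cast hAB)
  by_cases hx : x.Coprime d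
  · have h := (abs_le.1 (dvd_sum_co A B d x hA hAB hd hx)).2
    linarith
  · have hempty : (Icc A B).filter (fun y : ℕ => d ∣ x * y + 1) = ∅ := by
      apply filter_eq_empty_iff.2
      intro y _ hy
      apply hx
      have h1 : Nat.gcd x d ∣ x * y + 1 := (Nat.gcd_dvd_right x d).trans hy
      have h2 : Nat.gcd x d ∣ x * y := (Nat.gcd_dvd_left x d).mul_right y
      exact Nat.dvd_one.1 ((Nat.dvd_add_right h2).1 h1)
    rw [hempty, sum_empty]
    have h8 : 0 ≤ (Real.log B - Real.log A) / d := div_nonneg (by linarith) hd0.le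
    have h9 : 0 ≤ 1 / (A : ℝ) := by positivity
    linarith

end Pool.Agent.SCM
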