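import Mathlib

set_option autoImplicit false

/-!
# Module ESY
`∑_{|J| = k} ∏_{i ∈ J} a i ≤ (∑ a i)^k / k!` for nonnegative `a`.

Proof. Let `e k` be the left side. `(k+1) e (k+1) = ∑_{|J|=k} (∏_J a) (∑_{i ∉ J} a i) ≤ e k * e 1`
(double counting of pairs `(J', i)`, `i ∈ J'`, `|J'| = k+1`), induction. (Or: expand `(∑ a)^k` over
functions `Fin k → s` and keep the injective ones; or `Finset.esymm` / Newton/Maclaurin facts of Mathlib.)
-/

namespace Pool.Agent.SCM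

open Finset

private theorem esy_step {ι : Type} [DecidableEq ι] (s : Finset ι) (a : ι → ℝ) (k : ℕ) :
    ((k : ℝ) + 1) * ∑ J ∈ s.powersetCard (k + 1), ∏ i ∈ J, a i =
      ∑ J ∈ s.powersetCard k, ∑ i ∈ s \ J, (∏ j ∈ J, a j) * a i := by
  have h1 : ((k : ℝ) + 1) * ∑ J ∈ s.powersetCard (k + 1), ∏ i ∈ J, a i =
      ∑ J ∈ s.powersetCard (k + 1), ∑ i ∈ J, ∏ j ∈ J, a j := by
    rw [Finset.mul_sum]
    refine Finset.sum_congr rfl fun J hJ => ?_
    rw [Finset.sum_const, (Finset.mem_powersetCard.1 hJ).2, nsmul_eq_mul]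
    push_cast
    ring
  rw [h1, Finset.sum_sigma', Finset.sum_sigma']
  refine Finset.sum_nbij' (fun x => ⟨x.1.erase x.2, x.2⟩) (fun x => ⟨insert x.2 x.1, x.2⟩)
    ?_ ?_ ?_ ?_ ?_
  · rintro ⟨J, i⟩ h
    simp only [Finset.mem_sigma, Finset.mem_powersetCard, Finset.mem_sdiff] at h ⊢
    obtain ⟨⟨hJ, hc⟩, hi⟩ := h
    refine ⟨⟨(Finset.erase_subset _ _).trans hJ, ?_⟩, hJ hi, Finset.notMem_erase _ _⟩
    rw [Finset.card_erase_of_mem hi, hc]
    rfl
  · rintro ⟨J, i⟩ h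
    simp only [Finset.mem_sigma, Finset.mem_powersetCard, Finset.mem_sdiff] at h ⊢
    obtain ⟨⟨hJ, hc⟩, hi, hiJ⟩ := h
    refine ⟨⟨Finset.insert_subset hi hJ, ?_⟩, Finset.mem_insert_self _ _⟩
    rw [Finset.card_insert_of_notMem hiJ, hc]
  · rintro ⟨J, i⟩ h
    simp only [Finset.mem_sigma, Finset.mem_powersetCard] at h
    simp only [Finset.insert_erase h.2]
  · rintro ⟨J, i⟩ h
    simp only [Finset.mem_sigma, Finset.mem_powersetCard, Finset.mem_sdiff] at h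
    simp only [Finset.erase_insert h.2.2]
  · rintro ⟨J, i⟩ h
    simp only [Finset.mem_sigma, Finset.mem_powersetCard] at h
    exact (Finset.prod_erase_mul J a h.2).symm

theorem esymm_le {ι : Type} [DecidableEq ι] (s : Finset ι) (a : ι → ℝ) (ha : ∀ i ∈ s, 0 ≤ a i)
    (k : ℕ) :
    ∑ J ∈ s.powersetCard k, ∏ i ∈ J, a i ≤ (∑ i ∈ s, a i) ^ k / (k.factorial : ℝ) := by
  have hsum : 0 ≤ ∑ i ∈ s, a i := Finset.sum_nonneg ha
  induction k with
  | zero => simp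
  | succ k ih =>
    have hk : (0 : ℝ) < (k : ℝ) + 1 := by positivity
    have h2 : ((k : ℝ) + 1) * ∑ J ∈ s.powersetCard (k + 1), ∏ i ∈ J, a i ≤
        (∑ J ∈ s.powersetCard k, ∏ i ∈ J, a i) * ∑ i ∈ s, a i := by
      rw [esy_step, Finset.sum_mul]
      refine Finset.sum_le_sum fun J hJ => ?_
      rw [← Finset.mul_sum]
      refine mul_le_mul_of_nonneg_left ?_
        (Finset.prod_nonneg fun i hi => ha i ((Finset.mem_powersetCard.1 hJ).1 hi))
      exact Finset.sum_le_sum_of_subset_of_nonneg Finset.sdiff_subset fun i hi _ => ha i hi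
    have h3 : ((k : ℝ) + 1) * ∑ J ∈ s.powersetCard (k + 1), ∏ i ∈ J, a i ≤
        (∑ i ∈ s, a i) ^ k / (k.factorial : ℝ) * ∑ i ∈ s, a i :=
      h2.trans (mul_le_mul_of_nonneg_right ih hsum)
    have h4 : (∑ i ∈ s, a i) ^ (k + 1) / ((k + 1).factorial : ℝ) =
        ((∑ i ∈ s, a i) ^ k / (k.factorial : ℝ) * ∑ i ∈ s, a i) / ((k : ℝ) + 1) := by
      rw [Nat.factorial_succ]
      push_cast
      have h5 : (k.factorial : ℝ) ≠ 0 := by exact_mod_cast k.factorial_ne_zero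
      field_simp
      rw [pow_succ]
    rw [h4, le_div_iff₀ hk, mul_comm]
    exact h3

end Pool.Agent.SCM
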