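import Mathlib
import Pool.Agent.SCM.ESY

set_option autoImplicit false

/-!
# Module BON
Bonferroni inequality (odd truncation) and its product version.

`bonf`: with `T = P.filter Q`, only `D ⊆ T` contribute, the left side is
`∑_{j ≤ 2s+1} (-1)^j C(|T|, j) = - C(|T| - 1, 2s+1) ≤ 0` if `T ≠ ∅`
(`Int.alternating_sum_range_choose_eq_choose` or similar) and `1` if `T = ∅`.
`trunc`: `S t = ∑_{D ⊆ P, |D| ≤ t} (-1)^|D| ∏_D w`. For `t` even `S t ≥ ∏_P (1 - w)` (induction on `P`:
`S_{insert p P} t = S_P t - w p * S_P (t-1)`, and for `t` odd `S t ≤ ∏ (1 - w)`; both parities together;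
this needs `0 ≤ w ≤ 1`). So `S (2s+1) = S (2s+2) - e_{2s+2} ≥ ∏ (1-w) - e_{2s+2}`, and
`e_{2s+2} ≤ (∑ w)^(2s+2) / (2s+2)!` (`esymm_le`).
-/

namespace Pool.Agent.SCM

open Finset


private noncomputable def BON_S {α : Type} [DecidableEq α] (P : Finset α) (w : α → ℝ) (t : ℕ) : ℝ :=
  ∑ D ∈ P.powerset, if D.card ≤ t then (-1 : ℝ) ^ D.card * ∏ p ∈ D, w p else 0

private theorem BON_filter {α : Type} [DecidableEq α] (P : Finset α) (w : α → ℝ) (t : ℕ) :
    ∑ D ∈ P.powerset.filter (fun D => D.card ≤ t), (-1 : ℝ) ^ D.card * ∏ p ∈ D, w p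
      = BON_S P w t := by
  rw [Finset.sum_filter]
  rfl

private theorem BON_zero {α : Type} [DecidableEq α] (P : Finset α) (w : α → ℝ) :
    BON_S P w 0 = 1 := by
  unfold BON_S
  rw [Finset.sum_eq_single ∅]
  · simp
  · intro D _ hD
    rw [if_neg]
    rw [Nat.le_zero, Finset.card_eq_zero]
    exact hD
  · intro h
    exact absurd (Finset.empty_mem_powerset P) h

private theorem BON_insert {α : Type} [DecidableEq α] (P : Finset α) (w : α → ℝ) {p : α}
    (hp : p ∉ P) (t : ℕ) :
    BON_S (insert p P) w (t + 1) = BON_S P w (t + 1) - w p * BON_S P w t := by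
  unfold BON_S
  rw [Finset.sum_powerset_insert hp, sub_eq_add_neg, Finset.mul_sum, ← Finset.sum_neg_distrib]
  congr 1
  refine Finset.sum_congr rfl fun D hD => ?_
  have hpD : p ∉ D := fun h => hp (Finset.mem_powerset.1 hD h)
  rw [Finset.card_insert_of_notMem hpD, Finset.prod_insert hpD]
  by_cases h : D.card ≤ t
  · rw [if_pos (by omega), if_pos h, pow_succ]
    ring
  · rw [if_neg (by omega), if_neg h]
    ring

private theorem BON_par {α : Type} [DecidableEq α] (P : Finset α) (w : α → ℝ)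
    (h0 : ∀ p ∈ P, 0 ≤ w p) (h1 : ∀ p ∈ P, w p ≤ 1) :
    (∀ s, ∏ p ∈ P, (1 - w p) ≤ BON_S P w (2 * s)) ∧
      ∀ s, BON_S P w (2 * s + 1) ≤ ∏ p ∈ P, (1 - w p) := by
  induction P using Finset.induction_on with
  | empty =>
    constructor
    · intro s
      simp [BON_S]
    · intro s
      simp [BON_S]
  | insert p P hp ih =>
    obtain ⟨ihE, ihO⟩ := ih (fun q hq => h0 q (Finset.mem_insert_of_mem hq))
      (fun q hq => h1 q (Finset.mem_insert_of_mem hq))
    have hw0 : 0 ≤ w p := h0 p (Finset.mem_insert_self p P)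
    have hw1 : w p ≤ 1 := h1 p (Finset.mem_insert_self p P)
    have hQ : ∀ q ∈ insert p P, 0 ≤ 1 - w q := fun q hq => by
      have := h1 q hq
      linarith
    constructor
    · intro s
      cases s with
      | zero =>
        rw [Nat.mul_zero, BON_zero]
        refine Finset.prod_le_one hQ fun q hq => ?_
        have := h0 q hq
        linarith
      | succ s =>
        have h2 : 2 * (s + 1) = (2 * s + 1) + 1 := by ring
        rw [h2, BON_insert P w hp, Finset.prod_insert hp]
        have e1 := ihE (s + 1)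
        have e2 := ihO s
        rw [h2] at e1
        nlinarith
    · intro s
      rw [BON_insert P w hp, Finset.prod_insert hp]
      have e1 := ihO s
      have e2 := ihE s
      nlinarith

private theorem BON_step {α : Type} [DecidableEq α] (P : Finset α) (w : α → ℝ) (t : ℕ) :
    BON_S P w (t + 1) = BON_S P w t + (-1) ^ (t + 1) * ∑ D ∈ P.powersetCard (t + 1),
      ∏ p ∈ D, w p := by
  unfold BON_S
  rw [Finset.powersetCard_eq_filter, Finset.sum_filter, Finset.mul_sum, ← Finset.sum_add_distrib]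
  refine Finset.sum_congr rfl fun D _ => ?_
  by_cases h1 : D.card ≤ t
  · rw [if_pos (by omega), if_pos h1, if_neg (by omega)]
    ring
  · by_cases h2 : D.card = t + 1
    · rw [if_pos (by omega), if_neg h1, if_pos h2, h2]
      ring
    · rw [if_neg (by omega), if_neg h1, if_neg h2]
      ring

open Classical in
theorem bonf {α : Type} [DecidableEq α] (P : Finset α) (Q : α → Prop) (s : ℕ) :
    ∑ D ∈ P.powerset.filter (fun D => D.card ≤ 2 * s + 1),
      (if (∀ p ∈ D, Q p) then (-1 : ℝ) ^ D.card else 0) ≤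
    if (∀ p ∈ P, ¬ Q p) then 1 else 0 := by
  have hpar := (BON_par P (fun p => if Q p then (1 : ℝ) else 0)
    (fun p _ => by split_ifs <;> norm_num) (fun p _ => by split_ifs <;> norm_num)).2 s
  have hL : ∑ D ∈ P.powerset.filter (fun D => D.card ≤ 2 * s + 1),
      (if (∀ p ∈ D, Q p) then (-1 : ℝ) ^ D.card else 0)
      = BON_S P (fun p => if Q p then (1 : ℝ) else 0) (2 * s + 1) := by
    rw [← BON_filter]
    refine Finset.sum_congr rfl fun D _ => ?_
    by_cases h : ∀ p ∈ D, Q p
    · rw [if_pos h, Finset.prod_congr rfl (fun p hp => if_pos (h p hp)), Finset.prod_const_one,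
        mul_one]
    · rw [if_neg h]
      push Not at h
      obtain ⟨p, hp, hq⟩ := h
      rw [Finset.prod_eq_zero hp (if_neg hq), mul_zero]
  have hR : ∏ p ∈ P, (1 - (if Q p then (1 : ℝ) else 0))
      = if (∀ p ∈ P, ¬ Q p) then 1 else 0 := by
    by_cases h : ∀ p ∈ P, ¬ Q p
    · rw [if_pos h, Finset.prod_congr rfl (g := fun _ => (1 : ℝ)) (fun p hp => by
        rw [if_neg (h p hp), sub_zero]), Finset.prod_const_one]
    · rw [if_neg h]
      push Not at h
      obtain ⟨p, hp, hq⟩ := h
      exact Finset.prod_eq_zero hp (by rw [if_pos hq, sub_self])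
  rw [hL, ← hR]
  exact hpar

theorem trunc {α : Type} [DecidableEq α] (P : Finset α) (w : α → ℝ) (h0 : ∀ p ∈ P, 0 ≤ w p)
    (h1 : ∀ p ∈ P, w p ≤ 1) (s : ℕ) :
    (∏ p ∈ P, (1 - w p)) - (∑ p ∈ P, w p) ^ (2 * s + 2) / ((2 * s + 2).factorial : ℝ) ≤
    ∑ D ∈ P.powerset.filter (fun D => D.card ≤ 2 * s + 1), (-1 : ℝ) ^ D.card * ∏ p ∈ D, w p := by
  rw [BON_filter]
  have h2 := (BON_par P w h0 h1).1 (s + 1)
  have h3 := BON_step P w (2 * s + 1)
  have h4 := esymm_le P w h0 (2 * s + 2)
  have h5 : 2 * (s + 1) = 2 * s + 1 + 1 := by ring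
  have h6 : 2 * s + 1 + 1 = 2 * s + 2 := by ring
  have h7 : (-1 : ℝ) ^ (2 * s + 2) = 1 := by
    have : 2 * s + 2 = 2 * (s + 1) := by ring
    rw [this, pow_mul]
    norm_num
  rw [h5, h3, h6, h7, one_mul] at h2
  linarith

theorem card_small_subsets {α : Type} [DecidableEq α] (P : Finset α) (t : ℕ) :
    (P.powerset.filter (fun D => D.card ≤ t)).card ≤ (P.card + 1) ^ t := by
  have h1 : (P.powerset.filter (fun D => D.card ≤ t)).card
      = ∑ j ∈ Finset.range (t + 1), P.card.choose j := by
    have h2 : P.powerset.filter (fun D => D.card ≤ t)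
        = (Finset.range (t + 1)).biUnion (fun j => P.powersetCard j) := by
      ext D
      simp only [Finset.mem_filter, Finset.mem_powerset, Finset.mem_biUnion, Finset.mem_range,
        Finset.mem_powersetCard]
      constructor
      · rintro ⟨h1, h2⟩
        exact ⟨D.card, by omega, h1, rfl⟩
      · rintro ⟨j, hj, h1, h2⟩
        exact ⟨h1, by omega⟩
    rw [h2, Finset.card_biUnion]
    · refine Finset.sum_congr rfl fun j _ => ?_
      rw [Finset.card_powersetCard]
    · intro i _ j _ hij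
      exact Finset.pairwise_disjoint_powersetCard P hij
  rw [h1, add_pow]
  refine Finset.sum_le_sum fun j hj => ?_
  have hj' : j ≤ t := by
    have := Finset.mem_range.1 hj
    omega
  rw [one_pow, mul_one]
  calc P.card.choose j ≤ P.card ^ j := Nat.choose_le_pow _ _
    _ = P.card ^ j * 1 := (mul_one _).symm
    _ ≤ P.card ^ j * t.choose j := Nat.mul_le_mul_left _ (Nat.choose_pos hj')

end Pool.Agent.SCM
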