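import Mathlib
import Pool.Agent.SCM.Defs
import Pool.Agent.SCM.APS
import Pool.Agent.SCM.BON
import Pool.Agent.SCM.MER

set_option autoImplicit false

/-!
# Module LAM
Lower bound for the density of `y` with `x y + 1` free of prime factors `≤ R`.

Proof. Let `P` be the set of primes `p ≤ R` with `p ∤ x` (the other primes never divide `x y + 1`). By
`bonf` the indicator of `Rough R (x y + 1)` is `≥ ∑_{D ⊆ P, |D| ≤ 2s+1} (-1)^|D| 1[∏ D ∣ x y + 1]`.
Sum with weight `1/y` over `y ∈ [Z^3, Z^4]`; by `dvd_sum_co` (`log Z^4 - log Z^3 = log Z`,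
`∏ D` is coprime to `x`) the sum is at least
`log Z ∑_D (-1)^|D| / ∏ D - #D's / Z^3`, and by `trunc` (with `w p = 1/p`) at least
`log Z (∏_P (1 - 1/p) - σ^(2s+2)/(2s+2)!) - (R+1)^(2s+1)/Z^3`, `σ = ∑_{p ≤ R} 1/p ≤ log log R + C`,
`∏_P (1 - 1/p) ≥ ∏_{p ≤ R} (1 - 1/p) ≥ 1/(C log R)`. Choose `s` with `t = 2s+2 ≥ 10 (log log R + C')`,
`t ≤ 10 (log log R + C') + 2`: `σ^t/t! ≤ (e σ/t)^t ≤ e^{-t} ≤ 1/(4 C log R)` if `t ≥ e^2 σ` and
`t ≥ log (4 C log R)`. For `R` large `(R+1)^t ≤ exp ((log R)^2) ≤ Z`, so the last error is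
`≤ 1/Z^2 ≤ log Z/(4 C log R)`.
-/

namespace Pool.Agent.SCM

open Finset

namespace LAM_

theorem stirling_aux (t : ℕ) : ((t : ℝ) / Real.exp 1) ^ t ≤ (t.factorial : ℝ) := by
  rcases Nat.eq_zero_or_pos t with h0 | h0
  · subst h0; simp
  have h1 : (t : ℝ) ^ t / (t.factorial : ℝ) ≤ Real.exp t := by
    have := Real.pow_div_factorial_le_exp (x := (t : ℝ)) (by positivity) t
    exact this
  have hf : (0 : ℝ) < (t.factorial : ℝ) := by positivity
  rw [div_pow, div_le_iff₀ (by positivity)]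
  rw [div_le_iff₀ hf] at h1
  have h2 : Real.exp 1 ^ t = Real.exp t := by
    rw [← Real.exp_nat_mul]; simp
  rw [h2]
  linarith

theorem tail_aux (σ a : ℝ) (t : ℕ) (hσ : 0 ≤ σ) (h1 : Real.exp 2 * σ ≤ t) (ht : 1 ≤ t)
    (ha : 0 < a) (h2 : Real.log a ≤ t) : σ ^ t / (t.factorial : ℝ) ≤ 1 / a := by
  have htR : (0 : ℝ) < (t : ℝ) := by exact_mod_cast ht
  have hf : (0 : ℝ) < (t.factorial : ℝ) := by positivity
  have hs := stirling_aux t
  have hpos : (0 : ℝ) < ((t : ℝ) / Real.exp 1) ^ t := by positivity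
  have h3 : σ ^ t / (t.factorial : ℝ) ≤ σ ^ t / ((t : ℝ) / Real.exp 1) ^ t :=
    div_le_div_of_nonneg_left (by positivity) hpos hs
  have h4 : σ ^ t / ((t : ℝ) / Real.exp 1) ^ t = (σ * Real.exp 1 / t) ^ t := by
    rw [← div_pow]; congr 1; field_simp
  have h5 : σ * Real.exp 1 / t ≤ Real.exp (-1) := by
    rw [div_le_iff₀ htR]
    have e : Real.exp 2 = Real.exp 1 * Real.exp 1 := by rw [← Real.exp_add]; norm_num
    have e2 : Real.exp (-1) * Real.exp 1 = 1 := by rw [← Real.exp_add]; norm_num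
    have e3 : σ * Real.exp 1 = Real.exp (-1) * (Real.exp 2 * σ) := by
      rw [e]
      linear_combination (-(Real.exp 1 * σ)) * e2
    rw [e3]
    exact mul_le_mul_of_nonneg_left h1 (Real.exp_pos _).le
  have h6 : (σ * Real.exp 1 / t) ^ t ≤ Real.exp (-1) ^ t :=
    pow_le_pow_left₀ (by positivity) h5 t
  have h7 : Real.exp (-1) ^ t = Real.exp (-(t : ℝ)) := by
    rw [← Real.exp_nat_mul]; congr 1; ring
  have h8 : Real.exp (-(t : ℝ)) ≤ 1 / a := by
    rw [Real.exp_neg, inv_eq_one_div]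
    apply one_div_le_one_div_of_le ha
    rw [← Real.log_le_iff_le_exp ha]
    exact h2
  calc _ ≤ _ := h3
    _ = _ := h4
    _ ≤ _ := h6
    _ = _ := h7
    _ ≤ _ := h8

theorem large_aux (A : ℝ) : ∀ᶠ x : ℝ in Filter.atTop, 20 * Real.log x + A ≤ x := by
  have h := Real.isLittleO_log_id_atTop.bound (show (0 : ℝ) < 1 / 40 by norm_num)
  filter_upwards [h, Filter.eventually_ge_atTop (2 * A), Filter.eventually_ge_atTop (0 : ℝ)]
    with x hx h1 h2
  simp only [id, Real.norm_eq_abs, abs_of_nonneg h2] at hx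
  have := le_abs_self (Real.log x)
  linarith

open Classical in
/-- the sieve inequality for fixed parameters -/
theorem main_aux (R Z x s : ℕ) (hZ : 1 ≤ Z) :
    Real.log Z * ((∏ p ∈ ((Icc 1 R).filter Nat.Prime).filter (fun p => ¬ p ∣ x), (1 - 1 / (p : ℝ)))
      - (∑ p ∈ ((Icc 1 R).filter Nat.Prime).filter (fun p => ¬ p ∣ x), (1 / (p : ℝ)))
        ^ (2 * s + 2) / ((2 * s + 2).factorial : ℝ))
      - ((R : ℝ) + 1) ^ (2 * s + 1) * (1 / (Z : ℝ) ^ 3) ≤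
      ∑ y ∈ (Icc (Z ^ 3) (Z ^ 4)).filter (fun y => Rough R (x * y + 1)), (1 / (y : ℝ)) := by
  set P := ((Icc 1 R).filter Nat.Prime).filter (fun p => ¬ p ∣ x) with hP
  set 𝒟 := P.powerset.filter (fun D => D.card ≤ 2 * s + 1) with h𝒟
  have hPp : ∀ p ∈ P, p.Prime ∧ p ≤ R ∧ ¬ p ∣ x := by
    intro p hp
    rw [hP, mem_filter, mem_filter, mem_Icc] at hp
    exact ⟨hp.1.2, hp.1.1.2, hp.2⟩
  have hZ3 : 1 ≤ Z ^ 3 := Nat.one_le_pow _ _ hZ
  have hZ34 : Z ^ 3 ≤ Z ^ 4 := Nat.pow_le_pow_right hZ (by norm_num)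
  have hlogZ : 0 ≤ Real.log Z := Real.log_nonneg (by exact_mod_cast hZ)
  -- step 1: indicator inequality
  have hstep1 : ∑ y ∈ Icc (Z ^ 3) (Z ^ 4), (1 / (y : ℝ)) *
      ∑ D ∈ 𝒟, (if (∀ p ∈ D, p ∣ x * y + 1) then (-1 : ℝ) ^ D.card else 0) ≤
      ∑ y ∈ (Icc (Z ^ 3) (Z ^ 4)).filter (fun y => Rough R (x * y + 1)), (1 / (y : ℝ)) := by
    rw [sum_filter]
    refine sum_le_sum fun y _ => ?_
    have hb := bonf P (fun p => p ∣ x * y + 1) s
    have hy : (0 : ℝ) ≤ 1 / (y : ℝ) := by positivity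
    have hle := mul_le_mul_of_nonneg_left hb hy
    refine hle.trans ?_
    by_cases hr : Rough R (x * y + 1)
    · rw [if_pos hr]
      split_ifs
      · simp
      · rw [mul_zero]; exact hy
    · rw [if_neg hr]
      have : ¬ ∀ p ∈ P, ¬ p ∣ x * y + 1 := by
        intro hall
        apply hr
        intro p hp hpd
        by_contra hRp
        push Not at hRp
        have hpx : ¬ p ∣ x := by
          intro hx
          have h1 : p ∣ x * y := Dvd.dvd.mul_right hx y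
          have h2 : p ∣ 1 := (Nat.dvd_add_right h1).1 hpd
          exact hp.one_lt.ne' (Nat.dvd_one.1 h2)
        exact hall p (by rw [hP, mem_filter, mem_filter, mem_Icc]; exact ⟨⟨⟨hp.one_lt.le, hRp⟩, hp⟩, hpx⟩) hpd
      rw [if_neg this, mul_zero]
  -- step 2: exchange
  have hstep2 : ∑ y ∈ Icc (Z ^ 3) (Z ^ 4), (1 / (y : ℝ)) *
      ∑ D ∈ 𝒟, (if (∀ p ∈ D, p ∣ x * y + 1) then (-1 : ℝ) ^ D.card else 0) =
      ∑ D ∈ 𝒟, (-1 : ℝ) ^ D.card *
        ∑ y ∈ (Icc (Z ^ 3) (Z ^ 4)).filter (fun y : ℕ => (∏ p ∈ D, p) ∣ x * y + 1), (1 / (y : ℝ)) := by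
    simp_rw [mul_sum]
    rw [sum_comm]
    refine sum_congr rfl fun D hD => ?_
    rw [sum_filter]
    refine sum_congr rfl fun y _ => ?_
    have hiff : (∀ p ∈ D, p ∣ x * y + 1) ↔ (∏ p ∈ D, p) ∣ x * y + 1 := by
      have hDP : D ⊆ P := mem_powerset.1 (mem_filter.1 hD).1
      constructor
      · intro h
        exact Finset.prod_primes_dvd _ (fun p hp => (hPp p (hDP hp)).1.prime) h
      · intro h p hp
        exact (Finset.dvd_prod_of_mem (fun p => p) hp).trans h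
    by_cases h : ∀ p ∈ D, p ∣ x * y + 1
    · rw [if_pos h, if_pos (hiff.1 h)]; ring
    · rw [if_neg h, if_neg (fun h' => h (hiff.2 h'))]; ring
  -- step 3: each D
  have hstep3 : ∀ D ∈ 𝒟, (-1 : ℝ) ^ D.card * (Real.log Z * ∏ p ∈ D, (1 / (p : ℝ)))
      - 1 / (Z : ℝ) ^ 3 ≤ (-1 : ℝ) ^ D.card *
        ∑ y ∈ (Icc (Z ^ 3) (Z ^ 4)).filter (fun y : ℕ => (∏ p ∈ D, p) ∣ x * y + 1), (1 / (y : ℝ)) := by
    intro D hD
    have hDP : D ⊆ P := mem_powerset.1 (mem_filter.1 hD).1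
    have hd : 1 ≤ ∏ p ∈ D, p :=
      Nat.one_le_iff_ne_zero.2 (Finset.prod_ne_zero_iff.2 fun p hp => (hPp p (hDP hp)).1.ne_zero)
    have hco : x.Coprime (∏ p ∈ D, p) := by
      refine Nat.Coprime.prod_right fun p hp => ?_
      exact ((Nat.Prime.coprime_iff_not_dvd (hPp p (hDP hp)).1).2 (hPp p (hDP hp)).2.2).symm
    have h := dvd_sum_co (Z ^ 3) (Z ^ 4) (∏ p ∈ D, p) x hZ3 hZ34 hd hco
    have hl : (Real.log ((Z ^ 4 : ℕ) : ℝ) - Real.log ((Z ^ 3 : ℕ) : ℝ)) / ((∏ p ∈ D, p : ℕ) : ℝ)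
        = Real.log Z * ∏ p ∈ D, (1 / (p : ℝ)) := by
      push_cast
      rw [Real.log_pow, Real.log_pow]
      simp only [one_div, Finset.prod_inv_distrib]
      push_cast
      ring
    rw [hl] at h
    have hz : ((Z ^ 3 : ℕ) : ℝ) = (Z : ℝ) ^ 3 := by push_cast; rfl
    rw [hz] at h
    have ha : |(-1 : ℝ) ^ D.card| = 1 := by rw [abs_pow, abs_neg, abs_one, one_pow]
    have h2 : |(-1 : ℝ) ^ D.card * (∑ y ∈ (Icc (Z ^ 3) (Z ^ 4)).filter
        (fun y : ℕ => (∏ p ∈ D, p) ∣ x * y + 1), (1 / (y : ℝ))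
        - Real.log Z * ∏ p ∈ D, (1 / (p : ℝ)))| ≤ 1 / (Z : ℝ) ^ 3 := by
      rw [abs_mul, ha, one_mul]; exact h
    have h3 := (abs_le.1 h2).1
    rw [mul_sub] at h3
    linarith
  have hsum := sum_le_sum hstep3
  rw [sum_sub_distrib, sum_const, nsmul_eq_mul] at hsum
  have hcard : ((𝒟.card : ℕ) : ℝ) ≤ ((R : ℝ) + 1) ^ (2 * s + 1) := by
    have h1 := card_small_subsets P (2 * s + 1)
    have h2 : P.card ≤ R := by
      calc P.card ≤ (Icc 1 R).card := card_le_card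
            ((filter_subset _ _).trans (filter_subset _ _))
        _ = R := by simp
    have h3 : 𝒟.card ≤ (R + 1) ^ (2 * s + 1) :=
      h1.trans (Nat.pow_le_pow_left (Nat.succ_le_succ h2) _)
    exact_mod_cast h3
  have htr := trunc P (fun p => 1 / (p : ℝ)) (fun p _ => by positivity)
    (fun p hp => by
      have : (1 : ℝ) ≤ p := by exact_mod_cast (hPp p hp).1.one_lt.le
      rw [div_le_one (by linarith)]; exact this) s
  have hfac : ∑ D ∈ 𝒟, (-1 : ℝ) ^ D.card * (Real.log Z * ∏ p ∈ D, (1 / (p : ℝ)))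
      = Real.log Z * ∑ D ∈ 𝒟, (-1 : ℝ) ^ D.card * ∏ p ∈ D, (1 / (p : ℝ)) := by
    rw [mul_sum]
    refine sum_congr rfl fun D _ => by ring
  rw [hfac] at hsum
  have hmul := mul_le_mul_of_nonneg_left htr hlogZ
  have hZc : (0 : ℝ) ≤ 1 / (Z : ℝ) ^ 3 := by positivity
  have hce := mul_le_mul_of_nonneg_right hcard hZc
  linarith

end LAM_

open LAM_ in
open Classical in
theorem lam_x : ∃ c : ℝ, 0 < c ∧ ∃ R₀ : ℕ, 3 ≤ R₀ ∧ ∀ R : ℕ, R₀ ≤ R → ∀ Z : ℕ,
    (Real.log R) ^ 2 ≤ Real.log Z → ∀ x : ℕ, 1 ≤ x →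
    c * Real.log Z / Real.log R ≤
      ∑ y ∈ (Icc (Z ^ 3) (Z ^ 4)).filter (fun y => Rough R (x * y + 1)), (1 / (y : ℝ)) := by
  obtain ⟨C, hC, hM⟩ := mertens
  set A : ℝ := C + |Real.log (4 * C)| + 1 with hA
  have hA1 : 1 ≤ A := by
    have := abs_nonneg (Real.log (4 * C)); linarith
  have hlog : Filter.Tendsto (fun R : ℕ => Real.log (R : ℝ)) Filter.atTop Filter.atTop :=
    Real.tendsto_log_atTop.comp tendsto_natCast_atTop_atTop
  have hev := hlog.eventually ((large_aux (20 * A + 8)).and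
    ((Filter.eventually_ge_atTop (4 * C)).and (Filter.eventually_ge_atTop (1 : ℝ))))
  obtain ⟨R₁, hR₁⟩ := Filter.eventually_atTop.1 hev
  refine ⟨1 / (2 * C), by positivity, max R₁ 3, le_max_right _ _, ?_⟩
  intro R hR Z hZ x hx
  obtain ⟨hL1, hL2, hL3⟩ := hR₁ R ((le_max_left _ _).trans hR)
  have hR3 : 3 ≤ R := (le_max_right _ _).trans hR
  set L := Real.log (R : ℝ) with hL
  set l := Real.log L with hl
  have hl0 : 0 ≤ l := Real.log_nonneg hL3
  have hZ1 : 1 ≤ Z := by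
    by_contra h
    have h0 : Z = 0 := by omega
    rw [h0] at hZ
    simp at hZ
    nlinarith
  have hZL : 1 ≤ Real.log Z := by nlinarith
  obtain ⟨hM1, hM2⟩ := hM R (by omega)
  set s := ⌈10 * (l + A) / 2⌉₊ with hs
  have hs1 : 10 * (l + A) / 2 ≤ (s : ℝ) := Nat.le_ceil _
  have hs2 : (s : ℝ) < 10 * (l + A) / 2 + 1 := Nat.ceil_lt_add_one (by linarith)
  have hmain := main_aux R Z x s hZ1
  set P := ((Icc 1 R).filter Nat.Prime).filter (fun p => ¬ p ∣ x) with hP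
  have hPsub : P ⊆ (Icc 1 R).filter Nat.Prime := filter_subset _ _
  have hsig0 : 0 ≤ ∑ p ∈ P, (1 / (p : ℝ)) := sum_nonneg fun p _ => by positivity
  have hsig : ∑ p ∈ P, (1 / (p : ℝ)) ≤ l + C :=
    (sum_le_sum_of_subset_of_nonneg hPsub fun p _ _ => by positivity).trans hM1
  have hfac01 : ∀ p ∈ (Icc 1 R).filter Nat.Prime, 0 ≤ 1 - 1 / (p : ℝ) ∧ 1 - 1 / (p : ℝ) ≤ 1 := by
    intro p hp
    have h1 : (1 : ℝ) ≤ p := by exact_mod_cast (mem_filter.1 hp).2.one_lt.le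
    have h2 : 1 / (p : ℝ) ≤ 1 := by rw [div_le_one (by linarith)]; exact h1
    have h3 : 0 ≤ 1 / (p : ℝ) := by positivity
    exact ⟨by linarith, by linarith⟩
  have hprod : 1 / (C * L) ≤ ∏ p ∈ P, (1 - 1 / (p : ℝ)) := by
    refine hM2.trans ?_
    rw [← Finset.prod_sdiff hPsub]
    have h1 : ∏ p ∈ ((Icc 1 R).filter Nat.Prime) \ P, (1 - 1 / (p : ℝ)) ≤ 1 :=
      Finset.prod_le_one (fun p hp => (hfac01 p (mem_sdiff.1 hp).1).1)
        (fun p hp => (hfac01 p (mem_sdiff.1 hp).1).2)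
    have h2 : 0 ≤ ∏ p ∈ P, (1 - 1 / (p : ℝ)) :=
      Finset.prod_nonneg fun p hp => (hfac01 p (hPsub hp)).1
    exact mul_le_of_le_one_left h2 h1
  have hexp2 : Real.exp 2 ≤ 10 := by
    have h1 := Real.exp_one_lt_d9
    have h2 : Real.exp 2 = Real.exp 1 * Real.exp 1 := by rw [← Real.exp_add]; norm_num
    rw [h2]
    nlinarith [Real.exp_pos 1]
  have ht : ((2 * s + 2 : ℕ) : ℝ) = 2 * (s : ℝ) + 2 := by push_cast; ring
  have hlC : l + C ≤ l + A := by
    have := abs_nonneg (Real.log (4 * C)); linarith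
  have htail : (∑ p ∈ P, (1 / (p : ℝ))) ^ (2 * s + 2) / ((2 * s + 2).factorial : ℝ) ≤
      1 / (4 * C * L) := by
    refine tail_aux _ _ _ hsig0 ?_ (by omega) (by positivity) ?_
    · rw [ht]
      have h1 : Real.exp 2 * ∑ p ∈ P, (1 / (p : ℝ)) ≤ 10 * (l + A) :=
        mul_le_mul hexp2 (hsig.trans hlC) hsig0 (by norm_num)
      linarith
    · rw [ht, Real.log_mul (by positivity) (by positivity)]
      have h1 := le_abs_self (Real.log (4 * C))
      linarith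
  have hRR : ((R : ℝ) + 1) ^ (2 * s + 1) ≤ (Z : ℝ) := by
    have hRpos : (0 : ℝ) < (R : ℝ) + 1 := by positivity
    have hlogR1 : Real.log ((R : ℝ) + 1) ≤ 2 * L := by
      have h1 : (R : ℝ) + 1 ≤ (R : ℝ) ^ 2 := by
        have : (3 : ℝ) ≤ R := by exact_mod_cast hR3
        nlinarith
      have h2 := Real.log_le_log hRpos h1
      rw [Real.log_pow] at h2
      push_cast at h2
      exact h2
    have h3 : Real.log (((R : ℝ) + 1) ^ (2 * s + 1)) ≤ Real.log Z := by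
      rw [Real.log_pow]
      push_cast
      have h4 : (2 * (s : ℝ) + 1) * Real.log ((R : ℝ) + 1) ≤ (2 * (s : ℝ) + 1) * (2 * L) :=
        mul_le_mul_of_nonneg_left hlogR1 (by positivity)
      have h5 : 2 * (2 * (s : ℝ) + 1) ≤ L := by linarith
      have h6 : (2 * (s : ℝ) + 1) * (2 * L) ≤ L ^ 2 := by nlinarith
      linarith
    exact (Real.log_le_log_iff (by positivity) (by exact_mod_cast hZ1)).1 h3
  have hZR : (1 : ℝ) ≤ Z := by exact_mod_cast hZ1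
  have herr : ((R : ℝ) + 1) ^ (2 * s + 1) * (1 / (Z : ℝ) ^ 3) ≤ 1 := by
    have h1 : ((R : ℝ) + 1) ^ (2 * s + 1) ≤ (Z : ℝ) ^ 3 :=
      hRR.trans (by
        calc (Z : ℝ) = (Z : ℝ) ^ 1 := (pow_one _).symm
          _ ≤ (Z : ℝ) ^ 3 := pow_le_pow_right₀ hZR (by norm_num))
    rw [mul_one_div, div_le_one (by positivity)]
    exact h1
  have hLpos : 0 < L := by linarith
  have hlast : 1 ≤ Real.log Z / (4 * C * L) := by
    rw [le_div_iff₀ (by positivity)]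
    nlinarith
  have hdiff : Real.log Z * (1 / (C * L) - 1 / (4 * C * L)) ≤ Real.log Z *
      ((∏ p ∈ P, (1 - 1 / (p : ℝ))) -
      (∑ p ∈ P, (1 / (p : ℝ))) ^ (2 * s + 2) / ((2 * s + 2).factorial : ℝ)) :=
    mul_le_mul_of_nonneg_left (by linarith) (by linarith)
  have heq : Real.log Z * (1 / (C * L) - 1 / (4 * C * L)) - Real.log Z / (4 * C * L)
      = 1 / (2 * C) * Real.log Z / L := by
    field_simp
    ring
  linarith

end Pool.Agent.SCM
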