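import Mathlib
import Pool.Agent.SCM.Defs
import Pool.Agent.SCM.LAM

set_option autoImplicit false

/-!
# Module LAS
Lower bound for the total mass of the events.

Proof. `1 / (x y + 1) ≥ 1 / (2 x y)`, so `∑_{Idx} 1/mo ≥ ∑_{X ≤ x ≤ Z} (1/(2x)) ∑_{y rough} 1/y
≥ (c log Z / (2 log R)) ∑_{X ≤ x ≤ Z} 1/x`, and `∑_{X ≤ x ≤ Z} 1/x ≥ log (Z / X) ≥ (1/2) log Z`
because `X^2 ≤ Z`.
-/

namespace Pool.Agent.SCM

open Finset

namespace LAS_

private lemma log_step (n : ℕ) (hn : 1 ≤ n) :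
    Real.log ((n : ℝ) + 1) - Real.log n ≤ 1 / (n : ℝ) := by
  have hn0 : (0 : ℝ) < n := by exact_mod_cast hn
  rw [← Real.log_div (by positivity) (by positivity)]
  refine (Real.log_le_sub_one_of_pos (by positivity)).trans ?_
  apply le_of_eq
  field_simp
  ring

private lemma harm_lower (X : ℕ) (hX : 1 ≤ X) : ∀ Z : ℕ, X ≤ Z →
    Real.log ((Z : ℝ) + 1) - Real.log X ≤ ∑ x ∈ Icc X Z, 1 / (x : ℝ) := by
  intro Z hZ
  induction Z, hZ using Nat.le_induction with
  | base =>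
    simp only [Icc_self, sum_singleton]
    exact log_step X hX
  | succ n hn ih =>
    rw [Finset.sum_Icc_succ_top (by omega)]
    have h := log_step (n + 1) (by omega)
    push_cast at h ⊢
    linarith

end LAS_

theorem lam_total : ∃ c : ℝ, 0 < c ∧ ∃ R₀ : ℕ, 3 ≤ R₀ ∧ ∀ R : ℕ, R₀ ≤ R → ∀ X Z : ℕ, 1 ≤ X →
    X ^ 2 ≤ Z → (Real.log R) ^ 2 ≤ Real.log Z →
    c * (Real.log Z) ^ 2 / Real.log R ≤ ∑ t ∈ Idx X Z R, (1 / (mo t : ℝ)) := by
  classical
  obtain ⟨c, hc, R₀, hR₀, H⟩ := lam_x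
  refine ⟨c / 4, by positivity, R₀, hR₀, ?_⟩
  intro R hR X Z hX hXZ hlog
  have hZ1 : 1 ≤ Z := le_trans (by nlinarith) hXZ
  have hXZ' : X ≤ Z := le_trans (by nlinarith) hXZ
  have hR3 : (3 : ℝ) ≤ R := by exact_mod_cast hR₀.trans hR
  have hlR : 0 < Real.log R := Real.log_pos (by linarith)
  have hlZ : 0 ≤ Real.log Z := Real.log_nonneg (by exact_mod_cast hZ1)
  have hX0 : (0 : ℝ) < X := by exact_mod_cast hX
  have hZ0 : (0 : ℝ) < Z := by exact_mod_cast hZ1
  -- harmonic sum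
  have hharm : Real.log Z / 2 ≤ ∑ x ∈ Icc X Z, 1 / (x : ℝ) := by
    have h1 := LAS_.harm_lower X hX Z hXZ'
    have h2 : Real.log Z ≤ Real.log ((Z : ℝ) + 1) := Real.log_le_log hZ0 (by linarith)
    have h3 : 2 * Real.log X ≤ Real.log Z := by
      have : Real.log ((X : ℝ) ^ 2) ≤ Real.log Z :=
        Real.log_le_log (by positivity) (by exact_mod_cast hXZ)
      rw [Real.log_pow] at this
      exact_mod_cast this
    linarith
  have hsum : ∑ t ∈ Idx X Z R, (1 / (mo t : ℝ)) =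
      ∑ x ∈ Icc X Z, ∑ y ∈ (Icc (Z ^ 3) (Z ^ 4)).filter (fun y => Rough R (x * y + 1)),
        (1 / ((x * y + 1 : ℕ) : ℝ)) := by
    unfold Idx
    rw [Finset.sum_filter, Finset.sum_product]
    refine Finset.sum_congr rfl (fun x _ => ?_)
    rw [Finset.sum_filter]
    refine Finset.sum_congr rfl (fun y _ => ?_)
    simp only [mo]
  rw [hsum]
  have hx : ∀ x ∈ Icc X Z, (1 / (x : ℝ)) * (c * Real.log Z / Real.log R / 2) ≤
      ∑ y ∈ (Icc (Z ^ 3) (Z ^ 4)).filter (fun y => Rough R (x * y + 1)),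
        (1 / ((x * y + 1 : ℕ) : ℝ)) := by
    intro x hx
    rw [Finset.mem_Icc] at hx
    have hx1 : 1 ≤ x := hX.trans hx.1
    have hx0 : (0 : ℝ) < x := by exact_mod_cast hx1
    have h := H R hR Z hlog x hx1
    calc (1 / (x : ℝ)) * (c * Real.log Z / Real.log R / 2)
        ≤ (1 / (x : ℝ)) * ((∑ y ∈ (Icc (Z ^ 3) (Z ^ 4)).filter (fun y => Rough R (x * y + 1)),
          (1 / (y : ℝ))) / 2) := by
          apply mul_le_mul_of_nonneg_left _ (by positivity)
          linarith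
      _ = ∑ y ∈ (Icc (Z ^ 3) (Z ^ 4)).filter (fun y => Rough R (x * y + 1)),
          (1 / (x : ℝ)) * ((1 / (y : ℝ)) / 2) := by
          rw [Finset.sum_div, Finset.mul_sum]
      _ ≤ _ := by
          apply Finset.sum_le_sum
          intro y hy
          rw [Finset.mem_filter, Finset.mem_Icc] at hy
          have hy1 : 1 ≤ y := le_trans (Nat.one_le_pow _ _ hZ1) hy.1.1
          have hy0 : (0 : ℝ) < y := by exact_mod_cast hy1
          have he : (1 / (x : ℝ)) * ((1 / (y : ℝ)) / 2) = 1 / (2 * (x * y)) := by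
            field_simp
          rw [he]
          apply one_div_le_one_div_of_le (by positivity)
          push_cast
          have : (1 : ℝ) ≤ x * y := by
            have : 1 ≤ x * y := Nat.one_le_iff_ne_zero.mpr (by positivity)
            exact_mod_cast this
          nlinarith
  calc c / 4 * (Real.log Z) ^ 2 / Real.log R
      = (Real.log Z / 2) * (c * Real.log Z / Real.log R / 2) := by ring
    _ ≤ (∑ x ∈ Icc X Z, 1 / (x : ℝ)) * (c * Real.log Z / Real.log R / 2) := by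
        apply mul_le_mul_of_nonneg_right hharm
        positivity
    _ = ∑ x ∈ Icc X Z, (1 / (x : ℝ)) * (c * Real.log Z / Real.log R / 2) := by
        rw [Finset.sum_mul]
    _ ≤ _ := Finset.sum_le_sum hx

end Pool.Agent.SCM
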