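import Mathlib

set_option autoImplicit false

/-!
# Module ALT
The alternating sum over subfamilies (the second moment of a product of centred indicators).

Proof. Factor out `∏_J p ∏_{J'} p`: the double sum is
`∏_J p ∏_{J'} p ∑_{A' ⊆ J'} (-1)^|A'| ∑_{A ⊆ J} ∏_{i ∈ A} (- W A' i)` with
`W A' i = ∏_{j ∈ A'} (1 + u i j)`, and the inner sum is `∏_{i ∈ J} (1 - W A' i)`
(`Finset.prod_add` or `Finset.prod_one_add`). Further `|1 - W A' i| ≤ ∏_{j ∈ A'} (1 + |u i j|) - 1 ≤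
∏_{j ∈ J'} (1 + |u i j|) - 1` (induction on `A'`; monotonicity). There are `2^|J'|` sets `A'`.
-/

namespace Pool.Agent.SCM

open Finset


private theorem ALT_one {ι : Type} [DecidableEq ι] (A : Finset ι) (u : ι → ℝ) :
    |∏ j ∈ A, (1 + u j)| ≤ ∏ j ∈ A, (1 + |u j|) := by
  rw [Finset.abs_prod]
  refine Finset.prod_le_prod (fun j _ => abs_nonneg _) fun j _ => ?_
  calc |1 + u j| ≤ |1| + |u j| := abs_add_le _ _
    _ = 1 + |u j| := by rw [abs_one]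

private theorem ALT_sub {ι : Type} [DecidableEq ι] (A : Finset ι) (u : ι → ℝ) :
    |1 - ∏ j ∈ A, (1 + u j)| ≤ (∏ j ∈ A, (1 + |u j|)) - 1 := by
  induction A using Finset.induction_on with
  | empty => simp
  | insert j A hj ih =>
    rw [Finset.prod_insert hj, Finset.prod_insert hj]
    have h1 := ALT_one A u
    have h2 : 1 - (1 + u j) * ∏ j ∈ A, (1 + u j)
        = (1 - ∏ j ∈ A, (1 + u j)) + -(u j * ∏ j ∈ A, (1 + u j)) := by ring
    rw [h2]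
    calc |(1 - ∏ j ∈ A, (1 + u j)) + -(u j * ∏ j ∈ A, (1 + u j))|
        ≤ |1 - ∏ j ∈ A, (1 + u j)| + |-(u j * ∏ j ∈ A, (1 + u j))| := abs_add_le _ _
      _ ≤ ((∏ j ∈ A, (1 + |u j|)) - 1) + |u j| * ∏ j ∈ A, (1 + |u j|) := by
          refine add_le_add ih ?_
          rw [abs_neg, abs_mul]
          exact mul_le_mul_of_nonneg_left h1 (abs_nonneg _)
      _ = (1 + |u j|) * ∏ j ∈ A, (1 + |u j|) - 1 := by ring

private theorem ALT_ge {ι : Type} [DecidableEq ι] (A : Finset ι) (u : ι → ℝ) :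
    1 ≤ ∏ j ∈ A, (1 + |u j|) := by
  have := (abs_nonneg _).trans (ALT_sub A u)
  linarith

private theorem ALT_mono {ι : Type} [DecidableEq ι] {A J' : Finset ι} (h : A ⊆ J') (u : ι → ℝ) :
    ∏ j ∈ A, (1 + |u j|) ≤ ∏ j ∈ J', (1 + |u j|) := by
  rw [← Finset.prod_sdiff h]
  have h1 := ALT_ge (J' \ A) u
  have h2 := ALT_ge A u
  nlinarith

theorem alt_bound {ι : Type} [DecidableEq ι] (J J' : Finset ι) (p : ι → ℝ) (u : ι → ι → ℝ)
    (hp : ∀ i ∈ J ∪ J', 0 ≤ p i) :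
    |∑ A ∈ J.powerset, ∑ A' ∈ J'.powerset, (-1 : ℝ) ^ (A.card + A'.card) *
        ((∏ i ∈ J \ A, p i) * (∏ j ∈ J' \ A', p j)) *
        ((∏ i ∈ A, p i) * (∏ j ∈ A', p j) * ∏ i ∈ A, ∏ j ∈ A', (1 + u i j))|
      ≤ 2 ^ J'.card * (∏ j ∈ J', p j) * ∏ i ∈ J, (p i * ((∏ j ∈ J', (1 + |u i j|)) - 1)) := by
  have hJ : ∀ i ∈ J, 0 ≤ p i := fun i hi => hp i (mem_union_left _ hi)
  have hJ' : ∀ i ∈ J', 0 ≤ p i := fun i hi => hp i (mem_union_right _ hi)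
  have hPJ : 0 ≤ ∏ i ∈ J, p i := Finset.prod_nonneg hJ
  have hPJ' : 0 ≤ ∏ i ∈ J', p i := Finset.prod_nonneg hJ'
  have hB : ∀ i, 0 ≤ (∏ j ∈ J', (1 + |u i j|)) - 1 := fun i => by
    have := ALT_ge J' (u i)
    linarith
  have key : ∑ A ∈ J.powerset, ∑ A' ∈ J'.powerset, (-1 : ℝ) ^ (A.card + A'.card) *
        ((∏ i ∈ J \ A, p i) * (∏ j ∈ J' \ A', p j)) *
        ((∏ i ∈ A, p i) * (∏ j ∈ A', p j) * ∏ i ∈ A, ∏ j ∈ A', (1 + u i j))
      = ((∏ i ∈ J, p i) * (∏ j ∈ J', p j)) * ∑ A' ∈ J'.powerset, (-1 : ℝ) ^ A'.card *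
        ∏ i ∈ J, (1 - ∏ j ∈ A', (1 + u i j)) := by
    rw [Finset.sum_comm, Finset.mul_sum]
    refine Finset.sum_congr rfl fun A' hA' => ?_
    have h1 : ∏ i ∈ J, (1 - ∏ j ∈ A', (1 + u i j))
        = ∑ A ∈ J.powerset, (-1 : ℝ) ^ A.card * ∏ i ∈ A, ∏ j ∈ A', (1 + u i j) := by
      have h2 : ∀ i, 1 - ∏ j ∈ A', (1 + u i j) = 1 + (-1) * ∏ j ∈ A', (1 + u i j) := fun i => by
        ring
      simp only [h2]
      rw [Finset.prod_one_add]
      refine Finset.sum_congr rfl fun A _ => ?_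
      rw [Finset.prod_mul_distrib, Finset.prod_const]
    rw [h1, Finset.mul_sum, Finset.mul_sum]
    refine Finset.sum_congr rfl fun A hA => ?_
    rw [← Finset.prod_sdiff (Finset.mem_powerset.1 hA),
      ← Finset.prod_sdiff (Finset.mem_powerset.1 hA'), pow_add]
    ring
  rw [key, abs_mul, abs_of_nonneg (mul_nonneg hPJ hPJ')]
  have hterm : ∀ A' ∈ J'.powerset, |(-1 : ℝ) ^ A'.card * ∏ i ∈ J, (1 - ∏ j ∈ A', (1 + u i j))|
      ≤ ∏ i ∈ J, ((∏ j ∈ J', (1 + |u i j|)) - 1) := by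
    intro A' hA'
    rw [abs_mul, abs_pow, abs_neg, abs_one, one_pow, one_mul, Finset.abs_prod]
    refine Finset.prod_le_prod (fun i _ => abs_nonneg _) fun i _ => ?_
    refine (ALT_sub A' (u i)).trans ?_
    have := ALT_mono (Finset.mem_powerset.1 hA') (u i)
    linarith
  have hsum : |∑ A' ∈ J'.powerset, (-1 : ℝ) ^ A'.card * ∏ i ∈ J, (1 - ∏ j ∈ A', (1 + u i j))|
      ≤ 2 ^ J'.card * ∏ i ∈ J, ((∏ j ∈ J', (1 + |u i j|)) - 1) := by
    refine (Finset.abs_sum_le_sum_abs _ _).trans ?_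
    refine (Finset.sum_le_sum hterm).trans ?_
    rw [Finset.sum_const, Finset.card_powerset, nsmul_eq_mul]
    push_cast
    exact le_refl _
  calc (∏ i ∈ J, p i) * (∏ j ∈ J', p j) *
        |∑ A' ∈ J'.powerset, (-1 : ℝ) ^ A'.card * ∏ i ∈ J, (1 - ∏ j ∈ A', (1 + u i j))|
      ≤ (∏ i ∈ J, p i) * (∏ j ∈ J', p j) *
        (2 ^ J'.card * ∏ i ∈ J, ((∏ j ∈ J', (1 + |u i j|)) - 1)) :=
        mul_le_mul_of_nonneg_left hsum (mul_nonneg hPJ hPJ')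
    _ = 2 ^ J'.card * (∏ j ∈ J', p j) * ∏ i ∈ J, (p i * ((∏ j ∈ J', (1 + |u i j|)) - 1)) := by
        rw [Finset.prod_mul_distrib]
        ring

end Pool.Agent.SCM
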