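import Mathlib
import Pool.Agent.SCM.Defs

set_option autoImplicit false

/-!
# Module CRT
Counting the `n ≤ N` in the residue classes of two pairwise coprime families.

Proof. If `c i ≢ c j` modulo `gcd (m i) (m j)` for some `i ∈ A`, `j ∈ A'`, there is no such `n` and the
product is `0` (the factor `1 + uu` is `0`). Otherwise: by the Chinese remainder theorem for the
pairwise coprime family `A` there is `a` with (`n ≡ c i mod m i` for all `i ∈ A`) iff
`n ≡ a mod M`, `M = ∏_A m i`; same for `A'` with `a'`, `M'`. As the families are pairwise coprime,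
`gcd M M' = ∏_{i ∈ A} ∏_{j ∈ A'} gcd (m i) (m j) =: G` (pairwise coprime factors, `Nat.Coprime.gcd_mul`),
and `a ≡ a'` modulo each factor, so modulo `G`; hence the two conditions together are one class modulo
`lcm M M' = M M' / G` (`Nat.chineseRemainder'` or `Int`/`Nat.ModEq` lemmas), and the number of
`n ∈ [1, N]` in a class modulo `q` differs from `N / q` by at most `1`. Here
`1/q = (∏_A 1/m)(∏_{A'} 1/m) ∏ ∏ (1 + uu)` since `1 + uu = gcd` in the compatible case.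
-/

namespace Pool.Agent.SCM

open Finset


private theorem CRT_gcd_prod {ι : Type} [DecidableEq ι] (m : ι → ℕ) (A : Finset ι)
    (hA : Cop m A) (k : ℕ) : k.gcd (∏ i ∈ A, m i) = ∏ i ∈ A, k.gcd (m i) := by
  induction A using Finset.induction_on with
  | empty => simp
  | insert i A hi ih =>
    have hcop : (m i).Coprime (∏ j ∈ A, m j) := Nat.Coprime.prod_right fun j hj =>
      hA i (Finset.mem_insert_self i A) j (Finset.mem_insert_of_mem hj)
        (fun h => hi (h ▸ hj))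
    rw [Finset.prod_insert hi, Finset.prod_insert hi, Nat.Coprime.gcd_mul k hcop,
      ih (fun a ha b hb => hA a (Finset.mem_insert_of_mem ha) b (Finset.mem_insert_of_mem hb))]

private theorem CRT_gcd_gcd {ι : Type} [DecidableEq ι] (m : ι → ℕ) (A A' : Finset ι)
    (hA : Cop m A) (hA' : Cop m A') :
    (∏ i ∈ A, m i).gcd (∏ j ∈ A', m j) = ∏ i ∈ A, ∏ j ∈ A', (m i).gcd (m j) := by
  rw [Nat.gcd_comm, CRT_gcd_prod m A hA]
  refine Finset.prod_congr rfl fun i _ => ?_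
  rw [Nat.gcd_comm, CRT_gcd_prod m A' hA']

private theorem CRT_dvd {κ : Type} [DecidableEq κ] (g : κ → ℕ) (B : Finset κ)
    (hB : ∀ i ∈ B, ∀ j ∈ B, i ≠ j → (g i).Coprime (g j)) (x : ℤ)
    (h : ∀ i ∈ B, (g i : ℤ) ∣ x) : ((∏ i ∈ B, g i : ℕ) : ℤ) ∣ x := by
  rw [Int.natCast_dvd]
  refine Finset.prod_dvd_of_isRelPrime ?_ fun i hi => Int.natCast_dvd.1 (h i hi)
  intro i hi j hj hij
  exact Nat.coprime_iff_isRelPrime.1 (hB i hi j hj hij)

private theorem CRT_exists {ι : Type} [DecidableEq ι] (m : ι → ℕ) (c : ι → ℤ) (A : Finset ι)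
    (hm : ∀ i ∈ A, 2 ≤ m i) (hA : Cop m A) :
    ∃ a : ℕ, ∀ i ∈ A, (a : ℤ) ≡ c i [ZMOD (m i : ℤ)] := by
  have h := Nat.chineseRemainderOfFinset (fun i => (c i % (m i : ℤ)).toNat) m A
    (fun i hi => by have := hm i hi; omega) (fun i hi j hj hij => hA i hi j hj hij)
  refine ⟨h.1, fun i hi => ?_⟩
  have h1 := h.2 i hi
  have hmi : (0 : ℤ) < (m i : ℤ) := by
    have := hm i hi
    omega
  have h2 : ((h.1 : ℕ) : ℤ) ≡ (((c i % (m i : ℤ)).toNat : ℕ) : ℤ) [ZMOD (m i : ℤ)] :=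
    (Int.natCast_modEq_iff).2 h1
  rw [Int.toNat_of_nonneg (Int.emod_nonneg _ hmi.ne')] at h2
  exact h2.trans (Int.mod_modEq _ _)

private theorem CRT_floor (N L x : ℕ) (hL : 0 < L) :
    |(((Icc 1 N).filter (fun n : ℕ => n ≡ x [MOD L])).card : ℝ) - (N : ℝ) / L| ≤ 1 := by
  have h0 : Icc 1 N = Ioc 0 N := rfl
  have h1 := Nat.Ioc_filter_modEq_card 0 N hL x
  rw [h0]
  have h2 : (((Ioc 0 N).filter (fun n : ℕ => n ≡ x [MOD L])).card : ℤ)
      = ⌊((N : ℚ) - x) / (L : ℚ)⌋ - ⌊(((0 : ℕ) : ℚ) - x) / (L : ℚ)⌋ := by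
    rw [h1]
    apply max_eq_left
    rw [sub_nonneg]
    apply Int.floor_le_floor
    have hLq : (0 : ℚ) < L := by exact_mod_cast hL
    apply div_le_div_of_nonneg_right _ hLq.le
    have : (0 : ℚ) ≤ N := by positivity
    push_cast
    linarith
  have hLq : (0 : ℚ) < L := by exact_mod_cast hL
  have h3 := Int.floor_le (((N : ℚ) - x) / (L : ℚ))
  have h4 := Int.lt_floor_add_one (((N : ℚ) - x) / (L : ℚ))
  have h5 := Int.floor_le ((((0 : ℕ) : ℚ) - x) / (L : ℚ))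
  have h6 := Int.lt_floor_add_one ((((0 : ℕ) : ℚ) - x) / (L : ℚ))
  have h7 : ((N : ℚ) - x) / (L : ℚ) - (((0 : ℕ) : ℚ) - x) / (L : ℚ) = N / L := by
    push_cast
    ring
  have h8 : |((((Ioc 0 N).filter (fun n : ℕ => n ≡ x [MOD L])).card : ℤ) : ℚ) - (N : ℚ) / L|
      ≤ 1 := by
    rw [h2, abs_le]
    push_cast at *
    constructor <;> linarith
  have h9 : (((|((((Ioc 0 N).filter (fun n : ℕ => n ≡ x [MOD L])).card : ℤ) : ℚ) - (N : ℚ) / L|
      : ℚ)) : ℝ) ≤ ((1 : ℚ) : ℝ) := by exact_mod_cast h8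
  push_cast at h9
  exact_mod_cast h9

open Classical in
theorem count_bound {ι : Type} [DecidableEq ι] (m : ι → ℕ) (c : ι → ℤ) (A A' : Finset ι)
    (hm : ∀ i ∈ A ∪ A', 2 ≤ m i) (hA : Cop m A) (hA' : Cop m A') (N : ℕ) :
    |(((Icc 1 N).filter (fun n : ℕ => ∀ i ∈ A ∪ A', (n : ℤ) ≡ c i [ZMOD (m i : ℤ)])).card : ℝ) -
      N * ((∏ i ∈ A, (1 / (m i : ℝ))) * (∏ j ∈ A', (1 / (m j : ℝ))) *
        ∏ i ∈ A, ∏ j ∈ A', (1 + uu m c i j))| ≤ 1 := by
  have hmA : ∀ i ∈ A, 2 ≤ m i := fun i hi => hm i (mem_union_left _ hi)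
  have hmA' : ∀ i ∈ A', 2 ≤ m i := fun i hi => hm i (mem_union_right _ hi)
  by_cases hc : ∀ i ∈ A, ∀ j ∈ A', c i ≡ c j [ZMOD (((m i).gcd (m j) : ℕ) : ℤ)]
  · obtain ⟨a, ha⟩ := CRT_exists m c A hmA hA
    obtain ⟨a', ha'⟩ := CRT_exists m c A' hmA' hA'
    have hG := CRT_gcd_gcd m A A' hA hA'
    have hdvd : (((∏ i ∈ A, m i).gcd (∏ j ∈ A', m j) : ℕ) : ℤ) ∣ (a' : ℤ) - a := by
      rw [hG, ← Finset.prod_product']
      refine CRT_dvd (fun q : ι × ι => (m q.1).gcd (m q.2)) (A ×ˢ A') ?_ _ ?_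
      · rintro ⟨i, j⟩ hij ⟨i', j'⟩ hij' hne
        rw [Finset.mem_product] at hij hij'
        by_cases hi : i = i'
        · subst hi
          have hj : j ≠ j' := fun h => hne (by rw [h])
          exact Nat.Coprime.coprime_dvd_left (Nat.gcd_dvd_right _ _)
            (Nat.Coprime.coprime_dvd_right (Nat.gcd_dvd_right _ _)
              (hA' j hij.2 j' hij'.2 hj))
        · exact Nat.Coprime.coprime_dvd_left (Nat.gcd_dvd_left _ _)
            (Nat.Coprime.coprime_dvd_right (Nat.gcd_dvd_left _ _)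
              (hA i hij.1 i' hij'.1 hi))
      · rintro ⟨i, j⟩ hij
        rw [Finset.mem_product] at hij
        have h1 : (a : ℤ) ≡ c i [ZMOD (((m i).gcd (m j) : ℕ) : ℤ)] :=
          (ha i hij.1).of_dvd (Int.natCast_dvd_natCast.2 (Nat.gcd_dvd_left _ _))
        have h2 : (a' : ℤ) ≡ c j [ZMOD (((m i).gcd (m j) : ℕ) : ℤ)] :=
          (ha' j hij.2).of_dvd (Int.natCast_dvd_natCast.2 (Nat.gcd_dvd_right _ _))
        exact (h1.trans ((hc i hij.1 j hij.2).trans h2.symm)).dvd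
    have hmod : a ≡ a' [MOD (∏ i ∈ A, m i).gcd (∏ j ∈ A', m j)] := Nat.modEq_iff_dvd.2 hdvd
    obtain ⟨x, hx1, hx2⟩ := Nat.chineseRemainder' hmod
    have hM : 0 < ∏ i ∈ A, m i := Finset.prod_pos fun i hi => by
      have := hmA i hi
      omega
    have hM' : 0 < ∏ i ∈ A', m i := Finset.prod_pos fun i hi => by
      have := hmA' i hi
      omega
    have hL : 0 < (∏ i ∈ A, m i).lcm (∏ j ∈ A', m j) := Nat.lcm_pos hM hM'
    have hiff : ∀ n : ℕ, (∀ i ∈ A ∪ A', (n : ℤ) ≡ c i [ZMOD (m i : ℤ)]) ↔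
        n ≡ x [MOD (∏ i ∈ A, m i).lcm (∏ j ∈ A', m j)] := by
      intro n
      have hxA : ∀ i ∈ A, (x : ℤ) ≡ c i [ZMOD (m i : ℤ)] := fun i hi =>
        (((Int.natCast_modEq_iff).2 hx1).of_dvd
          (Int.natCast_dvd_natCast.2 (Finset.dvd_prod_of_mem m hi))).trans (ha i hi)
      have hxA' : ∀ i ∈ A', (x : ℤ) ≡ c i [ZMOD (m i : ℤ)] := fun i hi =>
        (((Int.natCast_modEq_iff).2 hx2).of_dvd
          (Int.natCast_dvd_natCast.2 (Finset.dvd_prod_of_mem m hi))).trans (ha' i hi)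
      constructor
      · intro h
        rw [Nat.modEq_iff_dvd]
        have h1 : ((∏ i ∈ A, m i : ℕ) : ℤ) ∣ (x : ℤ) - n := CRT_dvd m A hA _ fun i hi =>
          ((h i (mem_union_left _ hi)).trans (hxA i hi).symm).dvd
        have h2 : ((∏ i ∈ A', m i : ℕ) : ℤ) ∣ (x : ℤ) - n := CRT_dvd m A' hA' _ fun i hi =>
          ((h i (mem_union_right _ hi)).trans (hxA' i hi).symm).dvd
        rw [Int.natCast_dvd] at h1 h2 ⊢
        exact Nat.lcm_dvd h1 h2
      · intro h i hi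
        have h3 := (Int.natCast_modEq_iff).2 h
        rcases Finset.mem_union.1 hi with hi | hi
        · exact (h3.of_dvd (Int.natCast_dvd_natCast.2
            ((Finset.dvd_prod_of_mem m hi).trans (Nat.dvd_lcm_left _ _)))).trans (hxA i hi)
        · exact (h3.of_dvd (Int.natCast_dvd_natCast.2
            ((Finset.dvd_prod_of_mem m hi).trans (Nat.dvd_lcm_right _ _)))).trans (hxA' i hi)
    have huu : ∏ i ∈ A, ∏ j ∈ A', (1 + uu m c i j)
        = (((∏ i ∈ A, m i).gcd (∏ j ∈ A', m j) : ℕ) : ℝ) := by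
      rw [hG]
      push_cast
      refine Finset.prod_congr rfl fun i hi => Finset.prod_congr rfl fun j hj => ?_
      unfold uu
      by_cases h1 : (m i).gcd (m j) = 1
      · rw [if_pos h1, h1]
        norm_num
      · rw [if_neg h1, if_pos (hc i hi j hj)]
        ring
    have hlg := Nat.gcd_mul_lcm (∏ i ∈ A, m i) (∏ j ∈ A', m j)
    have hlg' : (((∏ i ∈ A, m i).gcd (∏ j ∈ A', m j) : ℕ) : ℝ)
        * (((∏ i ∈ A, m i).lcm (∏ j ∈ A', m j) : ℕ) : ℝ)
        = (∏ i ∈ A, (m i : ℝ)) * ∏ j ∈ A', (m j : ℝ) := by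
      have := congrArg (Nat.cast (R := ℝ)) hlg
      push_cast at this
      exact this
    have hMr : (0 : ℝ) < ∏ i ∈ A, (m i : ℝ) := by
      have : (0 : ℝ) < ((∏ i ∈ A, m i : ℕ) : ℝ) := by exact_mod_cast hM
      push_cast at this
      exact this
    have hMr' : (0 : ℝ) < ∏ i ∈ A', (m i : ℝ) := by
      have : (0 : ℝ) < ((∏ i ∈ A', m i : ℕ) : ℝ) := by exact_mod_cast hM'
      push_cast at this
      exact this
    have hLr : (0 : ℝ) < (((∏ i ∈ A, m i).lcm (∏ j ∈ A', m j) : ℕ) : ℝ) := by exact_mod_cast hL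
    have heq : (N : ℝ) * ((∏ i ∈ A, (1 / (m i : ℝ))) * (∏ j ∈ A', (1 / (m j : ℝ))) *
        ∏ i ∈ A, ∏ j ∈ A', (1 + uu m c i j))
        = (N : ℝ) / (((∏ i ∈ A, m i).lcm (∏ j ∈ A', m j) : ℕ) : ℝ) := by
      rw [huu]
      simp only [one_div, Finset.prod_inv_distrib]
      field_simp
      linear_combination (N : ℝ) * hlg'
    rw [heq]
    have hf : (Icc 1 N).filter (fun n : ℕ => ∀ i ∈ A ∪ A', (n : ℤ) ≡ c i [ZMOD (m i : ℤ)])
        = (Icc 1 N).filter (fun n : ℕ => n ≡ x [MOD (∏ i ∈ A, m i).lcm (∏ j ∈ A', m j)]) :=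
      Finset.filter_congr fun n _ => hiff n
    rw [hf]
    exact CRT_floor N _ x hL
  · push Not at hc
    obtain ⟨i, hi, j, hj, hij⟩ := hc
    have h1 : (m i).gcd (m j) ≠ 1 := by
      intro h
      apply hij
      rw [h]
      exact Int.modEq_one
    have h2 : ∏ i ∈ A, ∏ j ∈ A', (1 + uu m c i j) = 0 := by
      refine Finset.prod_eq_zero hi (Finset.prod_eq_zero hj ?_)
      unfold uu
      rw [if_neg h1, if_neg hij]
      ring
    have h3 : (Icc 1 N).filter (fun n : ℕ => ∀ i ∈ A ∪ A', (n : ℤ) ≡ c i [ZMOD (m i : ℤ)])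
        = ∅ := by
      apply Finset.filter_eq_empty_iff.2
      intro n _ h
      apply hij
      have h4 : (n : ℤ) ≡ c i [ZMOD (((m i).gcd (m j) : ℕ) : ℤ)] :=
        (h i (mem_union_left _ hi)).of_dvd (Int.natCast_dvd_natCast.2 (Nat.gcd_dvd_left _ _))
      have h5 : (n : ℤ) ≡ c j [ZMOD (((m i).gcd (m j) : ℕ) : ℤ)] :=
        (h j (mem_union_right _ hj)).of_dvd (Int.natCast_dvd_natCast.2 (Nat.gcd_dvd_right _ _))
      exact h4.symm.trans h5
    rw [h2, h3]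
    simp

end Pool.Agent.SCM
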