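import Mathlib
import Pool.Agent.SCM.Defs

set_option autoImplicit false

/-!
# Module MAS
One step for the masses of pairwise coprime families.

Proof. `(j+1) mass (j+1) = ∑_{J' ∈ fam (j+1)} ∑_{i ∈ J'} wt J'`. The pairs `(J', i)` correspond to the
pairs `(J, i)` with `J ∈ fam j` and `i ∈ I` coprime to all members of `J` (then `i ∉ J` since `m i ≥ 2`),
`J' = insert i J`, `wt J' = wt J * (1 / m i)`. For fixed `J` the sum of `1 / m i` over these `i` is at
least `∑_I 1/m i - ∑_{i' ∈ J} ∑_{i ∈ I, not coprime to i'} 1/m i ≥ ∑_I 1/m i - j δ`.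
-/

namespace Pool.Agent.SCM

open Finset

private theorem mas_bi {α β : Type} [DecidableEq α] [DecidableEq β] (J : Finset α)
    (t : α → Finset β) (f : β → ℝ) (hf : ∀ b, 0 ≤ f b) :
    ∑ b ∈ J.biUnion t, f b ≤ ∑ a ∈ J, ∑ b ∈ t a, f b := by
  induction J using Finset.induction_on with
  | empty => simp
  | insert a J ha ih =>
    rw [Finset.biUnion_insert, Finset.sum_insert ha]
    have h1 := Finset.sum_union_inter (s₁ := t a) (s₂ := J.biUnion t) (f := f)
    have h2 : 0 ≤ ∑ b ∈ t a ∩ J.biUnion t, f b := Finset.sum_nonneg fun b _ => hf b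
    linarith

open Classical in
private theorem mas_pairs {ι : Type} [DecidableEq ι] (I : Finset ι) (m : ι → ℕ)
    (hm : ∀ i ∈ I, 2 ≤ m i) (j : ℕ) :
    ∑ J ∈ fam I m j, ∑ i ∈ I.filter (fun i => ∀ i' ∈ J, (m i).Coprime (m i')),
      wt m J * (1 / (m i : ℝ)) = ∑ J ∈ fam I m (j + 1), ∑ _i ∈ J, wt m J := by
  rw [Finset.sum_sigma', Finset.sum_sigma']
  refine Finset.sum_nbij' (fun x => ⟨insert x.2 x.1, x.2⟩) (fun x => ⟨x.1.erase x.2, x.2⟩)
    ?_ ?_ ?_ ?_ ?_
  · rintro ⟨J, i⟩ h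
    simp only [Finset.mem_sigma, fam, Finset.mem_filter, Finset.mem_powersetCard] at h ⊢
    obtain ⟨⟨⟨hJ, hc⟩, hcop⟩, hi, hic⟩ := h
    have hiJ : i ∉ J := by
      intro h1
      have h2 := hic i h1
      rw [Nat.coprime_self] at h2
      have := hm i hi
      omega
    refine ⟨⟨⟨Finset.insert_subset hi hJ, ?_⟩, ?_⟩, Finset.mem_insert_self _ _⟩
    · rw [Finset.card_insert_of_notMem hiJ, hc]
    · intro a ha b hb hab
      rw [Finset.mem_insert] at ha hb
      rcases ha with rfl | ha <;> rcases hb with rfl | hb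
      · exact absurd rfl hab
      · exact hic b hb
      · exact (hic a ha).symm
      · exact hcop a ha b hb hab
  · rintro ⟨J, i⟩ h
    simp only [Finset.mem_sigma, fam, Finset.mem_filter, Finset.mem_powersetCard] at h ⊢
    obtain ⟨⟨⟨hJ, hc⟩, hcop⟩, hi⟩ := h
    refine ⟨⟨⟨(Finset.erase_subset _ _).trans hJ, ?_⟩, ?_⟩, hJ hi, ?_⟩
    · rw [Finset.card_erase_of_mem hi, hc]
      rfl
    · intro a ha b hb hab
      exact hcop a (Finset.mem_of_mem_erase ha) b (Finset.mem_of_mem_erase hb) hab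
    · intro b hb
      exact hcop i hi b (Finset.mem_of_mem_erase hb) (Finset.ne_of_mem_erase hb).symm
  · rintro ⟨J, i⟩ h
    simp only [Finset.mem_sigma, fam, Finset.mem_filter, Finset.mem_powersetCard] at h
    obtain ⟨_, hi, hic⟩ := h
    have hiJ : i ∉ J := by
      intro h1
      have h2 := hic i h1
      rw [Nat.coprime_self] at h2
      have := hm i hi
      omega
    simp only [Finset.erase_insert hiJ]
  · rintro ⟨J, i⟩ h
    simp only [Finset.mem_sigma] at h
    simp only [Finset.insert_erase h.2]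
  · rintro ⟨J, i⟩ h
    simp only [Finset.mem_sigma, fam, Finset.mem_filter, Finset.mem_powersetCard] at h
    obtain ⟨_, hi, hic⟩ := h
    have hiJ : i ∉ J := by
      intro h1
      have h2 := hic i h1
      rw [Nat.coprime_self] at h2
      have := hm i hi
      omega
    simp only [wt, Finset.prod_insert hiJ]
    ring

theorem mass_step {ι : Type} [DecidableEq ι] (I : Finset ι) (m : ι → ℕ) (hm : ∀ i ∈ I, 2 ≤ m i)
    (δ : ℝ) (hδ : ∀ j ∈ I, ∑ i ∈ I.filter (fun i => ¬ (m i).Coprime (m j)), (1 / (m i : ℝ)) ≤ δ)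
    (j : ℕ) :
    ((∑ i ∈ I, (1 / (m i : ℝ))) - j * δ) * mass I m j ≤ (j + 1) * mass I m (j + 1) := by
  classical
  have h1 : ((j : ℝ) + 1) * mass I m (j + 1) = ∑ J ∈ fam I m (j + 1), ∑ _i ∈ J, wt m J := by
    unfold mass
    rw [Finset.mul_sum]
    refine Finset.sum_congr rfl fun J hJ => ?_
    have hc : J.card = j + 1 := by
      simp only [fam, Finset.mem_filter, Finset.mem_powersetCard] at hJ
      exact hJ.1.2
    rw [Finset.sum_const, hc, nsmul_eq_mul]
    push_cast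
    ring
  rw [h1, ← mas_pairs I m hm j]
  unfold mass
  rw [Finset.mul_sum]
  refine Finset.sum_le_sum fun J hJ => ?_
  rw [← Finset.mul_sum, mul_comm]
  simp only [fam, Finset.mem_filter, Finset.mem_powersetCard] at hJ
  obtain ⟨⟨hJI, hc⟩, _⟩ := hJ
  refine mul_le_mul_of_nonneg_left ?_ (Finset.prod_nonneg fun i _ => by positivity)
  rw [sub_le_iff_le_add]
  have h2 : ∑ i' ∈ J, ∑ i ∈ I.filter (fun i => ¬ (m i).Coprime (m i')), (1 / (m i : ℝ))
      ≤ j * δ := by
    calc ∑ i' ∈ J, ∑ i ∈ I.filter (fun i => ¬ (m i).Coprime (m i')), (1 / (m i : ℝ))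
        ≤ ∑ _i' ∈ J, δ := Finset.sum_le_sum fun i' hi' => hδ i' (hJI hi')
      _ = j * δ := by rw [Finset.sum_const, hc, nsmul_eq_mul]
  have h3 : ∑ i ∈ I, (1 / (m i : ℝ)) =
      ∑ i ∈ I.filter (fun i => ∀ i' ∈ J, (m i).Coprime (m i')), (1 / (m i : ℝ)) +
      ∑ i ∈ I.filter (fun i => ¬ ∀ i' ∈ J, (m i).Coprime (m i')), (1 / (m i : ℝ)) :=
    (Finset.sum_filter_add_sum_filter_not I _ _).symm
  rw [h3]
  refine add_le_add_right (le_trans ?_ h2) _
  have h4 : I.filter (fun i => ¬ ∀ i' ∈ J, (m i).Coprime (m i')) ⊆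
      J.biUnion (fun i' => I.filter (fun i => ¬ (m i).Coprime (m i'))) := by
    intro i hi
    rw [Finset.mem_filter] at hi
    obtain ⟨hiI, hn⟩ := hi
    push Not at hn
    obtain ⟨i', hi', hn'⟩ := hn
    rw [Finset.mem_biUnion]
    exact ⟨i', hi', Finset.mem_filter.2 ⟨hiI, hn'⟩⟩
  refine (Finset.sum_le_sum_of_subset_of_nonneg h4 fun i _ _ => by positivity).trans ?_
  exact mas_bi _ _ _ fun i => by positivity

end Pool.Agent.SCM
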