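import Mathlib
import Pool.Agent.SCM.Defs
import Pool.Agent.SCM.MAS

set_option autoImplicit false

/-!
# Module MAB
Bounds for the masses from `mass_step`.

Proof. `mass I m 0 = 1`. For `j < k`: `lam / 2 ≤ lam - j δ`, so `(lam/2) mass j ≤ (j+1) mass (j+1)`
(masses are nonnegative). Iterate. Second part: `mass j ≤ (2 (j+1) / lam) mass (j+1) ≤ (2 k / lam)
mass (j+1)` for `j < k`, iterate `v` times.
-/

namespace Pool.Agent.SCM

open Finset

theorem mass_nonneg {ι : Type} (I : Finset ι) (m : ι → ℕ) (k : ℕ) : 0 ≤ mass I m k := by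
  unfold mass wt
  exact Finset.sum_nonneg fun J _ => Finset.prod_nonneg fun i _ => by positivity

private theorem mab_step {ι : Type} [DecidableEq ι] (I : Finset ι) (m : ι → ℕ)
    (hm : ∀ i ∈ I, 2 ≤ m i)
    (δ : ℝ) (hδ : ∀ j ∈ I, ∑ i ∈ I.filter (fun i => ¬ (m i).Coprime (m j)), (1 / (m i : ℝ)) ≤ δ)
    (k : ℕ) (hk : (k : ℝ) * δ ≤ (∑ i ∈ I, (1 / (m i : ℝ))) / 2)
    (hlam : 0 < ∑ i ∈ I, (1 / (m i : ℝ))) (j : ℕ) (hj : j < k) :
    (∑ i ∈ I, (1 / (m i : ℝ))) / 2 * mass I m j ≤ ((j : ℝ) + 1) * mass I m (j + 1) := by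
  have hδ0 : 0 ≤ δ := by
    obtain ⟨i, hi⟩ : I.Nonempty := by
      rw [Finset.nonempty_iff_ne_empty]
      rintro rfl
      simp at hlam
    exact (Finset.sum_nonneg fun i _ => by positivity).trans (hδ i hi)
  have h1 := mass_step I m hm δ hδ j
  have h2 : (j : ℝ) * δ ≤ (k : ℝ) * δ :=
    mul_le_mul_of_nonneg_right (by exact_mod_cast hj.le) hδ0
  refine le_trans (mul_le_mul_of_nonneg_right ?_ (mass_nonneg I m j)) h1
  linarith

theorem mass_lower {ι : Type} [DecidableEq ι] (I : Finset ι) (m : ι → ℕ) (hm : ∀ i ∈ I, 2 ≤ m i)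
    (δ : ℝ) (hδ : ∀ j ∈ I, ∑ i ∈ I.filter (fun i => ¬ (m i).Coprime (m j)), (1 / (m i : ℝ)) ≤ δ)
    (k : ℕ) (hk : (k : ℝ) * δ ≤ (∑ i ∈ I, (1 / (m i : ℝ))) / 2)
    (hlam : 0 < ∑ i ∈ I, (1 / (m i : ℝ))) :
    ((∑ i ∈ I, (1 / (m i : ℝ))) / 2) ^ k / (k.factorial : ℝ) ≤ mass I m k := by
  have key : ∀ j : ℕ, j ≤ k →
      ((∑ i ∈ I, (1 / (m i : ℝ))) / 2) ^ j / (j.factorial : ℝ) ≤ mass I m j := by
    intro j
    induction j with
    | zero =>
      intro _
      have h1 : mass I m 0 = 1 := by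
        have h2 : fam I m 0 = {∅} := by
          ext J
          simp only [fam, Finset.powersetCard_zero, Finset.mem_filter, Finset.mem_singleton]
          constructor
          · exact fun h => h.1
          · rintro rfl
            exact ⟨rfl, fun i hi => absurd hi (Finset.notMem_empty i)⟩
        unfold mass
        rw [h2, Finset.sum_singleton]
        simp [wt]
      rw [h1]
      simp
    | succ j ih =>
      intro hj
      have h1 := ih (by omega)
      have h2 := mab_step I m hm δ hδ k hk hlam j (by omega)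
      have h3 : (0 : ℝ) < (j : ℝ) + 1 := by positivity
      have h4 : ((∑ i ∈ I, (1 / (m i : ℝ))) / 2) ^ (j + 1) / ((j + 1).factorial : ℝ) =
          ((∑ i ∈ I, (1 / (m i : ℝ))) / 2 *
            (((∑ i ∈ I, (1 / (m i : ℝ))) / 2) ^ j / (j.factorial : ℝ))) / ((j : ℝ) + 1) := by
        rw [Nat.factorial_succ, pow_succ]
        push_cast
        have h5 : (j.factorial : ℝ) ≠ 0 := by exact_mod_cast j.factorial_ne_zero
        field_simp
      rw [h4, div_le_iff₀ h3, mul_comm (mass I m (j + 1))]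
      exact (mul_le_mul_of_nonneg_left h1 (by positivity)).trans h2
  exact key k le_rfl

theorem mass_ratio {ι : Type} [DecidableEq ι] (I : Finset ι) (m : ι → ℕ) (hm : ∀ i ∈ I, 2 ≤ m i)
    (δ : ℝ) (hδ : ∀ j ∈ I, ∑ i ∈ I.filter (fun i => ¬ (m i).Coprime (m j)), (1 / (m i : ℝ)) ≤ δ)
    (k : ℕ) (hk : (k : ℝ) * δ ≤ (∑ i ∈ I, (1 / (m i : ℝ))) / 2)
    (hlam : 0 < ∑ i ∈ I, (1 / (m i : ℝ))) (v : ℕ) (hv : v ≤ k) :
    mass I m (k - v) ≤ (2 * k / (∑ i ∈ I, (1 / (m i : ℝ)))) ^ v * mass I m k := by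
  induction v with
  | zero => simp
  | succ v ih =>
    have h1 := ih (by omega)
    have h2 := mab_step I m hm δ hδ k hk hlam (k - (v + 1)) (by omega)
    have h3 : k - (v + 1) + 1 = k - v := by omega
    rw [h3] at h2
    have h4 : (((k - (v + 1) : ℕ) : ℝ) + 1) ≤ k := by
      have : (k - (v + 1)) + 1 ≤ k := by omega
      exact_mod_cast this
    have h5 : (∑ i ∈ I, (1 / (m i : ℝ))) / 2 * mass I m (k - (v + 1)) ≤
        (k : ℝ) * mass I m (k - v) :=
      h2.trans (mul_le_mul_of_nonneg_right h4 (mass_nonneg I m _))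
    have h6 : mass I m (k - (v + 1)) ≤
        2 * k / (∑ i ∈ I, (1 / (m i : ℝ))) * mass I m (k - v) := by
      rw [div_mul_eq_mul_div, le_div_iff₀ hlam]
      linarith
    refine h6.trans ?_
    rw [pow_succ, mul_comm (_ ^ v), mul_assoc]
    exact mul_le_mul_of_nonneg_left h1 (by positivity)

end Pool.Agent.SCM
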