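import Mathlib
import Pool.Agent.SCM.Defs
import Pool.Agent.SCM.ESY

set_option autoImplicit false

/-!
# Module THE
First moment of `theta` over the pairwise coprime `k`-families.

Proof. Write `p i = 1 / m i`, `lam = ∑ p i`. For `J ∈ fam k` split `i ∈ J` and `i ∈ I \ J`.

* `i ∈ J`: for `j ∈ J`, `j ≠ i` the moduli are coprime and `uu = 0`; for `j = i` the gcd is `m i ≥ 2`
  and `1 + |uu| = m i`. So the term is `p i (m i - 1) ≤ 1`; total at most `k`.
* `i ∉ J`: `∏_{j ∈ J} (1 + |u i j|) - 1 = ∑_{∅ ≠ B ⊆ J} ∏_{j ∈ B} |u i j|` (`Finset.prod_one_add`).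
  Sum over `J ∈ fam k`, `i ∉ J` with weight `wt J`, `|B| = v ≥ 1`: write `J = B ∪ J'` (disjoint),
  `J' ∈ fam (k - v)`, `wt J = wt B wt J'`; for given `i` this is at most
  `(∑_{B ⊆ I \ {i}, |B| = v} ∏_B (p j |u i j|)) mass (k - v) ≤ τ_i^v mass (k - v) ≤ mass (k - v)
  ≤ (2k/lam)^v mass k` with `τ_i = ∑_{j ≠ i} p j |u i j| ≤ 1` (`esymm_le`, drop the factorial).
  Sum over `v ≥ 1`: geometric series, `2k/lam ≤ 1/2`, at most `(4k/lam) mass k`; then sum over `i` with
  weights `p i`: at most `4 k mass k`.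
-/

namespace Pool.Agent.SCM

open Finset

private theorem the_uu_self {ι : Type} (m : ι → ℕ) (c : ι → ℤ) (i : ι) (h : 2 ≤ m i) :
    1 + |uu m c i i| = (m i : ℝ) := by
  have h1 : ¬ (m i).gcd (m i) = 1 := by
    rw [Nat.gcd_self]
    omega
  have h3 : uu m c i i = (m i : ℝ) - 1 := by
    unfold uu
    rw [if_neg h1, if_pos (Int.ModEq.refl _), Nat.gcd_self]
  have h2 : (2 : ℝ) ≤ m i := by exact_mod_cast h
  rw [h3, abs_of_nonneg (by linarith)]
  ring

private theorem the_uu_cop {ι : Type} (m : ι → ℕ) (c : ι → ℤ) (i j : ι)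
    (h : (m i).Coprime (m j)) : uu m c i j = 0 := by
  unfold uu
  rw [if_pos h]

private theorem the_wt_nonneg {ι : Type} (m : ι → ℕ) (J : Finset ι) : 0 ≤ wt m J := by
  unfold wt
  exact Finset.prod_nonneg fun i _ => by positivity

private theorem the_mem_fam {ι : Type} (I : Finset ι) (m : ι → ℕ) (k : ℕ) (J : Finset ι) :
    J ∈ fam I m k ↔ J ⊆ I ∧ J.card = k ∧ Cop m J := by
  classical
  unfold fam
  rw [Finset.mem_filter, Finset.mem_powersetCard, and_assoc]

private theorem the_split {ι : Type} [DecidableEq ι] (I : Finset ι) (m : ι → ℕ) (u : ι → ℝ)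
    (hu : ∀ j, 0 ≤ u j) (i : ι) (k v : ℕ) :
    ∑ J ∈ (fam I m k).filter (fun J => i ∉ J), ∑ B ∈ J.powersetCard v, wt m J * ∏ j ∈ B, u j ≤
      (∑ B ∈ (I.erase i).powersetCard v, ∏ j ∈ B, ((1 / (m j : ℝ)) * u j)) * mass I m (k - v) := by
  have hmm : mass I m (k - v) = ∑ J ∈ fam I m (k - v), wt m J := rfl
  rw [hmm, Finset.sum_mul_sum, ← Finset.sum_product', Finset.sum_sigma']
  have h1 : ∀ x ∈ ((fam I m k).filter (fun J => i ∉ J)).sigma (fun J => J.powersetCard v),
      wt m x.1 * ∏ j ∈ x.2, u j =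
      (fun y : Finset ι × Finset ι => (∏ j ∈ y.1, ((1 / (m j : ℝ)) * u j)) * wt m y.2)
        (x.2, x.1 \ x.2) := by
    intro x hx
    rw [Finset.mem_sigma, Finset.mem_powersetCard] at hx
    have h2 := Finset.prod_sdiff (f := fun i => (1 / (m i : ℝ))) hx.2.1
    show _ = (∏ j ∈ x.2, ((1 / (m j : ℝ)) * u j)) * wt m (x.1 \ x.2)
    unfold wt
    rw [Finset.prod_mul_distrib, ← h2]
    ring
  rw [Finset.sum_congr rfl h1]
  rw [← Finset.sum_image (s := ((fam I m k).filter (fun J => i ∉ J)).sigma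
    (fun J => J.powersetCard v)) (g := fun x : (_ : Finset ι) × Finset ι => (x.2, x.1 \ x.2))
    (f := fun y : Finset ι × Finset ι => (∏ j ∈ y.1, ((1 / (m j : ℝ)) * u j)) * wt m y.2)]
  · apply Finset.sum_le_sum_of_subset_of_nonneg
    · intro y hy
      rw [Finset.mem_image] at hy
      obtain ⟨x, hx, rfl⟩ := hy
      rw [Finset.mem_sigma, Finset.mem_powersetCard, Finset.mem_filter, the_mem_fam] at hx
      obtain ⟨⟨⟨hJ, hJc, hJcop⟩, hi⟩, hB, hBc⟩ := hx
      rw [Finset.mem_product, Finset.mem_powersetCard, the_mem_fam]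
      refine ⟨⟨?_, hBc⟩, ?_, ?_, ?_⟩
      · intro j hj
        rw [Finset.mem_erase]
        refine ⟨?_, hJ (hB hj)⟩
        rintro rfl
        exact hi (hB hj)
      · exact Finset.sdiff_subset.trans hJ
      · show (x.1 \ x.2).card = k - v
        rw [Finset.card_sdiff_of_subset hB, hJc, hBc]
      · intro a ha b hb hab
        exact hJcop a (Finset.mem_sdiff.1 ha).1 b (Finset.mem_sdiff.1 hb).1 hab
    · intro y _ _
      apply mul_nonneg _ (the_wt_nonneg m _)
      exact Finset.prod_nonneg fun j _ => mul_nonneg (by positivity) (hu j)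
  · intro x hx y hy hxy
    rw [Finset.mem_coe, Finset.mem_sigma, Finset.mem_powersetCard] at hx hy
    obtain ⟨J, B⟩ := x
    obtain ⟨J', B'⟩ := y
    simp only [Prod.mk.injEq] at hxy
    obtain ⟨h3, h4⟩ := hxy
    subst h3
    have h6 : B ⊆ J := hx.2.1
    have h7 : B ⊆ J' := hy.2.1
    have h5 : J = J' := by
      rw [← Finset.sdiff_union_of_subset h6, ← Finset.sdiff_union_of_subset h7, h4]
    subst h5
    rfl

theorem theta_avg {ι : Type} [DecidableEq ι] (I : Finset ι) (m : ι → ℕ) (c : ι → ℤ)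
    (hm : ∀ i ∈ I, 2 ≤ m i) (k : ℕ)
    (hratio : ∀ v ≤ k, mass I m (k - v) ≤ (2 * k / (∑ i ∈ I, (1 / (m i : ℝ)))) ^ v * mass I m k)
    (h4 : 4 * (k : ℝ) ≤ ∑ i ∈ I, (1 / (m i : ℝ)))
    (hlam : 0 < ∑ i ∈ I, (1 / (m i : ℝ)))
    (hτ : ∀ i ∈ I, ∑ j ∈ I.erase i, (1 / (m j : ℝ)) * |uu m c i j| ≤ 1) :
    ∑ J ∈ fam I m k, wt m J * theta I m c J ≤ 5 * k * mass I m k := by
  classical
  set lam := ∑ i ∈ I, (1 / (m i : ℝ)) with hlamdef
  have hmass : 0 ≤ mass I m k := Finset.sum_nonneg fun J _ => the_wt_nonneg m J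
  -- the terms with i outside J
  have h2 : ∀ i ∈ I, ∑ J ∈ fam I m k,
      (if i ∉ J then wt m J * ((∏ j ∈ J, (1 + |uu m c i j|)) - 1) else 0) ≤
      (4 * k / lam) * mass I m k := by
    intro i hi
    rw [← Finset.sum_filter]
    have h3 : ∀ J ∈ (fam I m k).filter (fun J => i ∉ J),
        wt m J * ((∏ j ∈ J, (1 + |uu m c i j|)) - 1) =
        ∑ v ∈ range k, ∑ B ∈ J.powersetCard (v + 1), wt m J * ∏ j ∈ B, |uu m c i j| := by
      intro J hJ
      rw [Finset.mem_filter, the_mem_fam] at hJ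
      have h5 : ∏ j ∈ J, (1 + |uu m c i j|) =
          1 + ∑ v ∈ range k, ∑ B ∈ J.powersetCard (v + 1), ∏ j ∈ B, |uu m c i j| := by
        rw [Finset.prod_one_add, Finset.sum_powerset, hJ.1.2.1, Finset.sum_range_succ']
        rw [Finset.powersetCard_zero, Finset.sum_singleton, Finset.prod_empty, add_comm]
      rw [h5, add_sub_cancel_left, Finset.mul_sum]
      apply Finset.sum_congr rfl
      intro v _
      rw [Finset.mul_sum]
    rw [Finset.sum_congr rfl h3, Finset.sum_comm]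
    have h6 : ∀ v ∈ range k, ∑ J ∈ (fam I m k).filter (fun J => i ∉ J),
        ∑ B ∈ J.powersetCard (v + 1), wt m J * ∏ j ∈ B, |uu m c i j| ≤
        (2 * k / lam) ^ (v + 1) * mass I m k := by
      intro v hv
      rw [Finset.mem_range] at hv
      refine (the_split I m (fun j => |uu m c i j|) (fun j => abs_nonneg _) i k (v + 1)).trans ?_
      have h7 : ∑ B ∈ (I.erase i).powersetCard (v + 1),
          ∏ j ∈ B, ((1 / (m j : ℝ)) * |uu m c i j|) ≤ 1 := by
        refine (esymm_le (I.erase i) (fun j => (1 / (m j : ℝ)) * |uu m c i j|)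
          (fun j _ => mul_nonneg (by positivity) (abs_nonneg _)) (v + 1)).trans ?_
        have h8 : 0 ≤ ∑ j ∈ I.erase i, (1 / (m j : ℝ)) * |uu m c i j| :=
          Finset.sum_nonneg fun j _ => mul_nonneg (by positivity) (abs_nonneg _)
        have h9 := pow_le_one₀ (n := v + 1) h8 (hτ i hi)
        have h10 : (1 : ℝ) ≤ ((v + 1).factorial : ℝ) := by
          exact_mod_cast Nat.one_le_iff_ne_zero.2 (Nat.factorial_ne_zero _)
        rw [div_le_one (by linarith)]
        linarith
      have h11 : 0 ≤ mass I m (k - (v + 1)) := Finset.sum_nonneg fun J _ => the_wt_nonneg m J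
      refine (mul_le_mul_of_nonneg_right h7 h11).trans ?_
      rw [one_mul]
      exact hratio (v + 1) hv
    refine (Finset.sum_le_sum h6).trans ?_
    rw [← Finset.sum_mul]
    apply mul_le_mul_of_nonneg_right _ hmass
    have hr0 : 0 ≤ 2 * (k : ℝ) / lam := by positivity
    have hr1 : 2 * (k : ℝ) / lam ≤ 1 / 2 := by
      rw [div_le_iff₀ hlam]
      linarith
    have h12 : ∑ v ∈ range k, (2 * (k : ℝ) / lam) ^ (v + 1) ≤ (2 * (k : ℝ) / lam) * 2 := by
      have h13 : ∀ v ∈ range k, (2 * (k : ℝ) / lam) ^ (v + 1) ≤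
          (2 * (k : ℝ) / lam) * (1 / 2) ^ v := by
        intro v _
        rw [pow_succ, mul_comm]
        exact mul_le_mul_of_nonneg_left (pow_le_pow_left₀ hr0 hr1 v) hr0
      refine (Finset.sum_le_sum h13).trans ?_
      rw [← Finset.mul_sum]
      exact mul_le_mul_of_nonneg_left (sum_geometric_two_le k) hr0
    refine h12.trans (le_of_eq ?_)
    ring
  -- the terms with i in J
  have h1 : ∀ J ∈ fam I m k, theta I m c J ≤ k + ∑ i ∈ I, (1 / (m i : ℝ)) *
      (if i ∉ J then ((∏ j ∈ J, (1 + |uu m c i j|)) - 1) else 0) := by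
    intro J hJ
    rw [the_mem_fam] at hJ
    have h3 : (∑ i ∈ I, (if i ∈ J then (1 : ℝ) else 0)) ≤ k := by
      rw [← Finset.sum_filter, Finset.sum_const, nsmul_eq_mul, mul_one, ← hJ.2.1]
      have h5 : (I.filter (fun i => i ∈ J)).card ≤ J.card := by
        apply Finset.card_le_card
        intro i hi
        exact (Finset.mem_filter.1 hi).2
      exact_mod_cast h5
    unfold theta
    refine le_trans ?_ (add_le_add h3 (le_refl _))
    rw [← Finset.sum_add_distrib]
    apply Finset.sum_le_sum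
    intro i hi
    by_cases hiJ : i ∈ J
    · rw [if_pos hiJ, if_neg (not_not.2 hiJ), mul_zero, add_zero]
      have h5 : ∏ j ∈ J, (1 + |uu m c i j|) = (m i : ℝ) := by
        rw [Finset.prod_eq_single_of_mem i hiJ]
        · exact the_uu_self m c i (hm i hi)
        · intro j hj hne
          rw [the_uu_cop m c i j (hJ.2.2 i hiJ j hj hne.symm), abs_zero, add_zero]
      rw [h5]
      have h6 : (2 : ℝ) ≤ m i := by exact_mod_cast hm i hi
      rw [one_div, inv_mul_le_iff₀ (by linarith)]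
      linarith
    · rw [if_neg hiJ, if_pos hiJ, zero_add]
  calc ∑ J ∈ fam I m k, wt m J * theta I m c J
      ≤ ∑ J ∈ fam I m k, (wt m J * k + ∑ i ∈ I, (1 / (m i : ℝ)) *
        (if i ∉ J then wt m J * ((∏ j ∈ J, (1 + |uu m c i j|)) - 1) else 0)) := by
        apply Finset.sum_le_sum
        intro J hJ
        refine (mul_le_mul_of_nonneg_left (h1 J hJ) (the_wt_nonneg m J)).trans (le_of_eq ?_)
        rw [mul_add, Finset.mul_sum]
        congr 1
        apply Finset.sum_congr rfl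
        intro i _
        split_ifs <;> ring
    _ = mass I m k * k + ∑ i ∈ I, (1 / (m i : ℝ)) * ∑ J ∈ fam I m k,
        (if i ∉ J then wt m J * ((∏ j ∈ J, (1 + |uu m c i j|)) - 1) else 0) := by
        rw [Finset.sum_add_distrib, ← Finset.sum_mul, Finset.sum_comm]
        congr 1
        apply Finset.sum_congr rfl
        intro i _
        rw [Finset.mul_sum]
    _ ≤ mass I m k * k + ∑ i ∈ I, (1 / (m i : ℝ)) * ((4 * k / lam) * mass I m k) := by
        apply add_le_add (le_refl _)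
        apply Finset.sum_le_sum
        intro i hi
        exact mul_le_mul_of_nonneg_left (h2 i hi) (by positivity)
    _ = 5 * k * mass I m k := by
        rw [← Finset.sum_mul, ← hlamdef]
        field_simp
        ring

end Pool.Agent.SCM
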