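import Mathlib
import Pool.Agent.SCM.Defs
import Pool.Agent.SCM.ESY
import Pool.Agent.SCM.MAB
import Pool.Agent.SCM.THE
import Pool.Agent.SCM.ALT
import Pool.Agent.SCM.CRT

set_option autoImplicit false

/-!
# Module SIV
The sieve with composite moduli.

Proof. `p i = 1 / m i`, `lam = ∑_I p i`; `I_i n ∈ {0,1}` the indicator of `n ≡ c i (mod m i)`.
`G` = the `J ∈ fam k` with `theta J ≤ 10 k`, `D = ∑_{J ∈ G} wt J`. By `theta_avg` and Markov
(`theta ≥ 0`, `mass > 0`) `D ≥ mass / 2`, and `mass ≥ (lam/2)^k / k!` (`mass_lower`).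
Let `f n = ∑_{J ∈ G} ∏_{i ∈ J} (p i - I_i n)`. If no event occurs at `n` then `f n = D`. So
`D^2 #A ≤ ∑_{n=1}^N f n ^2 = ∑_{J, J' ∈ G} ∑_n ∏_J (p i - I_i n) ∏_{J'} (p j - I_j n)`. Expand both
products over subsets `A ⊆ J`, `A' ⊆ J'` (where the factors `-I` are taken); the inner sum over `n` of
the indicators is the count of `count_bound`; so the inner sum is at most
`N |F(J, J')| + 4^k` with `F` the double sum of `alt_bound` (the `4^k` error terms have absolute
coefficients `≤ 1`). `alt_bound` and `esymm_le` give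
`∑_{J, J' ∈ G} |F| ≤ ∑_{J' ∈ G} 2^k wt J' theta(J')^k / k! ≤ 2^k D (10 k)^k / k!`. Hence
`#A ≤ N 2^k (10k)^k / (k! D) + 4^k |G|^2 / D^2 ≤ 2 N (40 k / lam)^k + 4 (2 |I|)^(2k)`, using
`|G| ≤ |I|^k`, `k! ≤ k^k`, `2k ≤ lam`; and `40 k / lam ≤ 1/3 < e^{-1}`.
-/

namespace Pool.Agent.SCM

open Finset

namespace SIV_

open Classical in
/-- indicator of the event `i` at `n` -/
noncomputable def ind {ι : Type} (m : ι → ℕ) (c : ι → ℤ) (i : ι) (n : ℕ) : ℝ :=
  if (n : ℤ) ≡ c i [ZMOD (m i : ℤ)] then 1 else 0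

private lemma prod_ind {ι : Type} (m : ι → ℕ) (c : ι → ℤ) (A : Finset ι) (n : ℕ)
    [Decidable (∀ i ∈ A, (n : ℤ) ≡ c i [ZMOD (m i : ℤ)])] :
    ∏ i ∈ A, ind m c i n = if (∀ i ∈ A, (n : ℤ) ≡ c i [ZMOD (m i : ℤ)]) then 1 else 0 := by
  classical
  split_ifs with h
  · apply Finset.prod_eq_one
    intro i hi
    unfold ind
    rw [if_pos (h i hi)]
  · push Not at h
    obtain ⟨i, hi, hn⟩ := h
    apply Finset.prod_eq_zero hi
    unfold ind
    rw [if_neg hn]

open Classical in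
private lemma sum_ind {ι : Type} [DecidableEq ι] (m : ι → ℕ) (c : ι → ℤ) (A A' : Finset ι) (N : ℕ) :
    ∑ n ∈ Icc 1 N, (∏ i ∈ A, ind m c i n) * (∏ j ∈ A', ind m c j n) =
      (((Icc 1 N).filter (fun n : ℕ => ∀ i ∈ A ∪ A', (n : ℤ) ≡ c i [ZMOD (m i : ℤ)])).card : ℝ) := by
  rw [Finset.card_filter]
  push_cast
  refine Finset.sum_congr rfl (fun n _ => ?_)
  rw [prod_ind, prod_ind]
  by_cases h1 : ∀ i ∈ A, (n : ℤ) ≡ c i [ZMOD (m i : ℤ)]
  · by_cases h2 : ∀ i ∈ A', (n : ℤ) ≡ c i [ZMOD (m i : ℤ)]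
    · rw [if_pos h1, if_pos h2, if_pos, one_mul]
      intro i hi
      rcases Finset.mem_union.mp hi with h | h
      · exact h1 i h
      · exact h2 i h
    · rw [if_neg h2, mul_zero, if_neg]
      intro h
      exact h2 (fun i hi => h i (Finset.mem_union_right _ hi))
  · rw [if_neg h1, zero_mul, if_neg]
    intro h
    exact h1 (fun i hi => h i (Finset.mem_union_left _ hi))

private lemma prod_le_one' {ι : Type} (m : ι → ℕ) (A : Finset ι) :
    0 ≤ ∏ i ∈ A, (1 / (m i : ℝ)) ∧ ∏ i ∈ A, (1 / (m i : ℝ)) ≤ 1 := by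
  refine ⟨Finset.prod_nonneg (fun i _ => by positivity), ?_⟩
  apply Finset.prod_le_one (fun i _ => by positivity)
  intro i _
  rcases Nat.eq_zero_or_pos (m i) with h | h
  · simp [h]
  · rw [div_le_one (by exact_mod_cast h)]
    exact_mod_cast h

private lemma pair {ι : Type} [DecidableEq ι] (m : ι → ℕ) (c : ι → ℤ) (J J' : Finset ι)
    (hm : ∀ i ∈ J ∪ J', 2 ≤ m i) (hJ : Cop m J) (hJ' : Cop m J') (N : ℕ) :
    ∑ n ∈ Icc 1 N, (∏ i ∈ J, (1 / (m i : ℝ) - ind m c i n)) *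
        (∏ j ∈ J', (1 / (m j : ℝ) - ind m c j n)) ≤
      N * (2 ^ J'.card * (∏ j ∈ J', (1 / (m j : ℝ))) *
        ∏ i ∈ J, (1 / (m i : ℝ) * ((∏ j ∈ J', (1 + |uu m c i j|)) - 1))) +
        2 ^ J.card * 2 ^ J'.card := by
  classical
  have hexp : ∑ n ∈ Icc 1 N, (∏ i ∈ J, (1 / (m i : ℝ) - ind m c i n)) *
        (∏ j ∈ J', (1 / (m j : ℝ) - ind m c j n)) =
      ∑ A ∈ J.powerset, ∑ A' ∈ J'.powerset, ((-1 : ℝ) ^ (A.card + A'.card) *
        ((∏ i ∈ J \ A, (1 / (m i : ℝ))) * (∏ j ∈ J' \ A', (1 / (m j : ℝ))))) *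
        ∑ n ∈ Icc 1 N, (∏ i ∈ A, ind m c i n) * (∏ j ∈ A', ind m c j n) := by
    calc ∑ n ∈ Icc 1 N, (∏ i ∈ J, (1 / (m i : ℝ) - ind m c i n)) *
          (∏ j ∈ J', (1 / (m j : ℝ) - ind m c j n))
        = ∑ n ∈ Icc 1 N, ∑ A ∈ J.powerset, ∑ A' ∈ J'.powerset,
            ((-1 : ℝ) ^ (A.card + A'.card) *
            ((∏ i ∈ J \ A, (1 / (m i : ℝ))) * (∏ j ∈ J' \ A', (1 / (m j : ℝ))))) *
            ((∏ i ∈ A, ind m c i n) * (∏ j ∈ A', ind m c j n)) := by
          refine Finset.sum_congr rfl (fun n _ => ?_)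
          rw [Finset.prod_sub, Finset.prod_sub, Finset.sum_mul_sum]
          refine Finset.sum_congr rfl (fun A _ => ?_)
          refine Finset.sum_congr rfl (fun A' _ => ?_)
          rw [pow_add]
          ring
      _ = _ := by
          rw [Finset.sum_comm]
          refine Finset.sum_congr rfl (fun A _ => ?_)
          rw [Finset.sum_comm]
          refine Finset.sum_congr rfl (fun A' _ => ?_)
          rw [Finset.mul_sum]
  rw [hexp]
  have hterm : ∀ A ∈ J.powerset, ∀ A' ∈ J'.powerset,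
      ((-1 : ℝ) ^ (A.card + A'.card) *
        ((∏ i ∈ J \ A, (1 / (m i : ℝ))) * (∏ j ∈ J' \ A', (1 / (m j : ℝ))))) *
        (∑ n ∈ Icc 1 N, (∏ i ∈ A, ind m c i n) * (∏ j ∈ A', ind m c j n)) ≤
      N * ((-1 : ℝ) ^ (A.card + A'.card) *
        ((∏ i ∈ J \ A, (1 / (m i : ℝ))) * (∏ j ∈ J' \ A', (1 / (m j : ℝ)))) *
        ((∏ i ∈ A, (1 / (m i : ℝ))) * (∏ j ∈ A', (1 / (m j : ℝ))) *
          ∏ i ∈ A, ∏ j ∈ A', (1 + uu m c i j))) + 1 := by
    intro A hA A' hA'
    rw [Finset.mem_powerset] at hA hA'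
    rw [sum_ind]
    have hcb := count_bound m c A A' (fun i hi => hm i (by
      rcases Finset.mem_union.mp hi with h | h
      · exact Finset.mem_union_left _ (hA h)
      · exact Finset.mem_union_right _ (hA' h)))
      (fun i hi j hj => hJ i (hA hi) j (hA hj)) (fun i hi j hj => hJ' i (hA' hi) j (hA' hj)) N
    set C : ℝ := (((Icc 1 N).filter (fun n : ℕ => ∀ i ∈ A ∪ A',
      (n : ℤ) ≡ c i [ZMOD (m i : ℤ)])).card : ℝ) with hC
    set P : ℝ := ((∏ i ∈ A, (1 / (m i : ℝ))) * (∏ j ∈ A', (1 / (m j : ℝ))) *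
          ∏ i ∈ A, ∏ j ∈ A', (1 + uu m c i j)) with hP
    have h1 := prod_le_one' m (J \ A)
    have h2 := prod_le_one' m (J' \ A')
    set q : ℝ := (∏ i ∈ J \ A, (1 / (m i : ℝ))) * (∏ j ∈ J' \ A', (1 / (m j : ℝ))) with hq
    have hq0 : 0 ≤ q := mul_nonneg h1.1 h2.1
    have hq1 : q ≤ 1 := mul_le_one₀ h1.2 h2.1 h2.2
    have habs : |(-1 : ℝ) ^ (A.card + A'.card) * q| ≤ 1 := by
      rw [abs_mul, abs_pow, abs_neg, abs_one, one_pow, one_mul, abs_of_nonneg hq0]
      exact hq1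
    have h3 : ((-1 : ℝ) ^ (A.card + A'.card) * q) * (C - N * P) ≤ 1 := by
      refine (le_abs_self _).trans ?_
      rw [abs_mul]
      exact mul_le_one₀ habs (abs_nonneg _) hcb
    nlinarith
  calc _ ≤ ∑ A ∈ J.powerset, ∑ A' ∈ J'.powerset,
      (N * ((-1 : ℝ) ^ (A.card + A'.card) *
        ((∏ i ∈ J \ A, (1 / (m i : ℝ))) * (∏ j ∈ J' \ A', (1 / (m j : ℝ)))) *
        ((∏ i ∈ A, (1 / (m i : ℝ))) * (∏ j ∈ A', (1 / (m j : ℝ))) *
          ∏ i ∈ A, ∏ j ∈ A', (1 + uu m c i j))) + 1) := by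
        apply Finset.sum_le_sum
        intro A hA
        apply Finset.sum_le_sum
        intro A' hA'
        exact hterm A hA A' hA'
    _ = N * (∑ A ∈ J.powerset, ∑ A' ∈ J'.powerset, (-1 : ℝ) ^ (A.card + A'.card) *
        ((∏ i ∈ J \ A, (1 / (m i : ℝ))) * (∏ j ∈ J' \ A', (1 / (m j : ℝ)))) *
        ((∏ i ∈ A, (1 / (m i : ℝ))) * (∏ j ∈ A', (1 / (m j : ℝ))) *
          ∏ i ∈ A, ∏ j ∈ A', (1 + uu m c i j))) + 2 ^ J.card * 2 ^ J'.card := by
        simp only [Finset.sum_add_distrib, Finset.mul_sum, Finset.sum_const,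
          nsmul_eq_mul, Finset.card_powerset, mul_one]
        push_cast
        ring
    _ ≤ _ := by
        have h := alt_bound J J' (fun i => 1 / (m i : ℝ)) (fun i j => uu m c i j)
          (fun i _ => by positivity)
        have h2 := (le_abs_self _).trans h
        have h3 := mul_le_mul_of_nonneg_left h2 (Nat.cast_nonneg N : (0 : ℝ) ≤ N)
        linarith

end SIV_

open Classical in
theorem sieve {ι : Type} [DecidableEq ι] (I : Finset ι) (m : ι → ℕ) (c : ι → ℤ)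
    (hm : ∀ i ∈ I, 2 ≤ m i) (δ : ℝ)
    (hδ : ∀ j ∈ I, ∑ i ∈ I.filter (fun i => ¬ (m i).Coprime (m j)), (1 / (m i : ℝ)) ≤ δ)
    (k : ℕ) (hk1 : 1 ≤ k) (hk : (k : ℝ) * δ ≤ (∑ i ∈ I, (1 / (m i : ℝ))) / 2)
    (hk2 : 120 * (k : ℝ) ≤ ∑ i ∈ I, (1 / (m i : ℝ)))
    (hτ : ∀ i ∈ I, ∑ j ∈ I.erase i, (1 / (m j : ℝ)) * |uu m c i j| ≤ 1) (N : ℕ) :
    (((Icc 1 N).filter (fun n : ℕ => ∀ i ∈ I, ¬ (n : ℤ) ≡ c i [ZMOD (m i : ℤ)])).card : ℝ) ≤
      2 * N * Real.exp (-(k : ℝ)) + 4 * (2 * (I.card : ℝ)) ^ (2 * k) := by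
  have hk0 : (0 : ℝ) < k := by exact_mod_cast hk1
  have hkone : (1 : ℝ) ≤ k := by exact_mod_cast hk1
  set lam : ℝ := ∑ i ∈ I, (1 / (m i : ℝ)) with hlam
  have hlam0 : 0 < lam := by linarith
  have hfac : (0 : ℝ) < (k.factorial : ℝ) := by exact_mod_cast Nat.factorial_pos k
  have hmass := mass_lower I m hm δ hδ k hk hlam0
  rw [← hlam] at hmass
  have hmass0 : 0 < mass I m k := lt_of_lt_of_le (by positivity) hmass
  have hthe := theta_avg I m c hm k (fun v hv => mass_ratio I m hm δ hδ k hk hlam0 v hv)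
    (by rw [← hlam]; linarith) hlam0 hτ
  have hwt : ∀ J : Finset ι, 0 ≤ wt m J := fun J =>
    Finset.prod_nonneg (fun i _ => by positivity)
  have hprod1 : ∀ (i : ι) (J : Finset ι), 1 ≤ ∏ j ∈ J, (1 + |uu m c i j|) := by
    intro i J
    calc (1 : ℝ) = ∏ _j ∈ J, (1 : ℝ) := by simp
      _ ≤ _ := Finset.prod_le_prod (fun _ _ => by norm_num)
        (fun j _ => by linarith [abs_nonneg (uu m c i j)])
  have ha0 : ∀ (i : ι) (J : Finset ι), 0 ≤ (1 / (m i : ℝ)) * ((∏ j ∈ J, (1 + |uu m c i j|)) - 1) := by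
    intro i J
    exact mul_nonneg (by positivity) (by linarith [hprod1 i J])
  have htheta0 : ∀ J : Finset ι, 0 ≤ theta I m c J := fun J =>
    Finset.sum_nonneg (fun i _ => ha0 i J)
  set G : Finset (Finset ι) := (fam I m k).filter (fun J => theta I m c J ≤ 10 * k) with hG
  set D : ℝ := ∑ J ∈ G, wt m J with hD
  have hGmem : ∀ J ∈ G, J ⊆ I ∧ J.card = k ∧ Cop m J ∧ theta I m c J ≤ 10 * k := by
    intro J hJ
    rw [hG, Finset.mem_filter] at hJ
    unfold fam at hJ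
    rw [Finset.mem_filter, Finset.mem_powersetCard] at hJ
    exact ⟨hJ.1.1.1, hJ.1.1.2, hJ.1.2, hJ.2⟩
  -- Markov
  have hDlow : mass I m k / 2 ≤ D := by
    have h1 : mass I m k = D + ∑ J ∈ (fam I m k).filter (fun J => ¬ theta I m c J ≤ 10 * k),
        wt m J := by
      unfold mass
      rw [hD, hG]
      exact (Finset.sum_filter_add_sum_filter_not _ _ _).symm
    have h2 : 10 * (k : ℝ) * ∑ J ∈ (fam I m k).filter (fun J => ¬ theta I m c J ≤ 10 * k),
        wt m J ≤ ∑ J ∈ fam I m k, wt m J * theta I m c J := by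
      rw [Finset.mul_sum]
      refine (Finset.sum_le_sum (f := fun J => 10 * (k : ℝ) * wt m J)
        (g := fun J => wt m J * theta I m c J) ?_).trans
        (Finset.sum_le_sum_of_subset_of_nonneg (Finset.filter_subset _ _)
          (fun J _ _ => mul_nonneg (hwt J) (htheta0 J)))
      intro J hJ
      rw [Finset.mem_filter] at hJ
      have h3 : 10 * (k : ℝ) < theta I m c J := lt_of_not_ge hJ.2
      show 10 * (k : ℝ) * wt m J ≤ wt m J * theta I m c J
      nlinarith [mul_le_mul_of_nonneg_left h3.le (hwt J)]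
    have h3 : 10 * (k : ℝ) * ∑ J ∈ (fam I m k).filter (fun J => ¬ theta I m c J ≤ 10 * k),
        wt m J ≤ 5 * k * mass I m k := h2.trans hthe
    have h4 : ∑ J ∈ (fam I m k).filter (fun J => ¬ theta I m c J ≤ 10 * k),
        wt m J ≤ mass I m k / 2 := by
      by_contra hcon
      have hcon := lt_of_not_ge hcon
      have := mul_lt_mul_of_pos_left hcon (show (0 : ℝ) < 10 * k by positivity)
      linarith
    linarith
  have hDlow2 : (lam / 2) ^ k / (2 * (k.factorial : ℝ)) ≤ D := by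
    have : (lam / 2) ^ k / (2 * (k.factorial : ℝ)) = ((lam / 2) ^ k / (k.factorial : ℝ)) / 2 := by
      field_simp
    rw [this]
    linarith
  have hD0 : 0 < D := lt_of_lt_of_le (by positivity) hDlow2
  -- second moment
  set f : ℕ → ℝ := fun n => ∑ J ∈ G, ∏ i ∈ J, (1 / (m i : ℝ) - SIV_.ind m c i n) with hf
  set Aset := (Icc 1 N).filter (fun n : ℕ => ∀ i ∈ I, ¬ (n : ℤ) ≡ c i [ZMOD (m i : ℤ)]) with hAset
  have hfA : ∀ n ∈ Aset, f n = D := by
    intro n hn
    rw [hAset, Finset.mem_filter] at hn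
    rw [hf, hD]
    refine Finset.sum_congr rfl (fun J hJ => ?_)
    unfold wt
    refine Finset.prod_congr rfl (fun i hi => ?_)
    unfold SIV_.ind
    rw [if_neg (hn.2 i ((hGmem J hJ).1 hi)), sub_zero]
  have hsecond : D ^ 2 * (Aset.card : ℝ) ≤ ∑ n ∈ Icc 1 N, (f n) ^ 2 := by
    calc D ^ 2 * (Aset.card : ℝ) = ∑ n ∈ Aset, D ^ 2 := by
          rw [Finset.sum_const, nsmul_eq_mul]; ring
      _ = ∑ n ∈ Aset, (f n) ^ 2 := Finset.sum_congr rfl (fun n hn => by rw [hfA n hn])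
      _ ≤ _ := Finset.sum_le_sum_of_subset_of_nonneg (Finset.filter_subset _ _)
          (fun n _ _ => sq_nonneg _)
  have hmoment : ∑ n ∈ Icc 1 N, (f n) ^ 2 ≤
      N * (2 ^ k * D * ((10 * k) ^ k / (k.factorial : ℝ))) + 4 ^ k * (G.card : ℝ) ^ 2 := by
    calc ∑ n ∈ Icc 1 N, (f n) ^ 2
        = ∑ J ∈ G, ∑ J' ∈ G, ∑ n ∈ Icc 1 N, (∏ i ∈ J, (1 / (m i : ℝ) - SIV_.ind m c i n)) *
            (∏ j ∈ J', (1 / (m j : ℝ) - SIV_.ind m c j n)) := by
          rw [hf]
          simp only [pow_two, Finset.sum_mul_sum]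
          rw [Finset.sum_comm]
          refine Finset.sum_congr rfl (fun J _ => ?_)
          rw [Finset.sum_comm]
      _ ≤ ∑ J ∈ G, ∑ J' ∈ G, (N * (2 ^ k * wt m J' *
            ∏ i ∈ J, (1 / (m i : ℝ) * ((∏ j ∈ J', (1 + |uu m c i j|)) - 1))) + 4 ^ k) := by
          apply Finset.sum_le_sum
          intro J hJ
          apply Finset.sum_le_sum
          intro J' hJ'
          obtain ⟨h1, h2, h3, h4⟩ := hGmem J hJ
          obtain ⟨h1', h2', h3', h4'⟩ := hGmem J' hJ'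
          have h := SIV_.pair m c J J' (fun i hi => hm i (by
            rcases Finset.mem_union.mp hi with h | h
            · exact h1 h
            · exact h1' h)) h3 h3' N
          rw [h2, h2'] at h
          have h5 : (2 : ℝ) ^ k * 2 ^ k = 4 ^ k := by
            rw [← mul_pow]; norm_num
          rw [h5] at h
          exact h
      _ = N * (2 ^ k * ∑ J' ∈ G, wt m J' * ∑ J ∈ G,
            ∏ i ∈ J, (1 / (m i : ℝ) * ((∏ j ∈ J', (1 + |uu m c i j|)) - 1))) +
            4 ^ k * (G.card : ℝ) ^ 2 := by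
          simp only [Finset.sum_add_distrib, Finset.sum_const, nsmul_eq_mul]
          rw [Finset.sum_comm]
          simp only [Finset.mul_sum]
          congr 1
          · refine Finset.sum_congr rfl (fun J _ => ?_)
            refine Finset.sum_congr rfl (fun J' _ => ?_)
            ring
          · ring
      _ ≤ N * (2 ^ k * ∑ J' ∈ G, wt m J' * ((10 * k) ^ k / (k.factorial : ℝ))) +
            4 ^ k * (G.card : ℝ) ^ 2 := by
          have key : ∀ J' ∈ G, wt m J' * ∑ J ∈ G,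
            ∏ i ∈ J, (1 / (m i : ℝ) * ((∏ j ∈ J', (1 + |uu m c i j|)) - 1)) ≤
              wt m J' * ((10 * k) ^ k / (k.factorial : ℝ)) := by
            intro J' hJ'
            apply mul_le_mul_of_nonneg_left _ (hwt J')
            obtain ⟨h1', h2', h3', h4'⟩ := hGmem J' hJ'
            calc ∑ J ∈ G, ∏ i ∈ J, (1 / (m i : ℝ) * ((∏ j ∈ J', (1 + |uu m c i j|)) - 1))
                ≤ ∑ J ∈ I.powersetCard k,
                    ∏ i ∈ J, (1 / (m i : ℝ) * ((∏ j ∈ J', (1 + |uu m c i j|)) - 1)) := by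
                  apply Finset.sum_le_sum_of_subset_of_nonneg
                  · intro J hJ
                    obtain ⟨h1, h2, _, _⟩ := hGmem J hJ
                    rw [Finset.mem_powersetCard]
                    exact ⟨h1, h2⟩
                  · intro J _ _
                    exact Finset.prod_nonneg (fun i _ => ha0 i J')
              _ ≤ (theta I m c J') ^ k / (k.factorial : ℝ) := by
                  unfold theta
                  exact esymm_le I _ (fun i _ => ha0 i J') k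
              _ ≤ (10 * k) ^ k / (k.factorial : ℝ) := by
                  apply div_le_div_of_nonneg_right _ hfac.le
                  exact pow_le_pow_left₀ (htheta0 J') h4' k
          have h1 := Finset.sum_le_sum key
          have h2 : (0 : ℝ) ≤ N * 2 ^ k := by positivity
          have h3 := mul_le_mul_of_nonneg_left h1 h2
          linarith
      _ = _ := by
          rw [← Finset.sum_mul]
          ring
  have hcard : (G.card : ℝ) ≤ (I.card : ℝ) ^ k / (k.factorial : ℝ) := by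
    have h1 : G.card ≤ I.card.choose k := by
      rw [← Finset.card_powersetCard]
      apply Finset.card_le_card
      intro J hJ
      obtain ⟨h1, h2, _, _⟩ := hGmem J hJ
      rw [Finset.mem_powersetCard]
      exact ⟨h1, h2⟩
    have h2 : ((I.card.choose k : ℕ) : ℝ) ≤ (I.card : ℝ) ^ k / (k.factorial : ℝ) :=
      Nat.choose_le_pow_div k I.card
    exact (by exact_mod_cast h1 : (G.card : ℝ) ≤ ((I.card.choose k : ℕ) : ℝ)).trans h2
  have hall : D ^ 2 * (Aset.card : ℝ) ≤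
      N * (2 ^ k * D * ((10 * k) ^ k / (k.factorial : ℝ))) + 4 ^ k * (G.card : ℝ) ^ 2 :=
    hsecond.trans hmoment
  -- first term
  have hfirst : N * (2 ^ k * D * ((10 * k) ^ k / (k.factorial : ℝ))) ≤
      D ^ 2 * (2 * N * Real.exp (-(k : ℝ))) := by
    have h1 : (2 : ℝ) ^ k * ((10 * k) ^ k / (k.factorial : ℝ)) ≤
        D * (2 * Real.exp (-(k : ℝ))) := by
      have h2 : (20 * (k : ℝ)) ^ k ≤ (lam / 2) ^ k * Real.exp (-(k : ℝ)) := by
        have h3 : Real.exp (-(k : ℝ)) = (Real.exp (-1)) ^ k := by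
          rw [← Real.exp_nat_mul]
          congr 1
          ring
        rw [h3, ← mul_pow]
        apply pow_le_pow_left₀ (by positivity)
        have h4 : (1 : ℝ) / 3 ≤ Real.exp (-1) := by
          rw [Real.exp_neg, one_div]
          apply inv_anti₀ (Real.exp_pos _)
          have := Real.exp_one_lt_d9
          linarith
        have h5 : 60 * (k : ℝ) ≤ lam / 2 := by linarith
        nlinarith [Real.exp_pos (-1)]
      calc (2 : ℝ) ^ k * ((10 * k) ^ k / (k.factorial : ℝ))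
          = (20 * (k : ℝ)) ^ k / (k.factorial : ℝ) := by
            rw [← mul_div_assoc, ← mul_pow]
            congr 2
            ring
        _ ≤ ((lam / 2) ^ k * Real.exp (-(k : ℝ))) / (k.factorial : ℝ) :=
            div_le_div_of_nonneg_right h2 hfac.le
        _ = ((lam / 2) ^ k / (2 * (k.factorial : ℝ))) * (2 * Real.exp (-(k : ℝ))) := by
            field_simp
        _ ≤ D * (2 * Real.exp (-(k : ℝ))) :=
            mul_le_mul_of_nonneg_right hDlow2 (by positivity)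
    have h2 : (0 : ℝ) ≤ N * D := by positivity
    have h3 := mul_le_mul_of_nonneg_left h1 h2
    calc N * (2 ^ k * D * ((10 * k) ^ k / (k.factorial : ℝ)))
        = N * D * (2 ^ k * ((10 * k) ^ k / (k.factorial : ℝ))) := by ring
      _ ≤ N * D * (D * (2 * Real.exp (-(k : ℝ)))) := h3
      _ = _ := by ring
  have hsnd : (4 : ℝ) ^ k * (G.card : ℝ) ^ 2 ≤ D ^ 2 * (4 * (2 * (I.card : ℝ)) ^ (2 * k)) := by
    have h1 : (1 : ℝ) ≤ (lam / 2) ^ k := one_le_pow₀ (by linarith)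
    have h2 : 1 / (2 * (k.factorial : ℝ)) ≤ D :=
      le_trans (div_le_div_of_nonneg_right h1 (by positivity)) hDlow2
    have h3 : (G.card : ℝ) ≤ D * (2 * (I.card : ℝ) ^ k) := by
      calc (G.card : ℝ) ≤ (I.card : ℝ) ^ k / (k.factorial : ℝ) := hcard
        _ = 1 / (2 * (k.factorial : ℝ)) * (2 * (I.card : ℝ) ^ k) := by field_simp
        _ ≤ _ := mul_le_mul_of_nonneg_right h2 (by positivity)
    have h4 : (G.card : ℝ) ^ 2 ≤ (D * (2 * (I.card : ℝ) ^ k)) ^ 2 :=
      pow_le_pow_left₀ (by positivity) h3 2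
    calc (4 : ℝ) ^ k * (G.card : ℝ) ^ 2 ≤ 4 ^ k * (D * (2 * (I.card : ℝ) ^ k)) ^ 2 :=
          mul_le_mul_of_nonneg_left h4 (by positivity)
      _ = D ^ 2 * (4 * (4 ^ k * ((I.card : ℝ) ^ k) ^ 2)) := by ring
      _ = _ := by
          congr 2
          rw [mul_pow, pow_mul, ← pow_mul (I.card : ℝ) k 2, mul_comm k 2]
          norm_num
  have hfin : D ^ 2 * (Aset.card : ℝ) ≤
      D ^ 2 * (2 * N * Real.exp (-(k : ℝ)) + 4 * (2 * (I.card : ℝ)) ^ (2 * k)) := by
    rw [mul_add]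
    linarith
  exact le_of_mul_le_mul_left hfin (by positivity)

end Pool.Agent.SCM
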