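import Mathlib
import Pool.Agent.SCM.Defs
import Pool.Agent.SCM.APS

set_option autoImplicit false

/-!
# Module DEL
The events whose modulus has a common factor with a given modulus.

Proof. If `mo t`, `mo t₁` are not coprime they have a common prime factor `r`, `r > R`. The number of
prime factors of `mo t₁ ≤ 2 Z^5` is at most `log (2 Z^5) / log 2 ≤ 8 log Z + 1`. For fixed `r` and `x`,
`∑_{y ∈ [Z^3, Z^4], r ∣ x y + 1} 1/y ≤ 1/Z^3 + log Z / r ≤ (1 + log Z)/R` (`dvd_sum_le`, `R ≤ Z^3`), and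
`1/(x y + 1) ≤ 1/(x y)`, `∑_{x ≤ Z} 1/x ≤ 1 + log Z`. Total `(8 log Z + 1)(1 + log Z)^2/R`.
-/

namespace Pool.Agent.SCM

open Finset

private theorem del_biUnion {β : Type} [DecidableEq β] (s : Finset ℕ) (g : ℕ → Finset β)
    (f : β → ℝ) (hf : ∀ t, 0 ≤ f t) : ∑ t ∈ s.biUnion g, f t ≤ ∑ r ∈ s, ∑ t ∈ g r, f t := by
  induction s using Finset.induction_on with
  | empty => simp
  | insert a s ha ih =>
    rw [Finset.biUnion_insert, Finset.sum_insert ha]
    have h1 := Finset.sum_union_inter (s₁ := g a) (s₂ := s.biUnion g) (f := f)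
    have h2 : 0 ≤ ∑ t ∈ g a ∩ s.biUnion g, f t := Finset.sum_nonneg fun t _ => hf t
    linarith

private theorem del_card (n Z : ℕ) (hn : 1 ≤ n) (hZ : 2 ≤ Z) (hnZ : n ≤ 2 * Z ^ 5) :
    (n.primeFactors.card : ℝ) ≤ 8 * (1 + Real.log Z) := by
  have h1 : 2 ^ n.primeFactors.card ≤ n := by
    have h2 : 2 ^ n.primeFactors.card ≤ ∏ p ∈ n.primeFactors, p :=
      Finset.pow_card_le_prod _ _ _ fun p hp => (Nat.prime_of_mem_primeFactors hp).two_le
    exact h2.trans (Nat.le_of_dvd (by omega) (Nat.prod_primeFactors_dvd n))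
  have h3 : (2 : ℝ) ^ n.primeFactors.card ≤ 2 * (Z : ℝ) ^ 5 := by
    exact_mod_cast h1.trans hnZ
  have hZ0 : (0 : ℝ) < Z := by
    have : 0 < Z := by omega
    exact_mod_cast this
  have h4 := Real.log_le_log (by positivity) h3
  rw [Real.log_pow, Real.log_mul (by norm_num) (by positivity), Real.log_pow] at h4
  have h5 : (0.6931 : ℝ) < Real.log 2 := by
    have := Real.log_two_gt_d9
    linarith
  have h6 : 0 ≤ Real.log Z := by
    apply Real.log_nonneg
    have : 1 ≤ Z := by omega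
    exact_mod_cast this
  have h7 : (0 : ℝ) ≤ (n.primeFactors.card : ℝ) := Nat.cast_nonneg _
  have h8 : Real.log 2 < 0.6932 := by
    have := Real.log_two_lt_d9
    linarith
  push_cast at h4
  nlinarith

open Classical in
theorem delta_bound (X Z R : ℕ) (hX : 1 ≤ X) (hZ : 2 ≤ Z) (hR : 1 ≤ R) (hRZ : R ≤ Z)
    (t₁ : ℕ × ℕ) (ht₁ : t₁ ∈ Idx X Z R) :
    ∑ t ∈ (Idx X Z R).filter (fun t => ¬ (mo t).Coprime (mo t₁)), (1 / (mo t : ℝ)) ≤
      8 * (1 + Real.log Z) ^ 3 / R := by
  have hZ0 : (0 : ℝ) < Z := by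
    have : 0 < Z := by omega
    exact_mod_cast this
  have hR0 : (0 : ℝ) < R := by exact_mod_cast hR
  have hlZ : 0 ≤ Real.log Z := by
    apply Real.log_nonneg
    have : 1 ≤ Z := by omega
    exact_mod_cast this
  obtain ⟨ht₁a, ht₁b⟩ := Finset.mem_filter.1 ht₁
  obtain ⟨hx1, hy1⟩ := Finset.mem_product.1 ht₁a
  rw [Finset.mem_Icc] at hx1 hy1
  -- the sum for one prime
  have hone : ∀ r : ℕ, R < r →
      ∑ t ∈ (Idx X Z R).filter (fun t => r ∣ mo t), (1 / (mo t : ℝ)) ≤
        (1 + Real.log Z) * ((1 + Real.log Z) / R) := by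
    intro r hr
    have hr0 : (0 : ℝ) < r := by
      have : 0 < r := by omega
      exact_mod_cast this
    have h1 : ∑ t ∈ (Idx X Z R).filter (fun t => r ∣ mo t), (1 / (mo t : ℝ)) ≤
        ∑ x ∈ Icc X Z, ∑ y ∈ (Icc (Z ^ 3) (Z ^ 4)).filter (fun y : ℕ => r ∣ x * y + 1),
          (1 / ((x : ℝ) * y)) := by
      have h2 : ∑ x ∈ Icc X Z, ∑ y ∈ (Icc (Z ^ 3) (Z ^ 4)).filter (fun y : ℕ => r ∣ x * y + 1),
          (1 / ((x : ℝ) * y)) =
          ∑ t ∈ (Icc X Z ×ˢ Icc (Z ^ 3) (Z ^ 4)).filter (fun t : ℕ × ℕ => r ∣ mo t),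
            (1 / ((t.1 : ℝ) * t.2)) := by
        rw [Finset.sum_filter, Finset.sum_product]
        apply Finset.sum_congr rfl
        intro x _
        rw [Finset.sum_filter]
        rfl
      rw [h2]
      refine (Finset.sum_le_sum (g := fun t : ℕ × ℕ => 1 / ((t.1 : ℝ) * t.2)) ?_).trans
        (Finset.sum_le_sum_of_subset_of_nonneg ?_ ?_)
      · intro t ht
        rw [Finset.mem_filter] at ht
        have ht2 := (Finset.mem_product.1 (Finset.mem_filter.1 ht.1).1)
        rw [Finset.mem_Icc, Finset.mem_Icc] at ht2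
        have hx0 : (0 : ℝ) < t.1 := by
          have : 0 < t.1 := by omega
          exact_mod_cast this
        have hy0 : (0 : ℝ) < t.2 := by
          have : 0 < Z ^ 3 := by positivity
          have : 0 < t.2 := by omega
          exact_mod_cast this
        apply one_div_le_one_div_of_le (by positivity)
        unfold mo
        push_cast
        linarith
      · intro t ht
        rw [Finset.mem_filter] at ht ⊢
        exact ⟨(Finset.mem_filter.1 ht.1).1, ht.2⟩
      · intro t _ _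
        positivity
    refine h1.trans ?_
    have h3 : ∀ x ∈ Icc X Z,
        ∑ y ∈ (Icc (Z ^ 3) (Z ^ 4)).filter (fun y : ℕ => r ∣ x * y + 1), (1 / ((x : ℝ) * y)) ≤
          (1 / (x : ℝ)) * ((1 + Real.log Z) / R) := by
      intro x hx
      rw [Finset.mem_Icc] at hx
      have hx0 : (0 : ℝ) < x := by
        have : 0 < x := by omega
        exact_mod_cast this
      have h4 := dvd_sum_le (Z ^ 3) (Z ^ 4) r x (Nat.one_le_pow _ _ (by omega))
        (Nat.pow_le_pow_right (by omega) (by norm_num)) (by omega)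
      have h5 : ∑ y ∈ (Icc (Z ^ 3) (Z ^ 4)).filter (fun y : ℕ => r ∣ x * y + 1),
          (1 / ((x : ℝ) * y)) = (1 / (x : ℝ)) *
          ∑ y ∈ (Icc (Z ^ 3) (Z ^ 4)).filter (fun y : ℕ => r ∣ x * y + 1), (1 / (y : ℝ)) := by
        rw [Finset.mul_sum]
        apply Finset.sum_congr rfl
        intro y _
        rw [one_div_mul_one_div]
      rw [h5]
      apply mul_le_mul_of_nonneg_left _ (by positivity)
      refine h4.trans ?_
      have h6 : Real.log ((Z ^ 4 : ℕ) : ℝ) - Real.log ((Z ^ 3 : ℕ) : ℝ) = Real.log Z := by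
        push_cast
        rw [Real.log_pow, Real.log_pow]
        push_cast
        ring
      rw [h6, add_div]
      apply add_le_add
      · apply one_div_le_one_div_of_le hR0
        have : R ≤ Z ^ 3 := hRZ.trans (Nat.le_self_pow (by norm_num) Z)
        exact_mod_cast this
      · apply div_le_div_of_nonneg_left hlZ hR0
        exact_mod_cast hr.le
    refine (Finset.sum_le_sum h3).trans ?_
    rw [← Finset.sum_mul]
    apply mul_le_mul_of_nonneg_right _ (by positivity)
    have h7 : ∑ x ∈ Icc X Z, (1 / (x : ℝ)) ≤ ∑ x ∈ Icc 1 Z, (1 / (x : ℝ)) := by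
      apply Finset.sum_le_sum_of_subset_of_nonneg
      · exact Finset.Icc_subset_Icc_left hX
      · intro x _ _
        positivity
    refine h7.trans ?_
    have h8 := harmonic_le_one_add_log Z
    rw [harmonic_eq_sum_Icc] at h8
    push_cast at h8
    simpa only [one_div] using h8
  -- all primes
  have hsub : (Idx X Z R).filter (fun t => ¬ (mo t).Coprime (mo t₁)) ⊆
      (mo t₁).primeFactors.biUnion (fun r => (Idx X Z R).filter (fun t => r ∣ mo t)) := by
    intro t ht
    rw [Finset.mem_filter] at ht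
    obtain ⟨r, hr, h1, h2⟩ := Nat.Prime.not_coprime_iff_dvd.1 ht.2
    rw [Finset.mem_biUnion]
    refine ⟨r, Nat.mem_primeFactors.2 ⟨hr, h2, by unfold mo; omega⟩, ?_⟩
    rw [Finset.mem_filter]
    exact ⟨ht.1, h1⟩
  have hnn : ∀ t : ℕ × ℕ, (0 : ℝ) ≤ 1 / (mo t : ℝ) := fun t => by positivity
  calc ∑ t ∈ (Idx X Z R).filter (fun t => ¬ (mo t).Coprime (mo t₁)), (1 / (mo t : ℝ))
      ≤ ∑ t ∈ (mo t₁).primeFactors.biUnion (fun r => (Idx X Z R).filter (fun t => r ∣ mo t)),
          (1 / (mo t : ℝ)) :=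
        Finset.sum_le_sum_of_subset_of_nonneg hsub fun t _ _ => hnn t
    _ ≤ ∑ r ∈ (mo t₁).primeFactors, ∑ t ∈ (Idx X Z R).filter (fun t => r ∣ mo t),
          (1 / (mo t : ℝ)) := del_biUnion _ _ _ hnn
    _ ≤ ∑ r ∈ (mo t₁).primeFactors, (1 + Real.log Z) * ((1 + Real.log Z) / R) := by
        apply Finset.sum_le_sum
        intro r hr
        apply hone
        obtain ⟨h1, h2, -⟩ := Nat.mem_primeFactors.1 hr
        exact ht₁b r h1 h2
    _ = ((mo t₁).primeFactors.card : ℝ) * ((1 + Real.log Z) * ((1 + Real.log Z) / R)) := by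
        rw [Finset.sum_const, nsmul_eq_mul]
    _ ≤ (8 * (1 + Real.log Z)) * ((1 + Real.log Z) * ((1 + Real.log Z) / R)) := by
        apply mul_le_mul_of_nonneg_right _ (by positivity)
        apply del_card _ Z (by unfold mo; omega) hZ
        unfold mo
        have h9 : t₁.1 * t₁.2 ≤ Z * Z ^ 4 := Nat.mul_le_mul hx1.2 hy1.2
        have h10 : Z * Z ^ 4 = Z ^ 5 := by ring
        have h11 : 1 ≤ Z ^ 5 := Nat.one_le_pow _ _ (by omega)
        omega
    _ = 8 * (1 + Real.log Z) ^ 3 / R := by ring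

end Pool.Agent.SCM
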