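import Mathlib
import Pool.Agent.SCM.APS

set_option autoImplicit false

/-!
# Module TDV
Average of the divisor function of `x y + 1`.

Proof. Every divisor `g` of `n = x y + 1` or its codivisor is `≤ √n`, so
`d(n) ≤ 2 #{g ∣ n : g^2 ≤ n}`; for `x ≤ Z`, `y ≤ Z^4`: `g^2 ≤ 2 Z^5 ≤ Z^6`, `g ≤ Z^3`. So the sum is
`≤ 2 ∑_{g ≤ Z^3} ∑_{y : g ∣ x y + 1} 1/y ≤ 2 ∑_{g ≤ Z^3} (1/Z^3 + log Z/g)
≤ 2 (1 + log Z (1 + 3 log Z)) ≤ 6 (1 + log Z)^2`.
-/

namespace Pool.Agent.SCM

open Finset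

namespace TDV_

private lemma card_div_le (n : ℕ) (hn : n ≠ 0) :
    n.divisors.card ≤ 2 * (n.divisors.filter (fun g => g ^ 2 ≤ n)).card := by
  have h := Finset.card_filter_add_card_filter_not (s := n.divisors) (fun g => g ^ 2 ≤ n)
  have h2 : (n.divisors.filter (fun g => ¬ g ^ 2 ≤ n)).card ≤
      (n.divisors.filter (fun g => g ^ 2 ≤ n)).card := by
    apply Finset.card_le_card_of_injOn (fun g => n / g)
    · intro g hg
      simp only [Finset.coe_filter, Nat.mem_divisors] at hg ⊢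
      obtain ⟨⟨hgn, _⟩, hg2⟩ := hg
      refine ⟨⟨Nat.div_dvd_of_dvd hgn, hn⟩, ?_⟩
      obtain ⟨e, rfl⟩ := hgn
      have hg0 : 0 < g := Nat.pos_of_ne_zero (fun h => hn (by simp [h]))
      rw [Nat.mul_div_cancel_left _ hg0]
      push Not at hg2
      have : e < g := by
        by_contra hcon
        push Not at hcon
        have : g ^ 2 ≤ g * e := by
          rw [pow_two]
          exact Nat.mul_le_mul_left _ hcon
        omega
      calc e ^ 2 = e * e := pow_two e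
        _ ≤ g * e := Nat.mul_le_mul_right _ this.le
    · intro a ha b hb hab
      simp only [Finset.coe_filter, Nat.mem_divisors] at ha hb
      obtain ⟨⟨⟨e, he⟩, _⟩, _⟩ := ha
      obtain ⟨⟨⟨f, hf⟩, _⟩, _⟩ := hb
      have ha0 : 0 < a := Nat.pos_of_ne_zero (fun h => hn (by simp [he, h]))
      have hb0 : 0 < b := Nat.pos_of_ne_zero (fun h => hn (by simp [hf, h]))
      have he0 : 0 < e := Nat.pos_of_ne_zero (fun h => hn (by simp [he, h]))
      simp only at hab
      have h1 : n / a = e := by rw [he, Nat.mul_div_cancel_left _ ha0]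
      have h2 : n / b = f := by rw [hf, Nat.mul_div_cancel_left _ hb0]
      rw [h1, h2] at hab
      subst hab
      have : a * e = b * e := by rw [← he, ← hf]
      exact Nat.eq_of_mul_eq_mul_right he0 this
  omega

private lemma log_step (n : ℕ) (hn : 1 ≤ n) :
    1 / ((n : ℝ) + 1) ≤ Real.log ((n : ℝ) + 1) - Real.log n := by
  have hn0 : (0 : ℝ) < n := by exact_mod_cast hn
  have h := Real.log_le_sub_one_of_pos (x := (n : ℝ) / (n + 1)) (by positivity)
  rw [Real.log_div (by positivity) (by positivity)] at h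
  have : (n : ℝ) / (n + 1) - 1 = - (1 / ((n : ℝ) + 1)) := by
    field_simp
    ring
  linarith

private lemma harm_upper (M : ℕ) (hM : 1 ≤ M) :
    ∑ g ∈ Icc 1 M, 1 / (g : ℝ) ≤ 1 + Real.log M := by
  induction M, hM using Nat.le_induction with
  | base => simp
  | succ n hn ih =>
    rw [Finset.sum_Icc_succ_top (by omega)]
    have h := log_step n hn
    push_cast
    linarith

end TDV_

theorem divisor_avg (x Z : ℕ) (hx : 1 ≤ x) (hxZ : x ≤ Z) (hZ : 2 ≤ Z) :
    ∑ y ∈ Icc (Z ^ 3) (Z ^ 4), (1 / (y : ℝ)) * ((x * y + 1).divisors.card : ℝ) ≤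
      6 * (1 + Real.log Z) ^ 2 := by
  classical
  have hZ0 : (0 : ℝ) < Z := by
    have : 0 < Z := by omega
    exact_mod_cast this
  have hZ3 : 1 ≤ Z ^ 3 := Nat.one_le_pow _ _ (by omega)
  have hL : 0 ≤ Real.log Z := Real.log_nonneg (by
    have : 1 ≤ Z := by omega
    exact_mod_cast this)
  have hle34 : Z ^ 3 ≤ Z ^ 4 := Nat.pow_le_pow_right (by omega) (by omega)
  -- pointwise
  have hpt : ∀ y ∈ Icc (Z ^ 3) (Z ^ 4), (1 / (y : ℝ)) * ((x * y + 1).divisors.card : ℝ) ≤
      2 * ∑ g ∈ Icc 1 (Z ^ 3), if g ∣ x * y + 1 then 1 / (y : ℝ) else 0 := by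
    intro y hy
    rw [Finset.mem_Icc] at hy
    have h1 := TDV_.card_div_le (x * y + 1) (by omega)
    have h2 : ((x * y + 1).divisors.filter (fun g => g ^ 2 ≤ x * y + 1)) ⊆
        (Icc 1 (Z ^ 3)).filter (fun g => g ∣ x * y + 1) := by
      intro g hg
      rw [Finset.mem_filter, Nat.mem_divisors] at hg
      rw [Finset.mem_filter, Finset.mem_Icc]
      refine ⟨⟨Nat.pos_of_dvd_of_pos hg.1.1 (by omega), ?_⟩, hg.1.1⟩
      have h3 : x * y + 1 ≤ Z ^ 6 := by
        have h4 : x * y ≤ Z * Z ^ 4 := Nat.mul_le_mul hxZ hy.2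
        have h5 : Z * Z ^ 4 + 1 ≤ 2 * Z ^ 5 := by
          have : 1 ≤ Z ^ 5 := Nat.one_le_pow _ _ (by omega)
          have h6 : Z * Z ^ 4 = Z ^ 5 := by ring
          omega
        have h6 : 2 * Z ^ 5 ≤ Z * Z ^ 5 := Nat.mul_le_mul_right _ hZ
        have h7 : Z * Z ^ 5 = Z ^ 6 := by ring
        omega
      have h4 : g ^ 2 ≤ (Z ^ 3) ^ 2 := by
        calc g ^ 2 ≤ x * y + 1 := hg.2
          _ ≤ Z ^ 6 := h3
          _ = (Z ^ 3) ^ 2 := by ring
      exact (Nat.pow_le_pow_iff_left (by norm_num)).mp h4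
    have h3 := Finset.card_le_card h2
    have h4 : ((x * y + 1).divisors.card : ℝ) ≤
        2 * (((Icc 1 (Z ^ 3)).filter (fun g => g ∣ x * y + 1)).card : ℝ) := by
      have : (x * y + 1).divisors.card ≤
        2 * ((Icc 1 (Z ^ 3)).filter (fun g => g ∣ x * y + 1)).card := by omega
      exact_mod_cast this
    have h5 : ∑ g ∈ Icc 1 (Z ^ 3), (if g ∣ x * y + 1 then 1 / (y : ℝ) else 0) =
        (((Icc 1 (Z ^ 3)).filter (fun g => g ∣ x * y + 1)).card : ℝ) * (1 / (y : ℝ)) := by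
      rw [← Finset.sum_filter, Finset.sum_const, nsmul_eq_mul]
    rw [h5]
    have h6 : (0 : ℝ) ≤ 1 / (y : ℝ) := by positivity
    nlinarith [mul_le_mul_of_nonneg_left h4 h6]
  calc ∑ y ∈ Icc (Z ^ 3) (Z ^ 4), (1 / (y : ℝ)) * ((x * y + 1).divisors.card : ℝ)
      ≤ ∑ y ∈ Icc (Z ^ 3) (Z ^ 4),
          2 * ∑ g ∈ Icc 1 (Z ^ 3), (if g ∣ x * y + 1 then 1 / (y : ℝ) else 0) :=
        Finset.sum_le_sum hpt
    _ = 2 * ∑ g ∈ Icc 1 (Z ^ 3), ∑ y ∈ (Icc (Z ^ 3) (Z ^ 4)).filter
          (fun y : ℕ => g ∣ x * y + 1), (1 / (y : ℝ)) := by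
        rw [← Finset.mul_sum, Finset.sum_comm]
        congr 1
        refine Finset.sum_congr rfl (fun g _ => ?_)
        rw [Finset.sum_filter]
    _ ≤ 2 * ∑ g ∈ Icc 1 (Z ^ 3), (1 / (Z : ℝ) ^ 3 + Real.log Z * (1 / (g : ℝ))) := by
        apply mul_le_mul_of_nonneg_left _ (by norm_num)
        apply Finset.sum_le_sum
        intro g hg
        rw [Finset.mem_Icc] at hg
        have h := dvd_sum_le (Z ^ 3) (Z ^ 4) g x hZ3 hle34 hg.1
        have h2 : (Real.log ((Z ^ 4 : ℕ) : ℝ) - Real.log ((Z ^ 3 : ℕ) : ℝ)) / (g : ℝ) =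
            Real.log Z * (1 / (g : ℝ)) := by
          push_cast
          rw [Real.log_pow, Real.log_pow]
          push_cast
          ring
        rw [h2] at h
        push_cast at h
        convert h using 2
    _ = 2 * (1 + Real.log Z * ∑ g ∈ Icc 1 (Z ^ 3), (1 / (g : ℝ))) := by
        rw [Finset.sum_add_distrib, Finset.sum_const, ← Finset.mul_sum, Nat.card_Icc]
        congr 2
        rw [nsmul_eq_mul]
        push_cast [Nat.add_sub_cancel]
        field_simp
    _ ≤ 2 * (1 + Real.log Z * (1 + 3 * Real.log Z)) := by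
        have h := TDV_.harm_upper (Z ^ 3) hZ3
        have h2 : Real.log ((Z ^ 3 : ℕ) : ℝ) = 3 * Real.log Z := by
          push_cast
          rw [Real.log_pow]
          push_cast
          ring
        rw [h2] at h
        have := mul_le_mul_of_nonneg_left h hL
        linarith
    _ ≤ 6 * (1 + Real.log Z) ^ 2 := by nlinarith

end Pool.Agent.SCM
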