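import Mathlib
import Pool.Agent.SCM.Defs
import Pool.Agent.SCM.TDV

set_option autoImplicit false

/-!
# Module T2A
Pairs of different events with the same `x` whose moduli have a common factor.

Let `t = (x, y)`, `t' = (x, y')`, `y ≠ y'`, `g = gcd (x y + 1) (x y' + 1) > 1`. Then `gcd (g, x) = 1` and
`g ∣ y - y'`. By symmetry count `y < y'` twice: `y' = y + g s`, `s ≥ 1`, `s ≤ Z^4`, and
`g/y' ≤ g/(g s) = 1/s`. With `1/mo t ≤ 1/(x y)`:
the sum is at most `2 ∑_x (1/x^2) ∑_y (1/y) ∑_{g ∣ x y + 1} ∑_{s ≤ Z^4} 1/s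
≤ 2 (1 + 4 log Z) ∑_x (1/x^2) ∑_y (1/y) d(x y + 1)` and `divisor_avg`, `∑_{x ≥ X} 1/x^2 ≤ 2/X` give
`≤ 2 * 4 (1 + log Z) * (2/X) * 6 (1 + log Z)^2 = 96 (1 + log Z)^3/X`.
-/

namespace Pool.Agent.SCM

open Finset

namespace T2A_

open Classical in
/-- the contribution of the pair `y < y'` -/
noncomputable def G (x y y' : ℕ) : ℝ :=
  if y < y' ∧ 1 < (x * y + 1).gcd (x * y' + 1) then
    (((x * y + 1).gcd (x * y' + 1) : ℕ) : ℝ) *
      ((1 / ((x * y + 1 : ℕ) : ℝ)) * (1 / ((x * y' + 1 : ℕ) : ℝ))) else 0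

lemma G_nonneg (x y y' : ℕ) : 0 ≤ G x y y' := by
  unfold G
  split_ifs
  · positivity
  · exact le_refl _

lemma gcd_dvd_sub (x y y' : ℕ) (h : y < y') :
    (x * y + 1).gcd (x * y' + 1) ∣ y' - y := by
  set g := (x * y + 1).gcd (x * y' + 1) with hg
  have h1 : g ∣ x * y + 1 := Nat.gcd_dvd_left _ _
  have h2 : g ∣ x * y' + 1 := Nat.gcd_dvd_right _ _
  have h3 : g ∣ (x * y' + 1) - (x * y + 1) := Nat.dvd_sub h2 h1
  have h4 : (x * y' + 1) - (x * y + 1) = x * (y' - y) := by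
    rw [Nat.add_sub_add_right, Nat.mul_sub]
  rw [h4] at h3
  have hc : Nat.Coprime g x := by
    have h5 : Nat.gcd g x ∣ 1 := by
      have h6 : Nat.gcd g x ∣ x * y + 1 := (Nat.gcd_dvd_left g x).trans h1
      have h7 : Nat.gcd g x ∣ x * y := (Nat.gcd_dvd_right g x).mul_right y
      exact (Nat.dvd_add_right h7).mp h6
    exact Nat.dvd_one.mp h5
  exact hc.dvd_of_dvd_mul_left h3

lemma sum_inv (n : ℕ) : ∑ s ∈ Icc 1 n, (1 / (s : ℝ)) ≤ 1 + Real.log n := by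
  have h := harmonic_le_one_add_log n
  rw [harmonic_eq_sum_Icc] at h
  push_cast at h
  simpa [one_div] using h

open Classical in
lemma key (x y Z : ℕ) (hx : 1 ≤ x) (hZ : 2 ≤ Z) (hy : y ∈ Icc (Z ^ 3) (Z ^ 4)) :
    ∑ y' ∈ Icc (Z ^ 3) (Z ^ 4), G x y y' ≤
      (1 / (x : ℝ) ^ 2) * ((1 / (y : ℝ)) * ((x * y + 1).divisors.card : ℝ)) *
        (1 + 4 * Real.log Z) := by
  rw [Finset.mem_Icc] at hy
  have hZ3 : 0 < Z ^ 3 := by positivity
  have hypos : 0 < y := by omega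
  set A : Finset ℕ := (Icc (Z ^ 3) (Z ^ 4)).filter
    (fun y' => y < y' ∧ 1 < (x * y + 1).gcd (x * y' + 1)) with hA
  set e : ℕ → ℕ × ℕ := fun y' => ((x * y + 1).gcd (x * y' + 1),
    (y' - y) / (x * y + 1).gcd (x * y' + 1)) with he
  set C : ℝ := (1 / (x : ℝ) ^ 2) * (1 / (y : ℝ)) with hC
  have hC0 : 0 ≤ C := by positivity
  have h1 : ∑ y' ∈ Icc (Z ^ 3) (Z ^ 4), G x y y' =
      ∑ y' ∈ A, (((x * y + 1).gcd (x * y' + 1) : ℕ) : ℝ) *
      ((1 / ((x * y + 1 : ℕ) : ℝ)) * (1 / ((x * y' + 1 : ℕ) : ℝ))) := by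
    rw [hA, Finset.sum_filter]
    apply Finset.sum_congr rfl
    intro y' _
    unfold G
    rfl
  have hfact : ∀ y' ∈ A, y < y' ∧ y' ≤ Z ^ 4 ∧ 1 < (x * y + 1).gcd (x * y' + 1) := by
    intro y' hy'
    rw [hA, Finset.mem_filter, Finset.mem_Icc] at hy'
    exact ⟨hy'.2.1, hy'.1.2, hy'.2.2⟩
  have hmem : ∀ y' ∈ A, e y' ∈ (x * y + 1).divisors ×ˢ Icc 1 (Z ^ 4) := by
    intro y' hy'
    obtain ⟨h2, h3, h4⟩ := hfact y' hy'
    have hd := gcd_dvd_sub x y y' h2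
    rw [he, Finset.mem_product, Nat.mem_divisors, Finset.mem_Icc]
    refine ⟨⟨Nat.gcd_dvd_left _ _, by omega⟩, ?_, ?_⟩
    · exact Nat.div_pos (Nat.le_of_dvd (by omega) hd) (by omega)
    · calc (y' - y) / (x * y + 1).gcd (x * y' + 1) ≤ y' - y := Nat.div_le_self _ _
        _ ≤ Z ^ 4 := by omega
  have hinj : Set.InjOn e A := by
    intro a ha b hb hab
    obtain ⟨ha2, ha3, ha4⟩ := hfact a ha
    obtain ⟨hb2, hb3, hb4⟩ := hfact b hb
    simp only [he, Prod.mk.injEq] at hab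
    have h5 := Nat.mul_div_cancel' (gcd_dvd_sub x y a ha2)
    have h6 := Nat.mul_div_cancel' (gcd_dvd_sub x y b hb2)
    rw [hab.2, hab.1] at h5
    omega
  have hterm : ∀ y' ∈ A, (((x * y + 1).gcd (x * y' + 1) : ℕ) : ℝ) *
      ((1 / ((x * y + 1 : ℕ) : ℝ)) * (1 / ((x * y' + 1 : ℕ) : ℝ))) ≤ C * (1 / ((e y').2 : ℝ)) := by
    intro y' hy'
    obtain ⟨h2, h3, h4⟩ := hfact y' hy'
    have hd := gcd_dvd_sub x y y' h2
    have hy'pos : (0 : ℝ) < y' := by exact_mod_cast (by omega : 0 < y')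
    have hyp : (0 : ℝ) < y := by exact_mod_cast hypos
    have hxp : (0 : ℝ) < x := by exact_mod_cast (by omega : 0 < x)
    set g := (x * y + 1).gcd (x * y' + 1) with hg
    have hgp : (0 : ℝ) < g := by exact_mod_cast (by omega : 0 < g)
    have hs1 : 0 < (y' - y) / g := Nat.div_pos (Nat.le_of_dvd (by omega) hd) (by omega)
    have hsp : (0 : ℝ) < (((y' - y) / g : ℕ) : ℝ) := by exact_mod_cast hs1
    have h7 : g * ((y' - y) / g) = y' - y := Nat.mul_div_cancel' hd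
    have h8 : (g : ℝ) * (((y' - y) / g : ℕ) : ℝ) ≤ y' := by
      rw [← Nat.cast_mul, h7]
      exact_mod_cast Nat.sub_le _ _
    have h9 : (g : ℝ) * (1 / (y' : ℝ)) ≤ 1 / (((y' - y) / g : ℕ) : ℝ) := by
      rw [mul_one_div, div_le_div_iff₀ hy'pos hsp]
      linarith
    have ha : 1 / ((x * y + 1 : ℕ) : ℝ) ≤ 1 / ((x : ℝ) * y) := by
      apply one_div_le_one_div_of_le (by positivity)
      push_cast
      linarith
    have hb : 1 / ((x * y' + 1 : ℕ) : ℝ) ≤ 1 / ((x : ℝ) * y') := by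
      apply one_div_le_one_div_of_le (by positivity)
      push_cast
      linarith
    calc (g : ℝ) * ((1 / ((x * y + 1 : ℕ) : ℝ)) * (1 / ((x * y' + 1 : ℕ) : ℝ)))
        ≤ (g : ℝ) * ((1 / ((x : ℝ) * y)) * (1 / ((x : ℝ) * y'))) := by
          apply mul_le_mul_of_nonneg_left _ hgp.le
          exact mul_le_mul ha hb (by positivity) (by positivity)
      _ = C * ((g : ℝ) * (1 / (y' : ℝ))) := by
          rw [hC]
          field_simp
      _ ≤ C * (1 / (((y' - y) / g : ℕ) : ℝ)) := mul_le_mul_of_nonneg_left h9 hC0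
  have hlogZ : Real.log ((Z ^ 4 : ℕ) : ℝ) = 4 * Real.log Z := by
    push_cast
    rw [Real.log_pow]
    norm_num
  calc ∑ y' ∈ Icc (Z ^ 3) (Z ^ 4), G x y y' = _ := h1
    _ ≤ ∑ y' ∈ A, C * (1 / ((e y').2 : ℝ)) := Finset.sum_le_sum hterm
    _ = ∑ z ∈ A.image e, C * (1 / (z.2 : ℝ)) := by rw [Finset.sum_image hinj]
    _ ≤ ∑ z ∈ (x * y + 1).divisors ×ˢ Icc 1 (Z ^ 4), C * (1 / (z.2 : ℝ)) := by
        apply Finset.sum_le_sum_of_subset_of_nonneg
        · intro z hz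
          rw [Finset.mem_image] at hz
          obtain ⟨y', hy', rfl⟩ := hz
          exact hmem y' hy'
        · intro z _ _
          positivity
    _ = ((x * y + 1).divisors.card : ℝ) * (C * ∑ s ∈ Icc 1 (Z ^ 4), (1 / (s : ℝ))) := by
        rw [Finset.sum_product]
        show ∑ g ∈ (x * y + 1).divisors, ∑ s ∈ Icc 1 (Z ^ 4), C * (1 / (s : ℝ)) = _
        rw [Finset.sum_const, nsmul_eq_mul, ← Finset.mul_sum]
    _ ≤ ((x * y + 1).divisors.card : ℝ) * (C * (1 + 4 * Real.log Z)) := by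
        apply mul_le_mul_of_nonneg_left _ (by positivity)
        apply mul_le_mul_of_nonneg_left _ hC0
        rw [← hlogZ]
        exact sum_inv (Z ^ 4)
    _ = _ := by rw [hC]; ring

lemma sum_inv_sq (X Z : ℕ) (hX : 1 ≤ X) :
    ∑ x ∈ Icc X Z, (1 / (x : ℝ) ^ 2) ≤ 2 / (X : ℝ) := by
  have hXp : (0 : ℝ) < X := by exact_mod_cast hX
  -- telescoping: ∑_{x = X}^{n} 1/x^2 ≤ 2/X - 1/n
  have h : ∀ k : ℕ, ∑ x ∈ Icc X (X + k), (1 / (x : ℝ) ^ 2) ≤ 2 / (X : ℝ) - 1 / ((X + k : ℕ) : ℝ) := by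
    intro k
    induction k with
    | zero =>
      simp only [add_zero, Finset.Icc_self, Finset.sum_singleton]
      have h1 : (1 : ℝ) ≤ X := by exact_mod_cast hX
      have h2 : 1 / (X : ℝ) ^ 2 ≤ 1 / X := by
        apply one_div_le_one_div_of_le hXp
        nlinarith
      have h3 : (2 : ℝ) / X - 1 / X = 1 / X := by ring
      rw [h3]
      exact h2
    | succ k ih =>
      rw [← Nat.add_assoc, ← Finset.insert_Icc_right_eq_Icc_add_one (by omega : X ≤ X + k + 1),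
        Finset.sum_insert (by simp)]
      have hp : (0 : ℝ) < ((X + k : ℕ) : ℝ) := by exact_mod_cast (by omega : 0 < X + k)
      have h4 : 1 / ((X + k + 1 : ℕ) : ℝ) ^ 2 ≤
          1 / ((X + k : ℕ) : ℝ) - 1 / ((X + k + 1 : ℕ) : ℝ) := by
        rw [div_sub_div _ _ hp.ne' (by positivity), div_le_div_iff₀ (by positivity) (by positivity)]
        push_cast
        nlinarith
      linarith
  by_cases hXZ : X ≤ Z
  · obtain ⟨k, rfl⟩ := Nat.exists_eq_add_of_le hXZ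
    have h5 := h k
    have h6 : 0 ≤ 1 / ((X + k : ℕ) : ℝ) := by positivity
    linarith
  · rw [Finset.Icc_eq_empty hXZ, Finset.sum_empty]
    positivity

end T2A_

open Classical in
theorem t2a_bound (X Z R : ℕ) (hX : 1 ≤ X) (hZ : 2 ≤ Z) :
    ∑ t ∈ Idx X Z R, ∑ t' ∈ (Idx X Z R).filter (fun t' => t.1 = t'.1 ∧ t ≠ t' ∧
        1 < (mo t).gcd (mo t')),
      (((mo t).gcd (mo t') : ℕ) : ℝ) * ((1 / (mo t : ℝ)) * (1 / (mo t' : ℝ))) ≤
      96 * (1 + Real.log Z) ^ 3 / X := by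
  have hXp : (0 : ℝ) < X := by exact_mod_cast hX
  have hL : 0 ≤ Real.log Z := Real.log_natCast_nonneg Z
  set I : Finset ℕ := Icc (Z ^ 3) (Z ^ 4) with hI
  have hIdx : ∀ t ∈ Idx X Z R, t.1 ∈ Icc X Z ∧ t.2 ∈ I := by
    intro t ht
    unfold Idx at ht
    rw [Finset.mem_filter, Finset.mem_product] at ht
    exact ht.1
  -- the inner sum
  have hinner : ∀ t ∈ Idx X Z R, ∑ t' ∈ (Idx X Z R).filter (fun t' => t.1 = t'.1 ∧ t ≠ t' ∧
        1 < (mo t).gcd (mo t')),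
      (((mo t).gcd (mo t') : ℕ) : ℝ) * ((1 / (mo t : ℝ)) * (1 / (mo t' : ℝ))) ≤
      ∑ y' ∈ I, (T2A_.G t.1 t.2 y' + T2A_.G t.1 y' t.2) := by
    intro t ht
    set A := (Idx X Z R).filter (fun t' => t.1 = t'.1 ∧ t ≠ t' ∧ 1 < (mo t).gcd (mo t')) with hA
    have hinj : Set.InjOn (fun t' : ℕ × ℕ => t'.2) A := by
      intro a ha b hb hab
      rw [hA, Finset.mem_coe, Finset.mem_filter] at ha hb
      exact Prod.ext (ha.2.1.symm.trans hb.2.1) hab
    calc ∑ t' ∈ A, (((mo t).gcd (mo t') : ℕ) : ℝ) * ((1 / (mo t : ℝ)) * (1 / (mo t' : ℝ)))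
        ≤ ∑ t' ∈ A, (T2A_.G t.1 t.2 t'.2 + T2A_.G t.1 t'.2 t.2) := by
          apply Finset.sum_le_sum
          intro t' ht'
          rw [hA, Finset.mem_filter] at ht'
          obtain ⟨_, h1, h2, h3⟩ := ht'
          have hmo : mo t' = t.1 * t'.2 + 1 := by unfold mo; rw [h1]
          have hmo0 : mo t = t.1 * t.2 + 1 := rfl
          rcases lt_trichotomy t.2 t'.2 with h | h | h
          · have : T2A_.G t.1 t.2 t'.2 = (((mo t).gcd (mo t') : ℕ) : ℝ) *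
                ((1 / (mo t : ℝ)) * (1 / (mo t' : ℝ))) := by
              unfold T2A_.G
              rw [hmo, hmo0] at h3 ⊢
              rw [if_pos ⟨h, h3⟩]
            rw [← this]
            linarith [T2A_.G_nonneg t.1 t'.2 t.2]
          · exact absurd (Prod.ext h1 h) h2
          · have : T2A_.G t.1 t'.2 t.2 = (((mo t).gcd (mo t') : ℕ) : ℝ) *
                ((1 / (mo t : ℝ)) * (1 / (mo t' : ℝ))) := by
              unfold T2A_.G
              rw [hmo, hmo0] at h3 ⊢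
              rw [Nat.gcd_comm] at h3
              rw [if_pos ⟨h, h3⟩, Nat.gcd_comm, mul_comm (1 / ((t.1 * t.2 + 1 : ℕ) : ℝ))]
            rw [← this]
            linarith [T2A_.G_nonneg t.1 t.2 t'.2]
      _ = ∑ y' ∈ A.image (fun t' : ℕ × ℕ => t'.2), (T2A_.G t.1 t.2 y' + T2A_.G t.1 y' t.2) := by
          rw [Finset.sum_image hinj]
      _ ≤ ∑ y' ∈ I, (T2A_.G t.1 t.2 y' + T2A_.G t.1 y' t.2) := by
          apply Finset.sum_le_sum_of_subset_of_nonneg
          · intro y' hy'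
            rw [Finset.mem_image] at hy'
            obtain ⟨t', ht', rfl⟩ := hy'
            rw [hA, Finset.mem_filter] at ht'
            exact (hIdx t' ht'.1).2
          · intro y' _ _
            exact add_nonneg (T2A_.G_nonneg _ _ _) (T2A_.G_nonneg _ _ _)
  calc ∑ t ∈ Idx X Z R, ∑ t' ∈ (Idx X Z R).filter (fun t' => t.1 = t'.1 ∧ t ≠ t' ∧
        1 < (mo t).gcd (mo t')),
      (((mo t).gcd (mo t') : ℕ) : ℝ) * ((1 / (mo t : ℝ)) * (1 / (mo t' : ℝ)))
      ≤ ∑ t ∈ Idx X Z R, ∑ y' ∈ I, (T2A_.G t.1 t.2 y' + T2A_.G t.1 y' t.2) :=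
        Finset.sum_le_sum hinner
    _ ≤ ∑ t ∈ (Icc X Z) ×ˢ I, ∑ y' ∈ I, (T2A_.G t.1 t.2 y' + T2A_.G t.1 y' t.2) := by
        apply Finset.sum_le_sum_of_subset_of_nonneg
        · intro t ht
          rw [Finset.mem_product]
          exact hIdx t ht
        · intro t _ _
          apply Finset.sum_nonneg
          intro y' _
          exact add_nonneg (T2A_.G_nonneg _ _ _) (T2A_.G_nonneg _ _ _)
    _ = ∑ x ∈ Icc X Z, 2 * ∑ y ∈ I, ∑ y' ∈ I, T2A_.G x y y' := by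
        rw [Finset.sum_product]
        apply Finset.sum_congr rfl
        intro x _
        show ∑ y ∈ I, ∑ y' ∈ I, (T2A_.G x y y' + T2A_.G x y' y) = _
        simp only [Finset.sum_add_distrib]
        rw [Finset.sum_comm (f := fun y y' => T2A_.G x y' y)]
        ring
    _ ≤ ∑ x ∈ Icc X Z, (1 / (x : ℝ) ^ 2) * (2 * (6 * (1 + Real.log Z) ^ 2) * (1 + 4 * Real.log Z)) := by
        apply Finset.sum_le_sum
        intro x hx
        rw [Finset.mem_Icc] at hx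
        have hx1 : 1 ≤ x := by omega
        have h1 : ∑ y ∈ I, ∑ y' ∈ I, T2A_.G x y y' ≤
            ∑ y ∈ I, (1 / (x : ℝ) ^ 2) * ((1 / (y : ℝ)) * ((x * y + 1).divisors.card : ℝ)) *
              (1 + 4 * Real.log Z) :=
          Finset.sum_le_sum (fun y hy => T2A_.key x y Z hx1 hZ hy)
        rw [← Finset.sum_mul, ← Finset.mul_sum] at h1
        have h2 := divisor_avg x Z hx1 hx.2 hZ
        have h3 : (1 / (x : ℝ) ^ 2) * (∑ y ∈ I, (1 / (y : ℝ)) * ((x * y + 1).divisors.card : ℝ)) *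
              (1 + 4 * Real.log Z) ≤
            (1 / (x : ℝ) ^ 2) * (6 * (1 + Real.log Z) ^ 2) * (1 + 4 * Real.log Z) := by
          apply mul_le_mul_of_nonneg_right _ (by linarith)
          exact mul_le_mul_of_nonneg_left h2 (by positivity)
        calc 2 * ∑ y ∈ I, ∑ y' ∈ I, T2A_.G x y y'
            ≤ 2 * ((1 / (x : ℝ) ^ 2) * (6 * (1 + Real.log Z) ^ 2) * (1 + 4 * Real.log Z)) := by
              linarith
          _ = _ := by ring
    _ = (∑ x ∈ Icc X Z, (1 / (x : ℝ) ^ 2)) *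
          (2 * (6 * (1 + Real.log Z) ^ 2) * (1 + 4 * Real.log Z)) := by
        rw [Finset.sum_mul]
    _ ≤ (2 / X) * (2 * (6 * (1 + Real.log Z) ^ 2) * (1 + 4 * Real.log Z)) := by
        apply mul_le_mul_of_nonneg_right (T2A_.sum_inv_sq X Z hX)
        positivity
    _ ≤ (2 / X) * (2 * (6 * (1 + Real.log Z) ^ 2) * (4 * (1 + Real.log Z))) := by
        apply mul_le_mul_of_nonneg_left _ (by positivity)
        apply mul_le_mul_of_nonneg_left _ (by positivity)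
        linarith
    _ = 96 * (1 + Real.log Z) ^ 3 / X := by ring

end Pool.Agent.SCM
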