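import Mathlib
import Pool.Agent.SCM.Defs

set_option autoImplicit false

/-!
# Module TDI
Reciprocals of the divisors without small prime factors.

Proof. Let `S = ∑_{g ∣ K, g > 1, Rough R g} 1/g` and let `s` be the number of prime factors `> R` of `K`;
`s ≤ log₂ K`. Every such `g` is `g = p h` with `p = minFac g` a prime factor `> R` of `K` and `h ∣ K`,
`h = 1` or `h` again of this kind. So `S ≤ ∑_p (1/p)(1 + S) ≤ (s/R)(1 + S)`, and `s ≤ R/2` gives
`S ≤ 2 s/R`.
-/

namespace Pool.Agent.SCM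

open Finset

open Classical in
theorem rough_divisors (R K : ℕ) (hR : 1 ≤ R) (hK : 1 ≤ K) (hs : 2 * Nat.log 2 K ≤ R) :
    ∑ g ∈ K.divisors.filter (fun g => 1 < g ∧ Rough R g), (1 / (g : ℝ)) ≤
      2 * (Nat.log 2 K : ℝ) / R := by
  set D : Finset ℕ := K.divisors.filter (fun g => 1 < g ∧ Rough R g) with hD
  set P : Finset ℕ := K.primeFactors.filter (fun p => R < p) with hP
  set S : ℝ := ∑ g ∈ D, (1 / (g : ℝ)) with hS
  have hR0 : (0 : ℝ) < R := by exact_mod_cast hR
  have hS0 : 0 ≤ S := Finset.sum_nonneg (fun g _ => by positivity)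
  -- number of large prime factors
  have hcard : P.card ≤ Nat.log 2 K := by
    apply Nat.le_log_of_pow_le (by norm_num)
    have h1 : ∏ p ∈ P, p ∣ K := by
      apply Finset.prod_primes_dvd
      · intro p hp
        rw [hP, Finset.mem_filter] at hp
        exact (Nat.prime_of_mem_primeFactors hp.1).prime
      · intro p hp
        rw [hP, Finset.mem_filter] at hp
        exact Nat.dvd_of_mem_primeFactors hp.1
    calc 2 ^ P.card ≤ ∏ p ∈ P, p := by
          apply Finset.pow_card_le_prod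
          intro p hp
          rw [hP, Finset.mem_filter] at hp
          exact (Nat.prime_of_mem_primeFactors hp.1).two_le
      _ ≤ K := Nat.le_of_dvd hK h1
  -- the map g ↦ (minFac g, g / minFac g)
  have hone : (1 : ℕ) ∉ D := by
    rw [hD, Finset.mem_filter]
    rintro ⟨_, h, _⟩
    exact lt_irrefl _ h
  have hmap : ∀ g ∈ D, (g.minFac, g / g.minFac) ∈ P ×ˢ (insert 1 D) := by
    intro g hg
    rw [hD, Finset.mem_filter, Nat.mem_divisors] at hg
    obtain ⟨⟨hgK, hK0⟩, hg1, hgR⟩ := hg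
    have hpr : g.minFac.Prime := Nat.minFac_prime (by omega)
    have hdvd : g.minFac ∣ g := Nat.minFac_dvd g
    rw [Finset.mem_product]
    refine ⟨?_, ?_⟩
    · rw [hP, Finset.mem_filter, Nat.mem_primeFactors]
      exact ⟨⟨hpr, hdvd.trans hgK, hK0⟩, hgR _ hpr hdvd⟩
    · rw [Finset.mem_insert]
      by_cases h1 : g / g.minFac = 1
      · exact Or.inl h1
      · right
        have hq : g / g.minFac ∣ g := Nat.div_dvd_of_dvd hdvd
        have hpos : 0 < g / g.minFac := Nat.div_pos (Nat.le_of_dvd (by omega) hdvd) hpr.pos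
        rw [hD, Finset.mem_filter, Nat.mem_divisors]
        refine ⟨⟨hq.trans hgK, hK0⟩, by omega, ?_⟩
        intro p hp hpd
        exact hgR p hp (hpd.trans hq)
  have hinj : Set.InjOn (fun g : ℕ => (g.minFac, g / g.minFac)) D := by
    intro a ha b hb hab
    simp only [Prod.mk.injEq] at hab
    have h1 := Nat.mul_div_cancel' (Nat.minFac_dvd a)
    have h2 := Nat.mul_div_cancel' (Nat.minFac_dvd b)
    rw [hab.2, hab.1] at h1
    exact h1.symm.trans h2
  have hle : S ≤ ∑ x ∈ P ×ˢ (insert 1 D), (1 / (x.1 : ℝ)) * (1 / (x.2 : ℝ)) := by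
    calc S = ∑ g ∈ D, (1 / ((g.minFac : ℕ) : ℝ)) * (1 / ((g / g.minFac : ℕ) : ℝ)) := by
          apply Finset.sum_congr rfl
          intro g hg
          have hmul : ((g : ℕ) : ℝ) = (g.minFac : ℝ) * ((g / g.minFac : ℕ) : ℝ) := by
            rw [← Nat.cast_mul, Nat.mul_div_cancel' (Nat.minFac_dvd g)]
          rw [one_div_mul_one_div, ← hmul]
      _ = ∑ x ∈ D.image (fun g : ℕ => (g.minFac, g / g.minFac)), (1 / (x.1 : ℝ)) * (1 / (x.2 : ℝ)) := by
          rw [Finset.sum_image hinj]
      _ ≤ _ := by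
          apply Finset.sum_le_sum_of_subset_of_nonneg
          · intro x hx
            rw [Finset.mem_image] at hx
            obtain ⟨g, hg, rfl⟩ := hx
            exact hmap g hg
          · intro x _ _
            positivity
  have hprod : ∑ x ∈ P ×ˢ (insert 1 D), (1 / (x.1 : ℝ)) * (1 / (x.2 : ℝ)) =
      (∑ p ∈ P, (1 / (p : ℝ))) * (1 + S) := by
    rw [Finset.sum_product, Finset.sum_mul]
    apply Finset.sum_congr rfl
    intro p _
    show ∑ y ∈ insert 1 D, (1 / (p : ℝ)) * (1 / (y : ℝ)) = _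
    rw [← Finset.mul_sum, Finset.sum_insert hone]
    simp [hS]
  have hPs : ∑ p ∈ P, (1 / (p : ℝ)) ≤ (Nat.log 2 K : ℝ) / R := by
    calc ∑ p ∈ P, (1 / (p : ℝ)) ≤ ∑ p ∈ P, (1 / (R : ℝ)) := by
          apply Finset.sum_le_sum
          intro p hp
          rw [hP, Finset.mem_filter] at hp
          apply one_div_le_one_div_of_le hR0
          exact_mod_cast hp.2.le
      _ = (P.card : ℝ) / R := by rw [Finset.sum_const, nsmul_eq_mul]; ring
      _ ≤ (Nat.log 2 K : ℝ) / R := by
          apply div_le_div_of_nonneg_right _ hR0.le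
          exact_mod_cast hcard
  have hhalf : (Nat.log 2 K : ℝ) / R ≤ 1 / 2 := by
    rw [div_le_div_iff₀ hR0 (by norm_num)]
    have : ((2 * Nat.log 2 K : ℕ) : ℝ) ≤ R := by exact_mod_cast hs
    push_cast at this
    linarith
  have hfin : S ≤ ((Nat.log 2 K : ℝ) / R) * (1 + S) := by
    calc S ≤ _ := hle
      _ = _ := hprod
      _ ≤ _ := mul_le_mul_of_nonneg_right hPs (by linarith)
  have h2 : 2 * (Nat.log 2 K : ℝ) / R = 2 * ((Nat.log 2 K : ℝ) / R) := by ring
  rw [h2]
  nlinarith [mul_le_mul_of_nonneg_right hhalf hS0]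

end Pool.Agent.SCM
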