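import Mathlib
import Pool.Agent.SCM.Defs
import Pool.Agent.SCM.APS
import Pool.Agent.SCM.TDI

set_option autoImplicit false

/-!
# Module T2B
Compatible pairs of events with different `x`.

Let `t = (x, y)`, `t' = (x', y')`, `g = gcd (x y + 1) (x' y' + 1) > 1`, `g ∣ x + y - x' - y'`, `x ≠ x'`.
Modulo `g`: `x y ≡ -1 ≡ x' y'`, so `x x' (x + y - x' - y') ≡ (x - x')(x x' + 1)`; hence `g` divides
`K = |x - x'| (x x' + 1)`, `1 ≤ K ≤ 2 Z^3`, and `g` is rough. So the sum is at most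
`∑_{x ≠ x'} (1/(x x')) ∑_{g ∣ K, g > 1 rough} g (∑_{y : g ∣ x y + 1} 1/y) (∑_{y' : g ∣ x' y' + 1} 1/y')`
and both inner sums are `≤ 1/Z^3 + log Z/g ≤ (2 + log Z)/g` (`dvd_sum_le`, `g ≤ 2 Z^3`). By
`rough_divisors` (`Nat.log 2 K ≤ 1 + 3 log Z/log 2 ≤ 5 (1 + log Z)`) the sum over `g` is
`≤ (2 + log Z)^2 * 10 (1 + log Z)/R`, and `∑_{x ≤ Z} 1/x ≤ 1 + log Z`. Total
`≤ 40 (1 + log Z)^5/R`.
-/

namespace Pool.Agent.SCM

open Finset

namespace T2B_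

/-- the number divisible by the common divisor -/
def KK (x x' : ℕ) : ℕ := ((x : ℤ) - x').natAbs * (x * x' + 1)

theorem dvd_KK {x y x' y' g : ℕ} (h1 : g ∣ x * y + 1) (h2 : g ∣ x' * y' + 1)
    (h3 : (x : ℤ) + y ≡ x' + y' [ZMOD (g : ℤ)]) : g ∣ KK x x' := by
  have h1' : (g : ℤ) ∣ (x : ℤ) * y + 1 := by exact_mod_cast h1
  have h2' : (g : ℤ) ∣ (x' : ℤ) * y' + 1 := by exact_mod_cast h2
  have h3' : (g : ℤ) ∣ ((x' : ℤ) + y') - (x + y) := h3.dvd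
  have h4 : (g : ℤ) ∣ ((x : ℤ) - x') * (x * x' + 1) := by
    have h5 : ((x : ℤ) - x') * (x * x' + 1) =
        -(x * x' * (((x' : ℤ) + y') - (x + y))) + x * (x' * y' + 1) - x' * (x * y + 1) := by ring
    rw [h5]
    exact dvd_sub (dvd_add ((h3'.mul_left _).neg_right) (h2'.mul_left _)) (h1'.mul_left _)
  have h6 : ((x : ℤ) - x') * (x * x' + 1) ∣ ((KK x x' : ℕ) : ℤ) := by
    rw [KK]
    push_cast
    refine mul_dvd_mul ?_ (dvd_refl _)
    rw [dvd_abs]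
  exact_mod_cast h4.trans h6

theorem KK_pos {x x' : ℕ} (h : x ≠ x') : 1 ≤ KK x x' := by
  refine Nat.one_le_iff_ne_zero.2 (Nat.mul_ne_zero ?_ (Nat.succ_ne_zero _))
  rw [Int.natAbs_ne_zero]
  omega

theorem KK_le {x x' Z : ℕ} (h1 : 1 ≤ x) (h2 : x ≤ Z) (h1' : 1 ≤ x') (h2' : x' ≤ Z) :
    KK x x' ≤ Z ^ 3 := by
  obtain ⟨W, rfl⟩ : ∃ W, Z = W + 1 := ⟨Z - 1, by omega⟩
  have h3 : ((x : ℤ) - x').natAbs ≤ W := by omega
  have h4 : x * x' + 1 ≤ (W + 1) * (W + 1) + 1 := Nat.succ_le_succ (Nat.mul_le_mul h2 h2')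
  calc KK x x' ≤ W * ((W + 1) * (W + 1) + 1) := Nat.mul_le_mul h3 h4
    _ ≤ (W + 1) ^ 3 := by nlinarith

theorem log_le {K Z : ℕ} (hZ : 2 ≤ Z) (hK : 1 ≤ K) (h : K ≤ Z ^ 3) :
    (Nat.log 2 K : ℝ) ≤ 5 * (1 + Real.log Z) := by
  have h1 : (Nat.log 2 K : ℝ) ≤ Real.logb 2 K := by
    have := Real.natLog_le_logb K 2
    exact_mod_cast this
  have hl2 : 0.6931471803 < Real.log 2 := Real.log_two_gt_d9
  have hZ0 : (0 : ℝ) < Z := by positivity
  have hlZ : 0 ≤ Real.log Z := Real.log_natCast_nonneg Z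
  have h2 : Real.log K ≤ 3 * Real.log Z := by
    have h3 : Real.log K ≤ Real.log ((Z : ℝ) ^ 3) :=
      Real.log_le_log (by exact_mod_cast hK) (by exact_mod_cast h)
    rw [Real.log_pow] at h3
    exact_mod_cast h3
  refine h1.trans ?_
  rw [Real.logb, div_le_iff₀ (by linarith)]
  nlinarith

open Classical in
/-- the common divisors -/
noncomputable def DD (R x x' : ℕ) : Finset ℕ := (KK x x').divisors.filter (fun g => 1 < g ∧ Rough R g)

open Classical in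
theorem inner_le {Z R x x' g w : ℕ} (hZ : 2 ≤ Z) (h1 : 1 ≤ x) (h2 : x ≤ Z) (h1' : 1 ≤ x')
    (h2' : x' ≤ Z) (hg : g ∈ DD R x x') :
    ∑ y ∈ (Icc (Z ^ 3) (Z ^ 4)).filter (fun y : ℕ => g ∣ w * y + 1), (1 / (y : ℝ)) ≤
      (1 + Real.log Z) / g := by
  rw [DD, mem_filter, Nat.mem_divisors] at hg
  obtain ⟨⟨hgd, hK0⟩, hg1, -⟩ := hg
  have hgZ : g ≤ Z ^ 3 := (Nat.le_of_dvd (Nat.pos_of_ne_zero hK0) hgd).trans (KK_le h1 h2 h1' h2')
  have hZ0 : (0 : ℝ) < Z := by positivity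
  have hg0 : (0 : ℝ) < g := by positivity
  refine (dvd_sum_le (Z ^ 3) (Z ^ 4) g w (Nat.one_le_pow _ _ (by omega))
    (Nat.pow_le_pow_right (by omega) (by omega)) (by omega)).trans ?_
  push_cast
  rw [Real.log_pow, Real.log_pow, add_div]
  refine add_le_add ?_ (le_of_eq ?_)
  · exact one_div_le_one_div_of_le hg0 (by exact_mod_cast hgZ)
  · push_cast; ring

theorem harm_le (X Z : ℕ) (hX : 1 ≤ X) :
    ∑ x ∈ Icc X Z, (1 / (x : ℝ)) ≤ 1 + Real.log Z := by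
  have h1 : ∑ x ∈ Icc X Z, (1 / (x : ℝ)) ≤ ∑ x ∈ Icc 1 Z, (1 / (x : ℝ)) :=
    sum_le_sum_of_subset_of_nonneg (Icc_subset_Icc_left hX) (fun _ _ _ => by positivity)
  have h2 := harmonic_le_one_add_log Z
  rw [harmonic_eq_sum_Icc] at h2
  push_cast at h2
  simpa [one_div] using h1.trans (by simpa [one_div] using h2)

open Classical in
theorem xx_le {Z R x x' : ℕ} (hZ : 2 ≤ Z) (hR : 10 * (1 + Real.log Z) ≤ R) (h1 : 1 ≤ x)
    (h2 : x ≤ Z) (h1' : 1 ≤ x') (h2' : x' ≤ Z) (hne : x ≠ x') :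
    ∑ g ∈ DD R x x', (g : ℝ) *
      ((∑ y ∈ (Icc (Z ^ 3) (Z ^ 4)).filter (fun y : ℕ => g ∣ x * y + 1), (1 / (y : ℝ))) *
      (∑ y ∈ (Icc (Z ^ 3) (Z ^ 4)).filter (fun y : ℕ => g ∣ x' * y + 1), (1 / (y : ℝ)))) ≤
      10 * (1 + Real.log Z) ^ 3 / R := by
  have hlZ : 0 ≤ Real.log Z := Real.log_natCast_nonneg Z
  have hR1 : (0 : ℝ) < R := by linarith
  have hK := KK_pos hne
  have hlog := log_le hZ hK (KK_le h1 h2 h1' h2')
  have hs : 2 * Nat.log 2 (KK x x') ≤ R := by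
    have : (2 : ℝ) * (Nat.log 2 (KK x x') : ℝ) ≤ R := by linarith
    exact_mod_cast this
  have h3 := rough_divisors R (KK x x') (by exact_mod_cast hR1) hK hs
  calc ∑ g ∈ DD R x x', (g : ℝ) *
      ((∑ y ∈ (Icc (Z ^ 3) (Z ^ 4)).filter (fun y : ℕ => g ∣ x * y + 1), (1 / (y : ℝ))) *
      (∑ y ∈ (Icc (Z ^ 3) (Z ^ 4)).filter (fun y : ℕ => g ∣ x' * y + 1), (1 / (y : ℝ))))
      ≤ ∑ g ∈ DD R x x', (1 + Real.log Z) ^ 2 * (1 / (g : ℝ)) := by
        refine sum_le_sum fun g hg => ?_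
        have hg0 : (0 : ℝ) < g := by
          have := hg
          rw [DD, mem_filter] at this
          have := this.2.1
          positivity
        have h4 := inner_le (w := x) hZ h1 h2 h1' h2' hg
        have h5 := inner_le (w := x') hZ h1 h2 h1' h2' hg
        have h6 := mul_le_mul h4 h5 (sum_nonneg fun _ _ => by positivity) (by positivity)
        refine (mul_le_mul_of_nonneg_left h6 hg0.le).trans (le_of_eq ?_)
        field_simp
    _ = (1 + Real.log Z) ^ 2 * ∑ g ∈ DD R x x', (1 / (g : ℝ)) := by rw [mul_sum]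
    _ ≤ (1 + Real.log Z) ^ 2 * (2 * (Nat.log 2 (KK x x') : ℝ) / R) :=
        mul_le_mul_of_nonneg_left h3 (by positivity)
    _ ≤ (1 + Real.log Z) ^ 2 * (2 * (5 * (1 + Real.log Z)) / R) := by
        refine mul_le_mul_of_nonneg_left ?_ (by positivity)
        exact div_le_div_of_nonneg_right (by linarith) hR1.le
    _ = 10 * (1 + Real.log Z) ^ 3 / R := by ring

open Classical in
/-- one pair -/
theorem pair_le {X Z R : ℕ} (hX : 1 ≤ X) (t t' : ℕ × ℕ) (ht : t ∈ Idx X Z R)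
    (ht' : t' ∈ Idx X Z R) (hne : t.1 ≠ t'.1) (hg : 1 < (mo t).gcd (mo t'))
    (hc : cl t ≡ cl t' [ZMOD (((mo t).gcd (mo t') : ℕ) : ℤ)]) :
    (((mo t).gcd (mo t') : ℕ) : ℝ) * ((1 / (mo t : ℝ)) * (1 / (mo t' : ℝ))) ≤
      (1 / (t.1 : ℝ)) * (1 / (t'.1 : ℝ)) * ∑ g ∈ DD R t.1 t'.1,
        (g : ℝ) * ((if g ∣ t.1 * t.2 + 1 then 1 / (t.2 : ℝ) else 0) *
          (if g ∣ t'.1 * t'.2 + 1 then 1 / (t'.2 : ℝ) else 0)) := by
  obtain ⟨x, y⟩ := t
  obtain ⟨x', y'⟩ := t'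
  simp only [mo, cl] at *
  set G := (x * y + 1).gcd (x' * y' + 1) with hG
  have hG1 : G ∣ x * y + 1 := Nat.gcd_dvd_left _ _
  have hG2 : G ∣ x' * y' + 1 := Nat.gcd_dvd_right _ _
  rw [Idx, mem_filter, mem_product, mem_Icc, mem_Icc] at ht ht'
  obtain ⟨⟨⟨hx1, hx2⟩, hy1, hy2⟩, hrough⟩ := ht
  obtain ⟨⟨⟨hx1', hx2'⟩, hy1', hy2'⟩, hrough'⟩ := ht'
  simp only at hx1 hx2 hy1 hy2 hx1' hx2' hy1' hy2' hrough hrough'
  have hx0 : 1 ≤ x := hX.trans hx1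
  have hx0' : 1 ≤ x' := hX.trans hx1'
  have hy0 : 1 ≤ y := (Nat.one_le_pow _ _ (hx0.trans hx2)).trans hy1
  have hy0' : 1 ≤ y' := (Nat.one_le_pow _ _ (hx0.trans hx2)).trans hy1'
  have hmem : G ∈ DD R x x' := by
    rw [DD, mem_filter, Nat.mem_divisors]
    refine ⟨⟨dvd_KK hG1 hG2 hc, Nat.one_le_iff_ne_zero.1 (KK_pos hne)⟩, hg, ?_⟩
    intro p hp hpG
    exact hrough p hp (hpG.trans hG1)
  have hsum := single_le_sum (f := fun g : ℕ => (g : ℝ) *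
    ((if g ∣ x * y + 1 then 1 / (y : ℝ) else 0) * (if g ∣ x' * y' + 1 then 1 / (y' : ℝ) else 0)))
    (fun g _ => by positivity) hmem
  simp only [if_pos hG1, if_pos hG2] at hsum
  have hG0 : (0 : ℝ) ≤ G := by positivity
  have hxr : (0 : ℝ) < x := by positivity
  have hxr' : (0 : ℝ) < x' := by positivity
  have hyr : (0 : ℝ) < y := by positivity
  have hyr' : (0 : ℝ) < y' := by positivity
  have e1 : 1 / ((x * y + 1 : ℕ) : ℝ) ≤ 1 / ((x : ℝ) * y) := by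
    push_cast
    exact one_div_le_one_div_of_le (by positivity) (by linarith)
  have e2 : 1 / ((x' * y' + 1 : ℕ) : ℝ) ≤ 1 / ((x' : ℝ) * y') := by
    push_cast
    exact one_div_le_one_div_of_le (by positivity) (by linarith)
  calc (G : ℝ) * (1 / ((x * y + 1 : ℕ) : ℝ) * (1 / ((x' * y' + 1 : ℕ) : ℝ)))
      ≤ (G : ℝ) * (1 / ((x : ℝ) * y) * (1 / ((x' : ℝ) * y'))) := by
        refine mul_le_mul_of_nonneg_left ?_ hG0
        exact mul_le_mul e1 e2 (by positivity) (by positivity)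
    _ = (1 / (x : ℝ)) * (1 / (x' : ℝ)) * ((G : ℝ) * (1 / (y : ℝ) * (1 / (y' : ℝ)))) := by
        field_simp
    _ ≤ _ := mul_le_mul_of_nonneg_left hsum (by positivity)

end T2B_

open T2B_ in
open Classical in
theorem t2b_bound (X Z R : ℕ) (hX : 1 ≤ X) (hZ : 2 ≤ Z) (hR : 10 * (1 + Real.log Z) ≤ R) :
    ∑ t ∈ Idx X Z R, ∑ t' ∈ (Idx X Z R).filter (fun t' => t.1 ≠ t'.1 ∧
        1 < (mo t).gcd (mo t') ∧ cl t ≡ cl t' [ZMOD (((mo t).gcd (mo t') : ℕ) : ℤ)]),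
      (((mo t).gcd (mo t') : ℕ) : ℝ) * ((1 / (mo t : ℝ)) * (1 / (mo t' : ℝ))) ≤
      40 * (1 + Real.log Z) ^ 5 / R := by
  have hlZ : 0 ≤ Real.log Z := Real.log_natCast_nonneg Z
  have hR1 : (0 : ℝ) < R := by linarith
  set F : ℕ × ℕ → ℕ × ℕ → ℝ := fun t t' => if t.1 ≠ t'.1 then
    (1 / (t.1 : ℝ)) * (1 / (t'.1 : ℝ)) * ∑ g ∈ DD R t.1 t'.1,
        (g : ℝ) * ((if g ∣ t.1 * t.2 + 1 then 1 / (t.2 : ℝ) else 0) *
          (if g ∣ t'.1 * t'.2 + 1 then 1 / (t'.2 : ℝ) else 0)) else 0 with hF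
  have hF0 : ∀ t t', 0 ≤ F t t' := by
    intro t t'
    simp only [hF]
    split_ifs
    · refine mul_nonneg (by positivity) (sum_nonneg fun g _ => by positivity)
    · exact le_rfl
  set P := (Icc X Z) ×ˢ (Icc (Z ^ 3) (Z ^ 4)) with hP
  have hsub : Idx X Z R ⊆ P := filter_subset _ _
  have step1 : ∑ t ∈ Idx X Z R, ∑ t' ∈ (Idx X Z R).filter (fun t' => t.1 ≠ t'.1 ∧
        1 < (mo t).gcd (mo t') ∧ cl t ≡ cl t' [ZMOD (((mo t).gcd (mo t') : ℕ) : ℤ)]),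
      (((mo t).gcd (mo t') : ℕ) : ℝ) * ((1 / (mo t : ℝ)) * (1 / (mo t' : ℝ))) ≤
      ∑ t ∈ P, ∑ t' ∈ P, F t t' := by
    calc _ ≤ ∑ t ∈ Idx X Z R, ∑ t' ∈ (Idx X Z R).filter (fun t' => t.1 ≠ t'.1 ∧
        1 < (mo t).gcd (mo t') ∧ cl t ≡ cl t' [ZMOD (((mo t).gcd (mo t') : ℕ) : ℤ)]), F t t' := by
          refine sum_le_sum fun t ht => sum_le_sum fun t' ht' => ?_
          rw [mem_filter] at ht'
          obtain ⟨ht', hne, hg, hc⟩ := ht'
          simp only [hF, if_pos hne]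
          exact pair_le hX t t' ht ht' hne hg hc
      _ ≤ ∑ t ∈ Idx X Z R, ∑ t' ∈ P, F t t' := by
          refine sum_le_sum fun t _ => ?_
          exact sum_le_sum_of_subset_of_nonneg ((filter_subset _ _).trans hsub)
            (fun _ _ _ => hF0 _ _)
      _ ≤ _ := sum_le_sum_of_subset_of_nonneg hsub
            (fun t _ _ => sum_nonneg fun t' _ => hF0 t t')
  have step2 : ∑ t ∈ P, ∑ t' ∈ P, F t t' =
      ∑ x ∈ Icc X Z, ∑ x' ∈ Icc X Z, if x ≠ x' then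
        (1 / (x : ℝ)) * (1 / (x' : ℝ)) * ∑ g ∈ DD R x x', (g : ℝ) *
        ((∑ y ∈ (Icc (Z ^ 3) (Z ^ 4)).filter (fun y : ℕ => g ∣ x * y + 1), (1 / (y : ℝ))) *
        (∑ y ∈ (Icc (Z ^ 3) (Z ^ 4)).filter (fun y : ℕ => g ∣ x' * y + 1), (1 / (y : ℝ))))
        else 0 := by
    rw [hP, sum_product]
    refine sum_congr rfl fun x _ => ?_
    rw [sum_comm, sum_product]
    refine sum_congr rfl fun x' _ => ?_
    simp only [hF]
    split_ifs with hne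
    · simp_rw [sum_filter, sum_mul_sum, mul_sum]
      rw [sum_comm]
      refine Eq.trans ?_ (sum_comm).symm
      refine sum_congr rfl fun y _ => ?_
      rw [sum_comm]
    · simp
  rw [step2] at step1
  refine step1.trans ?_
  calc _ ≤ ∑ x ∈ Icc X Z, ∑ x' ∈ Icc X Z,
      (1 / (x : ℝ)) * (1 / (x' : ℝ)) * (10 * (1 + Real.log Z) ^ 3 / R) := by
        refine sum_le_sum fun x hx => sum_le_sum fun x' hx' => ?_
        rw [mem_Icc] at hx hx'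
        split_ifs with hne
        · exact mul_le_mul_of_nonneg_left (xx_le hZ hR (hX.trans hx.1) hx.2
            (hX.trans hx'.1) hx'.2 hne) (by positivity)
        · positivity
    _ = (∑ x ∈ Icc X Z, (1 / (x : ℝ))) * (∑ x ∈ Icc X Z, (1 / (x : ℝ))) *
          (10 * (1 + Real.log Z) ^ 3 / R) := by
        rw [sum_mul_sum, sum_mul]
        refine sum_congr rfl fun x _ => ?_
        rw [sum_mul]
    _ ≤ (1 + Real.log Z) * (1 + Real.log Z) * (10 * (1 + Real.log Z) ^ 3 / R) := by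
        have := harm_le X Z hX
        have h0 : 0 ≤ ∑ x ∈ Icc X Z, (1 / (x : ℝ)) := sum_nonneg fun _ _ => by positivity
        exact mul_le_mul_of_nonneg_right (mul_le_mul this this h0 (by positivity)) (by positivity)
    _ = 10 * (1 + Real.log Z) ^ 5 / R := by ring
    _ ≤ 40 * (1 + Real.log Z) ^ 5 / R := by
        refine div_le_div_of_nonneg_right ?_ hR1.le
        have : 0 ≤ (1 + Real.log Z) ^ 5 := by positivity
        linarith

end Pool.Agent.SCM
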