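import Mathlib
import Pool.Agent.SCM.Defs
import Pool.Agent.SCM.DEL
import Pool.Agent.SCM.T2A
import Pool.Agent.SCM.T2B

set_option autoImplicit false

/-!
# Module TAU
The average correlation.

Proof. For `t ≠ t'`: `|uu| = 0` if the gcd `g` is `1`, `≤ g` if `g > 1` and the classes are compatible,
`= 1` otherwise. So `∑_t p_t ∑_{t' ≠ t} p_{t'} |uu| ≤ ∑_t p_t ∑_{t' not coprime} p_{t'} +
∑_{t ≠ t', g > 1, compatible} g p_t p_{t'}`; the first part is `≤ lam * 8 (1 + log Z)^3/R` by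
`delta_bound`, the second is split into `x = x'` (`t2a_bound`) and `x ≠ x'` (`t2b_bound`).
-/

namespace Pool.Agent.SCM

open Finset

theorem tau_avg (X Z R : ℕ) (hX : 1 ≤ X) (hZ : 2 ≤ Z) (hRZ : R ≤ Z)
    (hR : 10 * (1 + Real.log Z) ≤ R) :
    ∑ t ∈ Idx X Z R, (1 / (mo t : ℝ)) * ∑ t' ∈ (Idx X Z R).erase t,
      (1 / (mo t' : ℝ)) * |uu mo cl t t'| ≤
      (∑ t ∈ Idx X Z R, (1 / (mo t : ℝ))) * (8 * (1 + Real.log Z) ^ 3 / R) +
        96 * (1 + Real.log Z) ^ 3 / X + 40 * (1 + Real.log Z) ^ 5 / R := by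
  classical
  have hlZ : 0 ≤ Real.log Z := by
    apply Real.log_nonneg
    have : 1 ≤ Z := by omega
    exact_mod_cast this
  have hR1 : 1 ≤ R := by
    have h1 : (1 : ℝ) ≤ R := by linarith
    exact_mod_cast h1
  have hA := t2a_bound X Z R hX hZ
  have hB := t2b_bound X Z R hX hZ hR
  have hpt : ∀ t ∈ Idx X Z R, ∑ t' ∈ (Idx X Z R).erase t, (1 / (mo t' : ℝ)) * |uu mo cl t t'| ≤
      ∑ t' ∈ (Idx X Z R).filter (fun t' => ¬ (mo t').Coprime (mo t)), (1 / (mo t' : ℝ)) +
      ∑ t' ∈ (Idx X Z R).filter (fun t' => t.1 = t'.1 ∧ t ≠ t' ∧ 1 < (mo t).gcd (mo t')),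
        (((mo t).gcd (mo t') : ℕ) : ℝ) * (1 / (mo t' : ℝ)) +
      ∑ t' ∈ (Idx X Z R).filter (fun t' => t.1 ≠ t'.1 ∧ 1 < (mo t).gcd (mo t') ∧
          cl t ≡ cl t' [ZMOD (((mo t).gcd (mo t') : ℕ) : ℤ)]),
        (((mo t).gcd (mo t') : ℕ) : ℝ) * (1 / (mo t' : ℝ)) := by
    intro t ht
    rw [Finset.sum_filter, Finset.sum_filter, Finset.sum_filter, ← Finset.sum_add_distrib,
      ← Finset.sum_add_distrib]
    refine (Finset.sum_le_sum (g := fun t' : ℕ × ℕ =>
      ((if ¬ (mo t').Coprime (mo t) then (1 / (mo t' : ℝ)) else 0) +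
      (if t.1 = t'.1 ∧ t ≠ t' ∧ 1 < (mo t).gcd (mo t') then
        (((mo t).gcd (mo t') : ℕ) : ℝ) * (1 / (mo t' : ℝ)) else 0)) +
      (if t.1 ≠ t'.1 ∧ 1 < (mo t).gcd (mo t') ∧
          cl t ≡ cl t' [ZMOD (((mo t).gcd (mo t') : ℕ) : ℤ)] then
        (((mo t).gcd (mo t') : ℕ) : ℝ) * (1 / (mo t' : ℝ)) else 0)) ?_).trans
      (Finset.sum_le_sum_of_subset_of_nonneg (Finset.erase_subset _ _) ?_)
    · intro t' ht'
      have hne : t ≠ t' := (Finset.ne_of_mem_erase ht').symm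
      have hp : (0 : ℝ) ≤ 1 / (mo t' : ℝ) := by positivity
      have hn2 : (0 : ℝ) ≤ (if t.1 = t'.1 ∧ t ≠ t' ∧ 1 < (mo t).gcd (mo t') then
        (((mo t).gcd (mo t') : ℕ) : ℝ) * (1 / (mo t' : ℝ)) else 0) := by
        split_ifs
        · positivity
        · exact le_refl _
      have hn3 : (0 : ℝ) ≤ (if t.1 ≠ t'.1 ∧ 1 < (mo t).gcd (mo t') ∧
          cl t ≡ cl t' [ZMOD (((mo t).gcd (mo t') : ℕ) : ℤ)] then
        (((mo t).gcd (mo t') : ℕ) : ℝ) * (1 / (mo t' : ℝ)) else 0) := by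
        split_ifs
        · positivity
        · exact le_refl _
      have hn1 : (0 : ℝ) ≤ (if ¬ (mo t').Coprime (mo t) then (1 / (mo t' : ℝ)) else 0) := by
        split_ifs
        · first | exact hp | exact le_refl _
        · first | exact le_refl _ | positivity
      show (1 / (mo t' : ℝ)) * |uu mo cl t t'| ≤ _
      by_cases hg : (mo t).gcd (mo t') = 1
      · have h0 : uu mo cl t t' = 0 := by
          unfold uu
          rw [if_pos hg]
        rw [h0, abs_zero, mul_zero]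
        exact add_nonneg (add_nonneg hn1 hn2) hn3
      · have hgpos : 0 < (mo t).gcd (mo t') := Nat.gcd_pos_of_pos_left _ (by unfold mo; omega)
        have hg1 : 1 < (mo t).gcd (mo t') := by omega
        by_cases hc : cl t ≡ cl t' [ZMOD (((mo t).gcd (mo t') : ℕ) : ℤ)]
        · have h0 : uu mo cl t t' = (((mo t).gcd (mo t') : ℕ) : ℝ) - 1 := by
            unfold uu
            rw [if_neg hg, if_pos hc]
          have h1 : (1 : ℝ) ≤ (((mo t).gcd (mo t') : ℕ) : ℝ) := by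
            exact_mod_cast hg1.le
          have h2 : |uu mo cl t t'| ≤ (((mo t).gcd (mo t') : ℕ) : ℝ) := by
            rw [h0, abs_of_nonneg (by linarith)]
            linarith
          have h3 : (1 / (mo t' : ℝ)) * |uu mo cl t t'| ≤
              (((mo t).gcd (mo t') : ℕ) : ℝ) * (1 / (mo t' : ℝ)) := by
            rw [mul_comm]
            exact mul_le_mul_of_nonneg_right h2 hp
          by_cases hx : t.1 = t'.1
          · rw [if_pos (show t.1 = t'.1 ∧ t ≠ t' ∧ 1 < (mo t).gcd (mo t') from ⟨hx, hne, hg1⟩)] at *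
            linarith
          · rw [if_pos (show t.1 ≠ t'.1 ∧ 1 < (mo t).gcd (mo t') ∧
              cl t ≡ cl t' [ZMOD (((mo t).gcd (mo t') : ℕ) : ℤ)] from ⟨hx, hg1, hc⟩)] at *
            linarith
        · have h0 : uu mo cl t t' = -1 := by
            unfold uu
            rw [if_neg hg, if_neg hc]
          have h4 : ¬ (mo t').Coprime (mo t) := by
            intro h5
            exact hg (Nat.Coprime.symm h5)
          rw [if_pos h4, h0, abs_neg, abs_one, mul_one]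
          linarith
    · intro t' _ _
      refine add_nonneg (add_nonneg ?_ ?_) ?_
      · split_ifs
        · positivity
        · first | exact le_refl _ | positivity
      · split_ifs
        · positivity
        · exact le_refl _
      · split_ifs
        · positivity
        · exact le_refl _
  calc ∑ t ∈ Idx X Z R, (1 / (mo t : ℝ)) * ∑ t' ∈ (Idx X Z R).erase t,
      (1 / (mo t' : ℝ)) * |uu mo cl t t'|
      ≤ ∑ t ∈ Idx X Z R, ((1 / (mo t : ℝ)) * (8 * (1 + Real.log Z) ^ 3 / R) +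
        ∑ t' ∈ (Idx X Z R).filter (fun t' => t.1 = t'.1 ∧ t ≠ t' ∧ 1 < (mo t).gcd (mo t')),
          (((mo t).gcd (mo t') : ℕ) : ℝ) * ((1 / (mo t : ℝ)) * (1 / (mo t' : ℝ))) +
        ∑ t' ∈ (Idx X Z R).filter (fun t' => t.1 ≠ t'.1 ∧ 1 < (mo t).gcd (mo t') ∧
          cl t ≡ cl t' [ZMOD (((mo t).gcd (mo t') : ℕ) : ℤ)]),
          (((mo t).gcd (mo t') : ℕ) : ℝ) * ((1 / (mo t : ℝ)) * (1 / (mo t' : ℝ)))) := by
        apply Finset.sum_le_sum
        intro t ht
        have hp : (0 : ℝ) ≤ 1 / (mo t : ℝ) := by positivity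
        have h1 := mul_le_mul_of_nonneg_left (hpt t ht) hp
        refine h1.trans ?_
        rw [mul_add, mul_add, Finset.mul_sum, Finset.mul_sum, Finset.mul_sum]
        refine add_le_add (add_le_add ?_ ?_) ?_
        · rw [← Finset.mul_sum]
          apply mul_le_mul_of_nonneg_left _ hp
          exact delta_bound X Z R hX hZ hR1 hRZ t ht
        · apply le_of_eq
          apply Finset.sum_congr rfl
          intro t' _
          ring
        · apply le_of_eq
          apply Finset.sum_congr rfl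
          intro t' _
          ring
    _ = (∑ t ∈ Idx X Z R, (1 / (mo t : ℝ))) * (8 * (1 + Real.log Z) ^ 3 / R) +
        ∑ t ∈ Idx X Z R, ∑ t' ∈ (Idx X Z R).filter (fun t' => t.1 = t'.1 ∧ t ≠ t' ∧
          1 < (mo t).gcd (mo t')),
          (((mo t).gcd (mo t') : ℕ) : ℝ) * ((1 / (mo t : ℝ)) * (1 / (mo t' : ℝ))) +
        ∑ t ∈ Idx X Z R, ∑ t' ∈ (Idx X Z R).filter (fun t' => t.1 ≠ t'.1 ∧
          1 < (mo t).gcd (mo t') ∧ cl t ≡ cl t' [ZMOD (((mo t).gcd (mo t') : ℕ) : ℤ)]),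
          (((mo t).gcd (mo t') : ℕ) : ℝ) * ((1 / (mo t : ℝ)) * (1 / (mo t' : ℝ))) := by
        rw [Finset.sum_add_distrib, Finset.sum_add_distrib, Finset.sum_mul]
    _ ≤ _ := by
        refine add_le_add (add_le_add (le_refl _) ?_) ?_
        · convert hA using 4
        · convert hB using 4

end Pool.Agent.SCM
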