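import Mathlib
import Pool.Agent.SCM.Defs
import Pool.Agent.SCM.SIV
import Pool.Agent.SCM.LAS
import Pool.Agent.SCM.TAU

set_option autoImplicit false

/-!
# Module FNA
The bound for one `Z`.

Proof. Let `L = log Z` be large, `R = X = ⌈L^4⌉`. `lam := ∑_{Idx} 1/mo ≥ c L^2/log R ≥ c' L^2/log L`
(`lam_total`; `X^2 ≤ Z`, `(log R)^2 ≤ log Z` for large `Z`). `δ = 8 (1+L)^3/R ≤ 64/L ≤ 1`. By `tau_avg`
`∑_t p_t τ_t ≤ lam * 64/L + 96 * 8/L + 40 * 32 * L ≤ lam/4` for large `Z` (as `L log L/L^2 → 0`). Let `I`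
be the set of `t ∈ Idx` with `τ_t = ∑_{t' ≠ t} p_{t'} |uu| ≤ 1`. By Markov the bad `t` have mass
`≤ lam/4`, so `∑_I 1/mo ≥ (3/4) lam`. Apply `sieve` to `I` (all hypotheses are inherited by subsets;
`k δ ≤ k ≤ lam/4`): for `1 ≤ k ≤ lam/200` the number of `n ≤ N` outside all classes is
`≤ 2 N e^{-k} + 4 (2 |I|)^(2k)`, `|I| ≤ Z * Z^4`. Finally if `n > 2 Z^4` and `n ≡ x + y (mod x y + 1)` for some
`(x, y) ∈ I` then `z = (n - x - y)/(x y + 1) ≥ 1` is an integer and `n = x y z + x + y + z`; so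
`NoRep n` implies `n ≤ 2 Z^4` or `n` is outside all classes.
-/

namespace Pool.Agent.SCM

open Finset

/-- the two kinds of `n` without a representation -/
private theorem fna_cover (I : Finset (ℕ × ℕ)) (Z : ℕ)
    (hI : ∀ t ∈ I, 1 ≤ t.1 ∧ t.1 ≤ Z ∧ 1 ≤ t.2 ∧ t.2 ≤ Z ^ 4) (n : ℕ)
    (hnr : NoRep n) (hbig : ¬ n ≤ 2 * Z ^ 4) :
    ∀ t ∈ I, ¬ (n : ℤ) ≡ cl t [ZMOD (mo t : ℤ)] := by
  intro t ht hmod
  obtain ⟨h1, h2, h3, h4⟩ := hI t ht
  have hZ4 : Z ≤ Z ^ 4 := Nat.le_self_pow (by norm_num) Z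
  have hlt : t.1 + t.2 < n := by omega
  have hdvd : ((mo t : ℕ) : ℤ) ∣ (n : ℤ) - cl t := hmod.symm.dvd
  have hcast : (n : ℤ) - cl t = ((n - (t.1 + t.2) : ℕ) : ℤ) := by
    unfold cl
    omega
  rw [hcast] at hdvd
  have hdvd2 : mo t ∣ n - (t.1 + t.2) := by exact_mod_cast hdvd
  obtain ⟨z, hz⟩ := hdvd2
  have hz0 : 0 < z := by
    rcases Nat.eq_zero_or_pos z with h | h
    · rw [h, mul_zero] at hz
      omega
    · exact h
  apply hnr
  refine ⟨t.1, t.2, z, h1, h3, hz0, ?_⟩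
  have h5 : n = mo t * z + (t.1 + t.2) := by omega
  rw [h5]
  unfold mo
  ring

open Classical in
theorem bound_Z : ∃ c : ℝ, 0 < c ∧ ∃ Z₀ : ℕ, 3 ≤ Z₀ ∧ ∀ Z : ℕ, Z₀ ≤ Z → ∀ k : ℕ, 1 ≤ k →
    (k : ℝ) ≤ c * (Real.log Z) ^ 2 / Real.log (Real.log Z) → ∀ N : ℕ,
    (((Icc 1 N).filter (fun n => NoRep n)).card : ℝ) ≤
      2 * N * Real.exp (-(k : ℝ)) + 4 * (2 * (Z : ℝ) ^ 5) ^ (2 * k) + 2 * (Z : ℝ) ^ 4 := by
  obtain ⟨c1, hc1, R₀, hR₀, hlam⟩ := lam_total
  obtain ⟨W, hW⟩ : ∃ W : ℝ, W = 40 + R₀ + 409600 / c1 := ⟨_, rfl⟩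
  have hR₀0 : (0 : ℝ) ≤ R₀ := Nat.cast_nonneg _
  have hW1 : 0 ≤ 409600 / c1 := by positivity
  have hW40 : 40 ≤ W := by linarith
  have hWR : (R₀ : ℝ) ≤ W := by linarith
  have hWc : 409600 / c1 ≤ W := by linarith
  refine ⟨c1 / 1000, by positivity, ⌈Real.exp (W ^ 4)⌉₊, ?_, fun Z hZ k hk1 hk N => ?_⟩
  · have h1 : (3 : ℝ) ≤ Real.exp (W ^ 4) := by
      have h2 := Real.add_one_le_exp (W ^ 4)
      have h3 : (40 : ℝ) ^ 4 ≤ W ^ 4 := pow_le_pow_left₀ (by norm_num) hW40 4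
      norm_num at h3
      linarith
    have h4 := h1.trans (Nat.le_ceil (Real.exp (W ^ 4)))
    exact_mod_cast h4
  have hZ1 : Real.exp (W ^ 4) ≤ Z := (Nat.le_ceil _).trans (by exact_mod_cast hZ)
  have hZ0 : (0 : ℝ) < Z := (Real.exp_pos _).trans_le hZ1
  obtain ⟨L, hL⟩ : ∃ L : ℝ, L = Real.log Z := ⟨_, rfl⟩
  have hL1 : W ^ 4 ≤ L := by
    rw [hL, Real.le_log_iff_exp_le hZ0]
    exact hZ1
  have hZexp : (Z : ℝ) = Real.exp L := by rw [hL, Real.exp_log hZ0]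
  have hL2 : (2560000 : ℝ) ≤ L := by
    have h3 : (40 : ℝ) ^ 4 ≤ W ^ 4 := pow_le_pow_left₀ (by norm_num) hW40 4
    norm_num at h3
    linarith
  have hL0 : 0 < L := by linarith
  obtain ⟨w, hw⟩ : ∃ w : ℝ, w = L ^ (1 / 4 : ℝ) := ⟨_, rfl⟩
  have hw0 : 0 < w := by rw [hw]; positivity
  have hw4 : w ^ 4 = L := by
    rw [hw, ← Real.rpow_natCast, ← Real.rpow_mul hL0.le]
    norm_num
  have hwW : W ≤ w := by
    apply le_of_pow_le_pow_left₀ (n := 4) (by norm_num) hw0.le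
    rw [hw4]
    exact hL1
  have hw40 : 40 ≤ w := hW40.trans hwW
  have hlogL : Real.log L ≤ 4 * w := by
    rw [← hw4, Real.log_pow]
    have := Real.log_le_sub_one_of_pos hw0
    push_cast
    linarith
  have hlogL1 : 1 ≤ Real.log L := by
    rw [Real.le_log_iff_exp_le hL0]
    have := Real.exp_one_lt_d9
    linarith
  have hlogL0 : 0 < Real.log L := by linarith
  -- `R = X = ⌈L ^ 4⌉`
  obtain ⟨R, hR⟩ : ∃ R : ℕ, R = ⌈L ^ 4⌉₊ := ⟨_, rfl⟩
  have hRge : L ^ 4 ≤ R := by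
    rw [hR]
    exact Nat.le_ceil _
  have hL4 : L ≤ L ^ 4 := le_self_pow₀ (by linarith) (by norm_num)
  have hRle : (R : ℝ) ≤ 2 * L ^ 4 := by
    rw [hR]
    have h1 := (Nat.ceil_lt_add_one (by positivity : (0 : ℝ) ≤ L ^ 4)).le
    linarith
  have hRL : L ≤ R := hL4.trans hRge
  have hR0 : (0 : ℝ) < R := by linarith
  have hR1 : 1 ≤ R := by
    have : (1 : ℝ) ≤ R := by linarith
    exact_mod_cast this
  have hRR₀ : R₀ ≤ R := by
    have h1 : w ≤ L := by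
      rw [← hw4]
      exact le_self_pow₀ (by linarith) (by norm_num)
    have h2 : (R₀ : ℝ) ≤ R := by linarith
    exact_mod_cast h2
  have hR2 : R ^ 2 ≤ Z := by
    have h1 : (R : ℝ) ^ 2 ≤ Z := by
      have h2 : (R : ℝ) ^ 2 ≤ (2 * L ^ 4) ^ 2 := pow_le_pow_left₀ hR0.le hRle 2
      have h3 := Real.pow_div_factorial_le_exp L hL0.le 9
      rw [← hZexp] at h3
      have h4 : (2 * L ^ 4) ^ 2 ≤ L ^ 9 / (Nat.factorial 9 : ℝ) := by
        rw [le_div_iff₀ (by positivity)]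
        have h5 : ((Nat.factorial 9 : ℕ) : ℝ) = 362880 := by norm_num [Nat.factorial]
        rw [h5]
        have h6 : L ^ 8 * 1451520 ≤ L ^ 8 * L :=
          mul_le_mul_of_nonneg_left (by linarith) (by positivity)
        calc (2 * L ^ 4) ^ 2 * 362880 = L ^ 8 * 1451520 := by ring
          _ ≤ L ^ 8 * L := h6
          _ = L ^ 9 := by ring
      linarith
    exact_mod_cast h1
  have hRZ : R ≤ Z := (Nat.le_self_pow (by norm_num) R).trans hR2
  have hZ2 : 2 ≤ Z := by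
    have h1 := Real.add_one_le_exp L
    rw [← hZexp] at h1
    have h2 : (2 : ℝ) ≤ Z := by linarith
    exact_mod_cast h2
  have hlogR : Real.log R ≤ 5 * Real.log L := by
    have h1 : Real.log R ≤ Real.log (2 * L ^ 4) := Real.log_le_log hR0 hRle
    rw [Real.log_mul (by norm_num) (by positivity), Real.log_pow] at h1
    have h2 := Real.log_two_lt_d9
    push_cast at h1
    linarith
  have hlogR0 : 0 < Real.log R := by
    apply Real.log_pos
    linarith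
  have hlogR2 : (Real.log R) ^ 2 ≤ Real.log Z := by
    rw [← hL]
    have h1 : Real.log R ≤ 20 * w := by linarith
    have h2 : (Real.log R) ^ 2 ≤ (20 * w) ^ 2 := pow_le_pow_left₀ hlogR0.le h1 2
    have h3 : (20 * w) ^ 2 ≤ w ^ 4 := by
      have h4 : (20 : ℝ) ^ 2 ≤ w ^ 2 := pow_le_pow_left₀ (by norm_num) (by linarith) 2
      have h5 := mul_le_mul_of_nonneg_right h4 (by positivity : 0 ≤ w ^ 2)
      calc (20 * w) ^ 2 = 20 ^ 2 * w ^ 2 := by ring
        _ ≤ w ^ 2 * w ^ 2 := h5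
        _ = w ^ 4 := by ring
    rw [hw4] at h3
    linarith
  -- total mass
  obtain ⟨lam, hlamd⟩ : ∃ lam : ℝ, lam = ∑ t ∈ Idx R Z R, (1 / (mo t : ℝ)) := ⟨_, rfl⟩
  have hlam1 : c1 / 5 * L ^ 2 / Real.log L ≤ lam := by
    have h1 := hlam R hRR₀ R Z hR1 hR2 hlogR2
    rw [← hlamd, ← hL] at h1
    refine le_trans ?_ h1
    rw [div_le_div_iff₀ hlogL0 hlogR0]
    have h2 := mul_le_mul_of_nonneg_left hlogR (by positivity : 0 ≤ c1 / 5 * L ^ 2)
    linarith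
  have hlam2 : 20480 * L ≤ lam := by
    refine le_trans ?_ hlam1
    rw [le_div_iff₀ hlogL0]
    have h1 : 20480 * L * Real.log L ≤ 20480 * L * (4 * w) :=
      mul_le_mul_of_nonneg_left hlogL (by positivity)
    have h2 : 409600 ≤ c1 * w := by
      have h3 := (div_le_iff₀ hc1).1 (hWc.trans hwW)
      linarith
    have h4 : w ≤ w ^ 3 := le_self_pow₀ (by linarith) (by norm_num)
    have h5 : 409600 * w ≤ c1 * L := by
      rw [← hw4]
      have h6 : 409600 * w ^ 3 ≤ c1 * w * w ^ 3 :=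
        mul_le_mul_of_nonneg_right h2 (by positivity)
      have h7 : 409600 * w ≤ 409600 * w ^ 3 := by linarith
      calc 409600 * w ≤ c1 * w * w ^ 3 := h7.trans h6
        _ = c1 * w ^ 4 := by ring
    have h8 := mul_le_mul_of_nonneg_left h5 (by positivity : 0 ≤ L / 5)
    calc 20480 * L * Real.log L ≤ 20480 * L * (4 * w) := h1
      _ = L / 5 * (409600 * w) := by ring
      _ ≤ L / 5 * (c1 * L) := h8
      _ = c1 / 5 * L ^ 2 := by ring
  have hlam0 : 0 < lam := by linarith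
  -- `δ`
  obtain ⟨δ, hδ⟩ : ∃ δ : ℝ, δ = 8 * (1 + Real.log Z) ^ 3 / R := ⟨_, rfl⟩
  have h1L : 1 + L ≤ 2 * L := by linarith
  have hL3 : (1 + L) ^ 3 ≤ 8 * L ^ 3 := by
    have h1 := pow_le_pow_left₀ (by linarith) h1L 3
    calc (1 + L) ^ 3 ≤ (2 * L) ^ 3 := h1
      _ = 8 * L ^ 3 := by ring
  have hL5 : (1 + L) ^ 5 ≤ 32 * L ^ 5 := by
    have h1 := pow_le_pow_left₀ (by linarith) h1L 5
    calc (1 + L) ^ 5 ≤ (2 * L) ^ 5 := h1
      _ = 32 * L ^ 5 := by ring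
  have hL3R : (1 + L) ^ 3 / R ≤ 8 / L := by
    rw [div_le_div_iff₀ hR0 hL0]
    have h1 := mul_le_mul_of_nonneg_right hL3 hL0.le
    have h2 : 8 * L ^ 3 * L = 8 * L ^ 4 := by ring
    linarith
  have hL5R : (1 + L) ^ 5 / R ≤ 32 * L := by
    rw [div_le_iff₀ hR0]
    have h1 : 32 * L * L ^ 4 ≤ 32 * L * R := mul_le_mul_of_nonneg_left hRge (by positivity)
    have h2 : 32 * L ^ 5 = 32 * L * L ^ 4 := by ring
    linarith
  have h8L : 8 / L ≤ 1 / 128 := by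
    rw [div_le_div_iff₀ hL0 (by norm_num)]
    linarith
  have hδ1 : δ ≤ 1 / 16 := by
    rw [hδ, ← hL, mul_div_assoc]
    linarith
  have hδ0 : 0 ≤ δ := by
    rw [hδ, ← hL]
    positivity
  -- average correlation
  obtain ⟨τ, hτ⟩ : ∃ τ : ℕ × ℕ → ℝ, τ = fun t => ∑ t' ∈ (Idx R Z R).erase t,
    (1 / (mo t' : ℝ)) * |uu mo cl t t'| := ⟨_, rfl⟩
  have hτnn : ∀ t, 0 ≤ τ t := by
    intro t
    rw [hτ]
    exact Finset.sum_nonneg fun t' _ => mul_nonneg (by positivity) (abs_nonneg _)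
  have hT : ∑ t ∈ Idx R Z R, (1 / (mo t : ℝ)) * τ t ≤ lam / 4 := by
    have h1 := tau_avg R Z R hR1 hZ2 hRZ (by
      rw [← hL]
      have h2 : (20 : ℝ) * L ≤ L * L := mul_le_mul_of_nonneg_right (by linarith) hL0.le
      have h3 : L * L ≤ L ^ 4 := by
        have h4 : L ^ 2 ≤ L ^ 4 := pow_le_pow_right₀ (by linarith) (by norm_num)
        linarith [sq L]
      linarith)
    rw [← hlamd, ← hδ, ← hL] at h1
    rw [hτ]
    refine h1.trans ?_
    have h2 : lam * δ ≤ lam * (1 / 16) := mul_le_mul_of_nonneg_left hδ1 hlam0.le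
    have h3 : 96 * (1 + L) ^ 3 / R ≤ 1 := by
      rw [mul_div_assoc]
      linarith
    have h4 : 40 * (1 + L) ^ 5 / R ≤ 1280 * L := by
      rw [mul_div_assoc]
      linarith
    linarith
  -- the good events
  obtain ⟨I, hI⟩ : ∃ I : Finset (ℕ × ℕ), I = (Idx R Z R).filter (fun t => τ t ≤ 1) := ⟨_, rfl⟩
  have hIs : I ⊆ Idx R Z R := by
    rw [hI]
    exact Finset.filter_subset _ _
  have hImass : 3 / 4 * lam ≤ ∑ t ∈ I, (1 / (mo t : ℝ)) := by
    have h1 : ∑ t ∈ I, (1 / (mo t : ℝ)) +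
        ∑ t ∈ (Idx R Z R).filter (fun t => ¬ τ t ≤ 1), (1 / (mo t : ℝ)) = lam := by
      rw [hI, hlamd]
      exact Finset.sum_filter_add_sum_filter_not _ _ _
    have h2 : ∑ t ∈ (Idx R Z R).filter (fun t => ¬ τ t ≤ 1), (1 / (mo t : ℝ)) ≤
        ∑ t ∈ Idx R Z R, (1 / (mo t : ℝ)) * τ t := by
      refine (Finset.sum_le_sum (g := fun t => (1 / (mo t : ℝ)) * τ t) ?_).trans
        (Finset.sum_le_sum_of_subset_of_nonneg (Finset.filter_subset _ _) ?_)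
      · intro t ht
        have h3 := (Finset.mem_filter.1 ht).2
        push Not at h3
        have h4 : (0 : ℝ) ≤ 1 / (mo t : ℝ) := by positivity
        have h5 := mul_le_mul_of_nonneg_left h3.le h4
        linarith
      · intro t _ _
        exact mul_nonneg (by positivity) (hτnn t)
    linarith
  have hmem : ∀ t ∈ Idx R Z R, 1 ≤ t.1 ∧ t.1 ≤ Z ∧ 1 ≤ t.2 ∧ t.2 ≤ Z ^ 4 := by
    intro t ht
    have h1 := Finset.mem_product.1 (Finset.mem_filter.1 ht).1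
    rw [Finset.mem_Icc, Finset.mem_Icc] at h1
    have h2 : 1 ≤ Z ^ 3 := Nat.one_le_pow _ _ (by omega)
    exact ⟨by omega, h1.1.2, by omega, h1.2.2⟩
  have hklam : (k : ℝ) ≤ lam / 200 := by
    rw [← hL] at hk
    have h1 : c1 / 1000 * L ^ 2 / Real.log L = (c1 / 5 * L ^ 2 / Real.log L) / 200 := by ring
    rw [h1] at hk
    linarith
  have hk0 : (0 : ℝ) ≤ k := Nat.cast_nonneg _
  have hmain := sieve I mo cl
    (by
      intro t ht
      obtain ⟨h1, -, h3, -⟩ := hmem t (hIs ht)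
      have : 1 ≤ t.1 * t.2 := Nat.mul_pos h1 h3
      unfold mo
      omega) δ
    (by
      intro t₁ ht₁
      rw [hδ]
      refine le_trans ?_ (delta_bound R Z R hR1 hZ2 hR1 hRZ t₁ (hIs ht₁))
      apply Finset.sum_le_sum_of_subset_of_nonneg
      · exact Finset.filter_subset_filter _ hIs
      · intro t _ _
        positivity) k hk1
    (by
      have h1 : (k : ℝ) * δ ≤ k * 1 := mul_le_mul_of_nonneg_left (by linarith) hk0
      linarith)
    (by linarith)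
    (by
      intro t ht
      have h1 : τ t ≤ 1 := by
        rw [hI] at ht
        exact (Finset.mem_filter.1 ht).2
      refine le_trans ?_ h1
      rw [hτ]
      apply Finset.sum_le_sum_of_subset_of_nonneg
      · exact Finset.erase_subset_erase _ hIs
      · intro t' _ _
        exact mul_nonneg (by positivity) (abs_nonneg _)) N
  -- count
  have hsub : (Icc 1 N).filter (fun n => NoRep n) ⊆
      (Icc 1 N).filter (fun n : ℕ => ∀ i ∈ I, ¬ (n : ℤ) ≡ cl i [ZMOD (mo i : ℤ)]) ∪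
        Icc 1 (2 * Z ^ 4) := by
    intro n hn
    obtain ⟨hn1, hn2⟩ := Finset.mem_filter.1 hn
    rw [Finset.mem_union]
    by_cases hbig : n ≤ 2 * Z ^ 4
    · right
      exact Finset.mem_Icc.2 ⟨(Finset.mem_Icc.1 hn1).1, hbig⟩
    · left
      exact Finset.mem_filter.2 ⟨hn1, fna_cover I Z
        (fun t ht => hmem t (hIs ht)) n hn2 hbig⟩
  have hcard := (Finset.card_le_card hsub).trans (Finset.card_union_le _ _)
  rw [Nat.card_Icc, Nat.add_sub_cancel] at hcard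
  have hcard2 : (((Icc 1 N).filter (fun n => NoRep n)).card : ℝ) ≤
      (((Icc 1 N).filter (fun n : ℕ => ∀ i ∈ I, ¬ (n : ℤ) ≡ cl i [ZMOD (mo i : ℤ)])).card : ℝ) +
        2 * (Z : ℝ) ^ 4 := by
    exact_mod_cast hcard
  have hIcard : (I.card : ℝ) ≤ (Z : ℝ) ^ 5 := by
    have h1 : I.card ≤ Z ^ 5 := by
      have h2 : I ⊆ (Icc 1 Z) ×ˢ (Icc 1 (Z ^ 4)) := by
        intro t ht
        obtain ⟨h1, h2, h3, h4⟩ := hmem t (hIs ht)
        exact Finset.mem_product.2 ⟨Finset.mem_Icc.2 ⟨h1, h2⟩, Finset.mem_Icc.2 ⟨h3, h4⟩⟩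
      have h3 := Finset.card_le_card h2
      rw [Finset.card_product, Nat.card_Icc, Nat.card_Icc, Nat.add_sub_cancel,
        Nat.add_sub_cancel] at h3
      calc I.card ≤ Z * Z ^ 4 := h3
        _ = Z ^ 5 := by ring
    exact_mod_cast h1
  have hpow : (2 * (I.card : ℝ)) ^ (2 * k) ≤ (2 * (Z : ℝ) ^ 5) ^ (2 * k) :=
    pow_le_pow_left₀ (mul_nonneg zero_le_two (Nat.cast_nonneg _)) (by linarith) _
  linarith

end Pool.Agent.SCM
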