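import Mathlib
import Pool.Agent.SCM.Defs
import Pool.Agent.SCM.FNA

set_option autoImplicit false

/-!
# Module FNB
Choice of the parameters.

Proof. Let `l = log N`, `l₂ = log log N`, `η > 0` small, `Z = ⌊exp (η (l l₂)^(1/3))⌋` and
`k = ⌊c η^2 l^(2/3) l₂^(-1/3)⌋` (or smaller). For large `N`: `log Z ~ η (l l₂)^(1/3)`,
`log log Z ~ l₂/3`, so `c (log Z)^2/log log Z ≥ c η^2 l^(2/3) l₂^(-1/3) ≥ k` (the true value is about
three times this). `(2 Z^5)^(2k) ≤ exp (2 k (5 log Z + 1)) ≤ exp (12 k log Z) ≤ exp (12 c η^3 l) ≤ N^(1/2)`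
if `12 c η^3 ≤ 1/2`, and `Z^4 ≤ N^(1/2)` for large `N`. So the total is
`≤ 2 e N exp (-c η^2 l^(2/3) l₂^(-1/3)) + 6 N^(1/2) ≤ N exp (-(c η^2/2) l^(2/3) l₂^(-1/3))`.
-/

namespace Pool.Agent.SCM

open Finset

open Classical in
theorem final_bound : ∃ c : ℝ, 0 < c ∧ ∃ N₀ : ℕ, ∀ N : ℕ, N₀ ≤ N →
    (((Icc 1 N).filter (fun n => NoRep n)).card : ℝ) ≤
      N * Real.exp (-(c * (Real.log N) ^ (2 / 3 : ℝ) / (Real.log (Real.log N)) ^ (1 / 3 : ℝ))) := by
  obtain ⟨c0, hc0, Z₀, hZ₀, hb⟩ := bound_Z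
  obtain ⟨η, hη⟩ : ∃ η : ℝ, η = 1 / (1 + 6 * c0) := ⟨_, rfl⟩
  have hη0 : 0 < η := by rw [hη]; positivity
  have hη1 : η ≤ 1 := by
    rw [hη, div_le_one (by positivity)]
    linarith
  have hη2 : c0 * η ≤ 1 / 6 := by
    rw [hη, mul_one_div, div_le_iff₀ (by positivity)]
    linarith
  have hη3 : c0 * η ^ 3 ≤ 1 / 6 := by
    have h1 : η ^ 2 ≤ 1 := pow_le_one₀ hη0.le hη1
    calc c0 * η ^ 3 = (c0 * η) * η ^ 2 := by ring
      _ ≤ (1 / 6) * 1 := mul_le_mul hη2 h1 (by positivity) (by norm_num)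
      _ = 1 / 6 := by ring
  obtain ⟨c', hc'⟩ : ∃ c' : ℝ, c' = c0 * η ^ 2 / 4 := ⟨_, rfl⟩
  have hc'0 : 0 < c' := by rw [hc']; positivity
  have hZ₀' : (3 : ℝ) ≤ Z₀ := by exact_mod_cast hZ₀
  obtain ⟨M, hM⟩ : ∃ M : ℝ, M = 8 + 2 * Z₀ / η + 8 / c' + 2 * c' := ⟨_, rfl⟩
  have hM8 : 8 ≤ M := by
    rw [hM]
    have h1 : 0 ≤ 2 * (Z₀ : ℝ) / η := by positivity
    have h2 : 0 ≤ 8 / c' := by positivity
    linarith
  refine ⟨c' / 2, by positivity, ⌈Real.exp (M ^ 3)⌉₊, fun N hN => ?_⟩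
  have hN1 : Real.exp (M ^ 3) ≤ N := (Nat.le_ceil _).trans (by exact_mod_cast hN)
  have hN0 : (0 : ℝ) < N := (Real.exp_pos _).trans_le hN1
  obtain ⟨L, hL⟩ : ∃ L : ℝ, L = Real.log N := ⟨_, rfl⟩
  have hL1 : M ^ 3 ≤ L := by
    rw [hL, Real.le_log_iff_exp_le hN0]
    exact hN1
  have hM3 : (8 : ℝ) ^ 3 ≤ M ^ 3 := pow_le_pow_left₀ (by norm_num) hM8 3
  have hL512 : 512 ≤ L := by
    norm_num at hM3
    linarith
  have hL0 : 0 < L := by linarith
  obtain ⟨u, hu⟩ : ∃ u : ℝ, u = L ^ (1 / 3 : ℝ) := ⟨_, rfl⟩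
  obtain ⟨v, hv⟩ : ∃ v : ℝ, v = (Real.log L) ^ (1 / 3 : ℝ) := ⟨_, rfl⟩
  have hlogL1 : 1 ≤ Real.log L := by
    rw [Real.le_log_iff_exp_le hL0]
    have := Real.exp_one_lt_d9
    linarith
  have hlogL0 : 0 < Real.log L := by linarith
  have hu3 : u ^ 3 = L := by
    rw [hu, ← Real.rpow_natCast, ← Real.rpow_mul hL0.le]
    norm_num
  have hv3 : v ^ 3 = Real.log L := by
    rw [hv, ← Real.rpow_natCast, ← Real.rpow_mul hlogL0.le]
    norm_num
  have hu0 : 0 < u := by rw [hu]; positivity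
  have hv0 : 0 < v := by rw [hv]; positivity
  have huM : M ≤ u := by
    apply le_of_pow_le_pow_left₀ (n := 3) (by norm_num) hu0.le
    rw [hu3]
    exact hL1
  have hv1 : 1 ≤ v := by
    rw [hv]
    exact Real.one_le_rpow hlogL1 (by norm_num)
  have hvu : v ≤ u := by
    rw [hv, hu]
    apply Real.rpow_le_rpow hlogL0.le _ (by norm_num)
    have := Real.log_le_sub_one_of_pos hL0
    linarith
  have hu2 : (Real.log N) ^ (2 / 3 : ℝ) = u ^ 2 := by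
    rw [hu, ← hL, ← Real.rpow_natCast, ← Real.rpow_mul hL0.le]
    norm_num
  have hη' : 2 * (Z₀ : ℝ) ≤ η * u := by
    have h1 : 2 * (Z₀ : ℝ) / η ≤ u := by
      refine le_trans ?_ huM
      rw [hM]
      have h2 : 0 ≤ 8 / c' := by positivity
      linarith
    rw [div_le_iff₀ hη0] at h1
    linarith
  have hcu : 8 ≤ c' * u := by
    have h1 : 8 / c' ≤ u := by
      refine le_trans ?_ huM
      rw [hM]
      have h2 : 0 ≤ 2 * (Z₀ : ℝ) / η := by positivity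
      linarith
    rw [div_le_iff₀ hc'0] at h1
    linarith
  have hcu2 : 2 * c' ≤ u := by
    refine le_trans ?_ huM
    rw [hM]
    have h1 : 0 ≤ 2 * (Z₀ : ℝ) / η := by positivity
    have h2 : 0 ≤ 8 / c' := by positivity
    linarith
  have hu8 : 8 ≤ u := hM8.trans huM
  -- A and κ
  obtain ⟨A, hA⟩ : ∃ A : ℝ, A = η * u * v := ⟨_, rfl⟩
  obtain ⟨κ, hκ⟩ : ∃ κ : ℝ, κ = c' * u ^ 2 / v := ⟨_, rfl⟩
  have hA1 : 2 * (Z₀ : ℝ) ≤ A := by
    rw [hA]
    have h1 : η * u * 1 ≤ η * u * v := mul_le_mul_of_nonneg_left hv1 (by positivity)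
    linarith
  have hA6 : 6 ≤ A := by linarith
  have hA2 : A ≤ u ^ 3 / 8 := by
    rw [hA]
    have h1 : η * u * v ≤ 1 * u * u :=
      mul_le_mul (mul_le_mul_of_nonneg_right hη1 hu0.le) hvu hv0.le (by positivity)
    have h2 : 8 * (u * u) ≤ u * (u * u) := mul_le_mul_of_nonneg_right hu8 (by positivity)
    linarith
  have hκ8 : 8 ≤ κ := by
    rw [hκ, le_div_iff₀ hv0]
    have h1 : 8 * v ≤ 8 * u := by linarith
    have h2 : 8 * u ≤ c' * u * u := mul_le_mul_of_nonneg_right hcu hu0.le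
    linarith
  have hκ2 : κ ≤ u ^ 3 / 2 := by
    rw [hκ, div_le_iff₀ hv0]
    have h1 : 2 * c' * u ^ 2 ≤ u * u ^ 2 := mul_le_mul_of_nonneg_right hcu2 (by positivity)
    have h2 : u ^ 3 * 1 ≤ u ^ 3 * v := mul_le_mul_of_nonneg_left hv1 (by positivity)
    linarith
  have hκA : κ * A = c0 * η ^ 3 / 4 * u ^ 3 := by
    rw [hκ, hA, hc']
    field_simp
  -- Z and k
  obtain ⟨Z, hZ⟩ : ∃ Z : ℕ, Z = ⌊Real.exp A⌋₊ := ⟨_, rfl⟩
  obtain ⟨k, hk⟩ : ∃ k : ℕ, k = ⌊κ⌋₊ := ⟨_, rfl⟩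
  have hexpA : A + 1 ≤ Real.exp A := Real.add_one_le_exp A
  have hZle : (Z : ℝ) ≤ Real.exp A := by
    rw [hZ]
    exact Nat.floor_le (Real.exp_pos _).le
  have hZge : Real.exp A < Z + 1 := by
    rw [hZ]
    exact Nat.lt_floor_add_one _
  have hZZ₀ : Z₀ ≤ Z := by
    have h1 : (Z₀ : ℝ) ≤ Z := by linarith
    exact_mod_cast h1
  have hZ0 : (0 : ℝ) < Z := by
    have h1 : (Z₀ : ℝ) ≤ Z := by exact_mod_cast hZZ₀
    linarith
  have hexph : 4 ≤ Real.exp (A / 2) := by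
    have := Real.add_one_le_exp (A / 2)
    linarith
  have hexpsq : Real.exp A = Real.exp (A / 2) * Real.exp (A / 2) := by
    rw [← Real.exp_add]
    congr 1
    ring
  have hlogZ1 : A / 2 ≤ Real.log Z := by
    rw [Real.le_log_iff_exp_le hZ0]
    have h1 := mul_le_mul_of_nonneg_left hexph (Real.exp_pos (A / 2)).le
    linarith
  have hlogZ2 : Real.log Z ≤ A := by
    rw [Real.log_le_iff_le_exp hZ0]
    exact hZle
  have hlogZ0 : 0 < Real.log Z := by linarith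
  have hll1 : 0 < Real.log (Real.log Z) := by
    apply Real.log_pos
    linarith
  have hll2 : Real.log (Real.log Z) ≤ v ^ 3 := by
    rw [hv3]
    apply Real.log_le_log hlogZ0
    rw [hu3] at hA2
    linarith
  have hk1 : 1 ≤ k := by
    rw [hk]
    exact Nat.le_floor (by push_cast; linarith)
  have hkκ : (k : ℝ) ≤ κ := by
    rw [hk]
    exact Nat.floor_le (by linarith)
  have hkκ2 : κ < k + 1 := by
    rw [hk]
    exact Nat.lt_floor_add_one _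
  have hkb : (k : ℝ) ≤ c0 * (Real.log Z) ^ 2 / Real.log (Real.log Z) := by
    refine hkκ.trans ?_
    rw [le_div_iff₀ hll1]
    have h1 : κ * Real.log (Real.log Z) ≤ κ * v ^ 3 :=
      mul_le_mul_of_nonneg_left hll2 (by linarith)
    have h2 : κ * v ^ 3 = c0 * (A / 2) ^ 2 := by
      rw [hκ, hA, hc']
      field_simp
      ring
    have h3 : (A / 2) ^ 2 ≤ (Real.log Z) ^ 2 := pow_le_pow_left₀ (by linarith) hlogZ1 2
    have h4 := mul_le_mul_of_nonneg_left h3 hc0.le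
    linarith
  have hmain := hb Z hZZ₀ k hk1 hkb N
  refine hmain.trans ?_
  -- the three terms
  have hNexp : (N : ℝ) = Real.exp (u ^ 3) := by
    rw [hu3, hL, Real.exp_log hN0]
  have hexp2 : (2 : ℝ) ≤ Real.exp A := by linarith
  have hT2 : (2 * (Z : ℝ) ^ 5) ^ (2 * k) ≤ Real.exp (u ^ 3 / 2) := by
    have h1 : 2 * (Z : ℝ) ^ 5 ≤ Real.exp (6 * A) := by
      have h2 : (Z : ℝ) ^ 5 ≤ (Real.exp A) ^ 5 := pow_le_pow_left₀ hZ0.le hZle 5
      have h3 : Real.exp (6 * A) = Real.exp A * (Real.exp A) ^ 5 := by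
        rw [← Real.exp_nat_mul, ← Real.exp_add]
        congr 1
        push_cast
        ring
      rw [h3]
      exact mul_le_mul hexp2 h2 (by positivity) (Real.exp_pos _).le
    have h4 : (2 * (Z : ℝ) ^ 5) ^ (2 * k) ≤ (Real.exp (6 * A)) ^ (2 * k) :=
      pow_le_pow_left₀ (by positivity) h1 _
    refine h4.trans ?_
    rw [← Real.exp_nat_mul]
    apply Real.exp_le_exp.2
    push_cast
    have h5 : (k : ℝ) * A ≤ κ * A := mul_le_mul_of_nonneg_right hkκ (by linarith)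
    have h6 : c0 * η ^ 3 * u ^ 3 ≤ 1 / 6 * u ^ 3 :=
      mul_le_mul_of_nonneg_right hη3 (by positivity)
    linarith
  have hT3 : (Z : ℝ) ^ 4 ≤ Real.exp (u ^ 3 / 2) := by
    have h2 : (Z : ℝ) ^ 4 ≤ (Real.exp A) ^ 4 := pow_le_pow_left₀ hZ0.le hZle 4
    refine h2.trans ?_
    rw [← Real.exp_nat_mul]
    apply Real.exp_le_exp.2
    push_cast
    linarith
  have hexpo : c' / 2 * (Real.log N) ^ (2 / 3 : ℝ) / (Real.log (Real.log N)) ^ (1 / 3 : ℝ) =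
      κ / 2 := by
    rw [hu2, ← hL, ← hv, hκ]
    ring
  rw [hexpo]
  have hT1 : 2 * (N : ℝ) * Real.exp (-(k : ℝ)) ≤ N * Real.exp (-(κ / 2)) * (1 / 2) := by
    have h1 : Real.exp (-(k : ℝ)) ≤ Real.exp (-(κ / 2)) * Real.exp (1 - κ / 2) := by
      rw [← Real.exp_add]
      apply Real.exp_le_exp.2
      linarith
    have h2 : Real.exp (1 - κ / 2) ≤ 1 / 4 := by
      have h3 : Real.exp (1 - κ / 2) ≤ Real.exp (-3) := by
        apply Real.exp_le_exp.2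
        linarith
      refine h3.trans ?_
      rw [Real.exp_neg, ← one_div]
      apply one_div_le_one_div_of_le (by norm_num)
      have := Real.add_one_le_exp (3 : ℝ)
      linarith
    have h4 : Real.exp (-(k : ℝ)) ≤ Real.exp (-(κ / 2)) * (1 / 4) :=
      h1.trans (mul_le_mul_of_nonneg_left h2 (Real.exp_pos _).le)
    have h5 := mul_le_mul_of_nonneg_left h4 (by positivity : (0 : ℝ) ≤ 2 * N)
    linarith
  have hT4 : Real.exp (u ^ 3 / 2) * 12 ≤ N * Real.exp (-(κ / 2)) := by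
    rw [hNexp, ← Real.exp_add]
    have h1 : u ^ 3 + -(κ / 2) = u ^ 3 / 2 + (u ^ 3 / 2 - κ / 2) := by ring
    rw [h1, Real.exp_add]
    apply mul_le_mul_of_nonneg_left _ (Real.exp_pos _).le
    have h2 := Real.add_one_le_exp (u ^ 3 / 2 - κ / 2)
    rw [hu3] at h2 hκ2 ⊢
    linarith
  have h7 := mul_le_mul_of_nonneg_left hT2 (by norm_num : (0 : ℝ) ≤ 4)
  have h8 := mul_le_mul_of_nonneg_left hT3 (by norm_num : (0 : ℝ) ≤ 2)
  linarith

end Pool.Agent.SCM
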